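import Mathlib
import Pool.Agent.Mbar.Defs
import Pool.Agent.Mbar.SSet

/-! # Moduli spaces of points in the projective plane: definitions

`R` is a finite set of labels, `Ω` an algebraically closed field with its `q`-power map. A family
of points of the projective plane over `Ω` with labels in `R` is a map `x : R → ℙ Ω (Fin 3 → Ω)`. -/

noncomputable section

namespace Pool.Agent.PPL

open Polynomial Module
open scoped Classical LinearAlgebra.Projectivization
open Pool.Agent.Mbar (Setup SSet IsSP)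

/-- the ground field is algebraically closed, `q` is a power of the characteristic and the field is
algebraic over its prime field -/
structure Hyp (Ω : Type) [Field Ω] (q : ℕ) : Prop where
  setup : Setup Ω q
  alg : ∀ a : Ω, ∃ N, 1 ≤ N ∧ a ^ (q ^ N) = a

section geometry

variable {Ω : Type} [Field Ω]

/-- the `q`-power map on vectors -/
def frobV (q : ℕ) {m : ℕ} (v : Fin m → Ω) : Fin m → Ω := fun j => v j ^ q

lemma frobV_ne_zero (q : ℕ) {m : ℕ} {v : Fin m → Ω} (hv : v ≠ 0) : frobV q v ≠ 0 := by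
  obtain ⟨j, hj⟩ := Function.ne_iff.mp hv
  exact Function.ne_iff.mpr ⟨j, pow_ne_zero q hj⟩

/-- the `q`-power map on the projective plane -/
def frobPt (q : ℕ) (x : ℙ Ω (Fin 3 → Ω)) : ℙ Ω (Fin 3 → Ω) :=
  Projectivization.mk Ω (frobV q x.rep) (frobV_ne_zero q x.rep_nonzero)

/-- the subspace `U` is defined over the field with `q` elements -/
def RatSub (q : ℕ) {m : ℕ} (U : Submodule Ω (Fin m → Ω)) : Prop := ∀ v ∈ U, frobV q v ∈ U

/-- rational points, as subspaces -/
def RPts (Ω : Type) [Field Ω] (q : ℕ) : Set (Submodule Ω (Fin 3 → Ω)) :=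
  {U | RatSub q U ∧ finrank Ω U = 1}

/-- rational lines, as subspaces -/
def RLns (Ω : Type) [Field Ω] (q : ℕ) : Set (Submodule Ω (Fin 3 → Ω)) :=
  {U | RatSub q U ∧ finrank Ω U = 2}

variable {R : Type}

/-- number of points of the family in the subspace `U` -/
def hct (x : R → ℙ Ω (Fin 3 → Ω)) (U : Submodule Ω (Fin 3 → Ω)) : ℕ :=
  Nat.card {i : R // (x i).submodule ≤ U}

/-- stable families: each subspace contains few points -/
def Stable (x : R → ℙ Ω (Fin 3 → Ω)) : Prop :=
  ∀ U : Submodule Ω (Fin 3 → Ω), U ≠ ⊥ → U ≠ ⊤ → 3 * hct x U < Nat.card R * finrank Ω U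

/-- the subspace `U` contains too many points -/
def Hvy (x : R → ℙ Ω (Fin 3 → Ω)) (U : Submodule Ω (Fin 3 → Ω)) : Prop :=
  Nat.card R * finrank Ω U < 3 * hct x U

/-- families equivariant for the permutation `τ` of the labels and the `q`-power map -/
def EConf (Ω : Type) [Field Ω] (q : ℕ) (τ : Equiv.Perm R) : Set (R → ℙ Ω (Fin 3 → Ω)) :=
  {x | ∀ i, x (τ i) = frobPt q (x i)}

/-- stable families up to projective transformations -/
def projRel (Ω R : Type) [Field Ω] : Setoid {x : R → ℙ Ω (Fin 3 → Ω) // Stable x} where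
  r x y := ∃ g : GL (Fin 3) Ω, ∀ i, y.1 i = g • x.1 i
  iseqv := by
    refine ⟨fun x => ⟨1, fun i => (one_smul _ _).symm⟩, ?_, ?_⟩
    · rintro x y ⟨g, hg⟩
      exact ⟨g⁻¹, fun i => by rw [hg, inv_smul_smul]⟩
    · rintro x y z ⟨g, hg⟩ ⟨h, hh⟩
      exact ⟨h * g, fun i => by rw [hh, hg, mul_smul]⟩

/-- the number of points over the field with `q` elements of the twist by `τ` of the moduli space of
points in the plane -/
def twCount (Ω : Type) [Field Ω] (q : ℕ) {R : Type} (τ : Equiv.Perm R) : ℕ :=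
  Nat.card {c : Quotient (projRel Ω R) // ∀ x, Quotient.mk (projRel Ω R) x = c →
    ∃ g : GL (Fin 3) Ω, ∀ i, frobPt q (x.1 i) = g • x.1 (τ i)}

/-- the position of a point with respect to a flag -/
def typ (U₁ U₂ : Submodule Ω (Fin 3 → Ω)) (x : ℙ Ω (Fin 3 → Ω)) : Fin 3 :=
  if x.submodule ≤ U₁ then 0 else if x.submodule ≤ U₂ then 1 else 2

end geometry

section combinatorics

variable {R : Type} [Fintype R]

/-- number of labels of type `j` -/
def cnt (s : R → Fin 3) (j : Fin 3) : ℕ := (Finset.univ.filter (fun i => s i = j)).card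

/-- the functions to `{0, 1, 2}` invariant under `τ`, that is, the invariant ordered partitions of
the labels in three parts -/
def Inv (τ : Equiv.Perm R) : Finset (R → Fin 3) :=
  Finset.univ.filter (fun s => ∀ i, s (τ i) = s i)

/-- number of invariant ordered partitions with parts of size `x, y, z` -/
def T (τ : Equiv.Perm R) (x y z : ℕ) : ℕ :=
  ((Inv τ).filter (fun s => cnt s 0 = x ∧ cnt s 1 = y ∧ cnt s 2 = z)).card

/-- the weight of an ordered partition -/
def wt (s : R → Fin 3) : ℤ[X] :=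
  if Fintype.card R < 3 * cnt s 0 then
    (if 3 * cnt s 2 < Fintype.card R then X ^ 3 else -X - X ^ 2)
  else (if 3 * cnt s 2 < Fintype.card R then -X - X ^ 2 else 1)

/-- the polynomial computing the number of stable equivariant families -/
def numP (τ : Equiv.Perm R) : ℤ[X] :=
  ∑ s ∈ Inv τ, X ^ (cnt s 1 + 2 * cnt s 2) * wt s

end combinatorics

/-- number of pairs `(i, j)` of natural numbers with `2 i + 3 j = N` -/
def pz (N : ℤ) : ℤ := if N < 0 then 0 else N / 6 + (if N % 6 = 1 then 0 else 1)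

/-- `pz N + pz (N - 1)` -/
def gz (N : ℤ) : ℤ := if N < 0 then 0 else N / 3 + 1

/-- contribution of an ordered partition with parts `a, b, c` of `n` labels to the coefficient of
degree `k` -/
def kap (n k a b c : ℕ) : ℤ :=
  if n < 3 * a then
    (if 3 * c < n then pz ((k : ℤ) - b - 2 * c) else -gz ((k : ℤ) + 2 - b - 2 * c))
  else
    (if 3 * c < n then -gz ((k : ℤ) + 2 - b - 2 * c) else pz ((k : ℤ) + 3 - b - 2 * c))

/-- coefficient of the unordered partition `x ≥ y ≥ z` of `n` in degree `k` -/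
def cf (n k x y z : ℕ) : ℤ :=
  if n < 3 * y then
    (if x = y then pz ((k : ℤ) - y - 2 * z) else
      pz ((k : ℤ) - y - 2 * z) + pz ((k : ℤ) - x - 2 * z) - gz ((k : ℤ) + 2 - n + x - y))
  else
    (if y = z then pz ((k : ℤ) - y - 2 * z) else
      pz ((k : ℤ) - y - 2 * z) + pz ((k : ℤ) - z - 2 * y) - gz ((k : ℤ) + 2 - n + y - z))

/-- partitions of `n` in three parts -/
def trip (n : ℕ) : Finset (ℕ × ℕ × ℕ) :=
  ((Finset.range (n + 1)) ×ˢ (Finset.range (n + 1)) ×ˢ (Finset.range (n + 1))).filter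
    (fun t => t.1 + t.2.1 + t.2.2 = n ∧ t.2.1 ≤ t.1 ∧ t.2.2 ≤ t.2.1)

end Pool.Agent.PPL
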