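import Mathlib
import Pool.Agent.PPL.Defs

/-! # Arithmetic of the coefficients

Everything is Presburger arithmetic: unfold `pz`, `gz`, `cf`, `split_ifs` and `omega`.

Guide. Put `t = n - 4 - k ≥ 0`. For `x ≥ y ≥ z`, `x + y + z = n`:
- if `n < 3 y`, put `e = 3 y - n ≥ 1` and `N = x - y - 2 - t`; then `k + 2 - n + x - y = N`,
`k - y - 2 z = 2 N + t + e`, `k - x - 2 z = N + e - 2` (for `x > y`);
- if `3 y < n`, put `e = n - 3 y ≥ 1` and `N = y - z - 2 - t`; then `k + 2 - n + y - z = N`,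
`k - y - 2 z = 2 N + t + e`, `k - z - 2 y = N + e - 2` (for `y > z`).
If `N < 0` the term `gz` vanishes and nothing is to be shown, otherwise use `pz_key`.

`line1`, `line2`: `k = n - 4`. For odd `j` this is `cf_ge`. For even `j`: `j = 0` and `j = 4` give
partitions with two equal parts and `cf = pz 0 = 1`, `pz 4 = 1`; `j = 2` gives `N = 0`, `e = 2`; `j ≥ 6`
gives `N = j - 6`, `e = 8`. -/

noncomputable section

namespace Pool.Agent.PPL

lemma pz_nonneg (N : ℤ) : 0 ≤ pz N := by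
  unfold pz
  split_ifs <;> omega

lemma gz_eq (N : ℤ) : pz N + pz (N - 1) = gz N := by
  unfold pz gz
  split_ifs <;> omega

lemma pz_rec (N : ℤ) :
    pz N - pz (N - 2) - pz (N - 3) + pz (N - 5) = if N = 0 then 1 else 0 := by
  have h1 : pz N - pz (N - 2) = if 0 ≤ N ∧ N % 3 = 0 then 1 else 0 := by
    unfold pz
    split_ifs <;> omega
  have h2 : pz (N - 3) - pz (N - 3 - 2) = if 0 ≤ N - 3 ∧ (N - 3) % 3 = 0 then 1 else 0 := by
    unfold pz
    split_ifs <;> omega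
  have h3 : N - 3 - 2 = N - 5 := by ring
  rw [h3] at h2
  have h4 : pz N - pz (N - 2) - pz (N - 3) + pz (N - 5) =
      (pz N - pz (N - 2)) - (pz (N - 3) - pz (N - 5)) := by ring
  rw [h4, h1, h2]
  split_ifs <;> omega

theorem pz_key (N t e : ℤ) (hN : 0 ≤ N) (ht : 0 ≤ t) (he : 1 ≤ e)
    (h : ¬ (N = 0 ∧ t = 0 ∧ e = 1)) : gz N ≤ pz (2 * N + t + e) + pz (N + e - 2) := by
  unfold pz gz
  split_ifs <;> omega

private lemma ARI_main {n k x y z : ℕ} (hs : x + y + z = n)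
    (h3 : ¬ 3 ∣ n) (hk : k + 4 ≤ n) :
    0 ≤ cf n k x y z ∨ (k + 4 = n ∧ ((3 * y = n + 1 ∧ x = y + 2) ∨ (n = 3 * y + 1 ∧ y = z + 2)) ∧
      -1 ≤ cf n k x y z) := by
  unfold cf
  split_ifs with h1 h2 h4
  · exact Or.inl (pz_nonneg _)
  · have e1 : (k : ℤ) - y - 2 * z = 2 * ((k : ℤ) + 2 - n + x - y) + ((n : ℤ) - 4 - k) + (3 * y - n) := by
      omega
    have e2 : (k : ℤ) - x - 2 * z = ((k : ℤ) + 2 - n + x - y) + (3 * y - n) - 2 := by omega
    rw [e1, e2]
    by_cases hN : 0 ≤ (k : ℤ) + 2 - n + x - y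
    · by_cases hc : ((k : ℤ) + 2 - n + x - y = 0 ∧ (n : ℤ) - 4 - k = 0 ∧ (3 * y : ℤ) - n = 1)
      · right
        refine ⟨by omega, Or.inl ⟨by omega, by omega⟩, ?_⟩
        rw [hc.1, hc.2.1, hc.2.2]
        simp [pz, gz]
      · left
        have h5 := pz_key _ _ _ hN (by omega : (0 : ℤ) ≤ (n : ℤ) - 4 - k) (by omega : (1 : ℤ) ≤ 3 * y - n) hc
        linarith
    · left
      have h6 : gz ((k : ℤ) + 2 - n + x - y) = 0 := by
        unfold gz
        rw [if_pos (by omega)]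
      rw [h6]
      have h7 := pz_nonneg (2 * ((k : ℤ) + 2 - n + x - y) + ((n : ℤ) - 4 - k) + (3 * y - n))
      have h8 := pz_nonneg (((k : ℤ) + 2 - n + x - y) + (3 * y - n) - 2)
      linarith
  · exact Or.inl (pz_nonneg _)
  · have hy3 : 3 * y < n := by omega
    have e1 : (k : ℤ) - y - 2 * z = 2 * ((k : ℤ) + 2 - n + y - z) + ((n : ℤ) - 4 - k) + (n - 3 * y) := by
      omega
    have e2 : (k : ℤ) - z - 2 * y = ((k : ℤ) + 2 - n + y - z) + (n - 3 * y) - 2 := by omega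
    rw [e1, e2]
    by_cases hN : 0 ≤ (k : ℤ) + 2 - n + y - z
    · by_cases hc : ((k : ℤ) + 2 - n + y - z = 0 ∧ (n : ℤ) - 4 - k = 0 ∧ (n : ℤ) - 3 * y = 1)
      · right
        refine ⟨by omega, Or.inr ⟨by omega, by omega⟩, ?_⟩
        rw [hc.1, hc.2.1, hc.2.2]
        simp [pz, gz]
      · left
        have h5 := pz_key _ _ _ hN (by omega : (0 : ℤ) ≤ (n : ℤ) - 4 - k) (by omega : (1 : ℤ) ≤ n - 3 * y) hc
        linarith
    · left
      have h6 : gz ((k : ℤ) + 2 - n + y - z) = 0 := by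
        unfold gz
        rw [if_pos (by omega)]
      rw [h6]
      have h7 := pz_nonneg (2 * ((k : ℤ) + 2 - n + y - z) + ((n : ℤ) - 4 - k) + (n - 3 * y))
      have h8 := pz_nonneg (((k : ℤ) + 2 - n + y - z) + (n - 3 * y) - 2)
      linarith

/-- nonnegative coefficients -/
theorem cf_nonneg {n k x y z : ℕ} (hs : x + y + z = n) (hxy : y ≤ x) (hyz : z ≤ y)
    (h3 : ¬ 3 ∣ n) (hk : k + 4 ≤ n)
    (hex : ¬ (k + 4 = n ∧ ((3 * y = n + 1 ∧ x = y + 2) ∨ (n = 3 * y + 1 ∧ y = z + 2)))) :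
    0 ≤ cf n k x y z := by
  rcases ARI_main hs h3 hk with h | ⟨h1, h2, _⟩
  · exact h
  · exact absurd ⟨h1, h2⟩ hex

theorem cf_ge {n k x y z : ℕ} (hs : x + y + z = n) (hxy : y ≤ x) (hyz : z ≤ y)
    (h3 : ¬ 3 ∣ n) (hk : k + 4 ≤ n) : -1 ≤ cf n k x y z := by
  rcases ARI_main hs h3 hk with h | ⟨_, _, h⟩
  · linarith
  · exact h

/-- the decreasing rearrangement of three numbers -/
def srt (x y z : ℕ) : ℕ × ℕ × ℕ :=
  (max x (max y z), x + y + z - max x (max y z) - min x (min y z), min x (min y z))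

private lemma ARI_srt (x y z : ℕ) : (srt x y z).1 + (srt x y z).2.1 + (srt x y z).2.2 = x + y + z ∧
    (srt x y z).2.1 ≤ (srt x y z).1 ∧ (srt x y z).2.2 ≤ (srt x y z).2.1 := by
  unfold srt
  refine ⟨?_, ?_, ?_⟩
  · change max x (max y z) + (x + y + z - max x (max y z) - min x (min y z)) + min x (min y z) = x + y + z
    omega
  · change x + y + z - max x (max y z) - min x (min y z) ≤ max x (max y z)
    omega
  · change min x (min y z) ≤ x + y + z - max x (max y z) - min x (min y z)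
    omega

private lemma ARI_srt_eq {x y z a b c : ℕ} (h1 : max x (max y z) = a)
    (h2 : min x (min y z) = c) (h3 : x + y + z - a - c = b) : srt x y z = (a, b, c) := by
  unfold srt
  rw [h1, h2, h3]

theorem line1 {m j : ℕ} (hm : 2 ≤ m) (hj : j + 1 ≤ m) :
    (-1 : ℤ) ^ j ≤ cf (3 * m + 1) (3 * m - 3) (srt (m + 3) (m - 1 + j) (m - 1 - j)).1
      (srt (m + 3) (m - 1 + j) (m - 1 - j)).2.1 (srt (m + 3) (m - 1 + j) (m - 1 - j)).2.2 := by
  rcases Nat.even_or_odd j with he | ho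
  · rw [he.neg_one_pow]
    obtain ⟨i, hi⟩ := he
    rcases Nat.lt_or_ge j 6 with h6 | h6
    · have hcase : j = 0 ∨ j = 2 ∨ j = 4 := by omega
      rcases hcase with rfl | rfl | rfl
      · rw [ARI_srt_eq (a := m + 3) (b := m - 1) (c := m - 1) (by omega) (by omega) (by omega)]
        change 1 ≤ cf (3 * m + 1) (3 * m - 3) (m + 3) (m - 1) (m - 1)
        unfold cf pz gz
        split_ifs <;> omega
      · rw [ARI_srt_eq (a := m + 3) (b := m + 1) (c := m - 3) (by omega) (by omega) (by omega)]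
        change 1 ≤ cf (3 * m + 1) (3 * m - 3) (m + 3) (m + 1) (m - 3)
        unfold cf pz gz
        split_ifs <;> omega
      · rw [ARI_srt_eq (a := m + 3) (b := m + 3) (c := m - 5) (by omega) (by omega) (by omega)]
        change 1 ≤ cf (3 * m + 1) (3 * m - 3) (m + 3) (m + 3) (m - 5)
        unfold cf pz gz
        split_ifs <;> omega
    · rw [ARI_srt_eq (a := m - 1 + j) (b := m + 3) (c := m - 1 - j) (by omega) (by omega) (by omega)]
      change 1 ≤ cf (3 * m + 1) (3 * m - 3) (m - 1 + j) (m + 3) (m - 1 - j)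
      unfold cf
      rw [if_pos (by omega)]
      have e1 : ((3 * m - 3 : ℕ) : ℤ) - ((m + 3 : ℕ) : ℤ) - 2 * ((m - 1 - j : ℕ) : ℤ) = 2 * j - 4 := by omega
      have e2 : ((3 * m - 3 : ℕ) : ℤ) - ((m - 1 + j : ℕ) : ℤ) - 2 * ((m - 1 - j : ℕ) : ℤ) = j := by omega
      have e3 : ((3 * m - 3 : ℕ) : ℤ) + 2 - ((3 * m + 1 : ℕ) : ℤ) + ((m - 1 + j : ℕ) : ℤ) - ((m + 3 : ℕ) : ℤ) = j - 6 := by
        omega
      rw [e1, e2, e3, if_neg (by omega)]
      unfold pz gz
      split_ifs <;> omega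
  · rw [ho.neg_one_pow]
    obtain ⟨h1, h2, h3⟩ := ARI_srt (m + 3) (m - 1 + j) (m - 1 - j)
    exact cf_ge (h1.trans (by omega)) h2 h3 (by omega) (by omega)

theorem line2 {m j : ℕ} (hm : 2 ≤ m) (hj : j ≤ m + 2) :
    (-1 : ℤ) ^ j ≤ cf (3 * m + 2) (3 * m - 2) (srt (m - 2) (m + 2 + j) (m + 2 - j)).1
      (srt (m - 2) (m + 2 + j) (m + 2 - j)).2.1 (srt (m - 2) (m + 2 + j) (m + 2 - j)).2.2 := by
  rcases Nat.even_or_odd j with he | ho
  · rw [he.neg_one_pow]
    obtain ⟨i, hi⟩ := he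
    rcases Nat.lt_or_ge j 6 with h6 | h6
    · have hcase : j = 0 ∨ j = 2 ∨ j = 4 := by omega
      rcases hcase with rfl | rfl | rfl
      · rw [ARI_srt_eq (a := m + 2) (b := m + 2) (c := m - 2) (by omega) (by omega) (by omega)]
        change 1 ≤ cf (3 * m + 2) (3 * m - 2) (m + 2) (m + 2) (m - 2)
        unfold cf pz gz
        split_ifs <;> omega
      · rw [ARI_srt_eq (a := m + 4) (b := m) (c := m - 2) (by omega) (by omega) (by omega)]
        change 1 ≤ cf (3 * m + 2) (3 * m - 2) (m + 4) m (m - 2)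
        unfold cf pz gz
        split_ifs <;> omega
      · rw [ARI_srt_eq (a := m + 6) (b := m - 2) (c := m - 2) (by omega) (by omega) (by omega)]
        change 1 ≤ cf (3 * m + 2) (3 * m - 2) (m + 6) (m - 2) (m - 2)
        unfold cf pz gz
        split_ifs <;> omega
    · rw [ARI_srt_eq (a := m + 2 + j) (b := m - 2) (c := m + 2 - j) (by omega) (by omega) (by omega)]
      change 1 ≤ cf (3 * m + 2) (3 * m - 2) (m + 2 + j) (m - 2) (m + 2 - j)
      unfold cf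
      rw [if_neg (by omega)]
      have e1 : ((3 * m - 2 : ℕ) : ℤ) - ((m - 2 : ℕ) : ℤ) - 2 * ((m + 2 - j : ℕ) : ℤ) = 2 * j - 4 := by omega
      have e2 : ((3 * m - 2 : ℕ) : ℤ) - ((m + 2 - j : ℕ) : ℤ) - 2 * ((m - 2 : ℕ) : ℤ) = j := by omega
      have e3 : ((3 * m - 2 : ℕ) : ℤ) + 2 - ((3 * m + 2 : ℕ) : ℤ) + ((m - 2 : ℕ) : ℤ) - ((m + 2 - j : ℕ) : ℤ) = j - 6 := by
        omega
      rw [e1, e2, e3, if_neg (by omega)]
      unfold pz gz
      split_ifs <;> omega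
  · rw [ho.neg_one_pow]
    obtain ⟨h1, h2, h3⟩ := ARI_srt (m - 2) (m + 2 + j) (m + 2 - j)
    exact cf_ge (h1.trans (by omega)) h2 h3 (by omega) (by omega)

end Pool.Agent.PPL
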