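import Mathlib
import Pool.Agent.PPL.Defs
import Pool.Agent.Mbar.ONE

/-! # The `q`-power map on vectors: basic facts

Everything is elementary. `x ↦ x ^ q` is the ring homomorphism `iterateFrobenius Ω p e`, `q = p ^ e`,
and it is bijective (`Ω` is algebraically closed; or use `Hyp.alg`). -/

noncomputable section

namespace Pool.Agent.PPL

open Polynomial Module
open scoped Classical LinearAlgebra.Projectivization
open Pool.Agent.Mbar (Setup SSet IsSP)

variable {Ω : Type} [Field Ω] {q : ℕ}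

lemma Hyp.one_lt (hq : Hyp Ω q) : 1 < q := Mbar.Setup.one_lt hq.setup

/-- the `q`-power map as a ring homomorphism -/
theorem Hyp.exists_hom (hq : Hyp Ω q) : ∃ φ : Ω →+* Ω, ∀ a, φ a = a ^ q := by
  obtain ⟨-, p, e, hp, hchar, he, rfl⟩ := hq.setup
  have := hchar
  have : Fact p.Prime := ⟨hp⟩
  exact ⟨iterateFrobenius Ω p e, fun a => iterateFrobenius_def p e a⟩

private lemma BAA_iter {a : Ω} {r : ℕ} (h : a ^ r = a) (M : ℕ) : a ^ (r ^ M) = a := by
  induction M with
  | zero => rw [pow_zero, pow_one]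
  | succ M ih => rw [pow_succ, pow_mul, ih, h]

lemma Hyp.pow (hq : Hyp Ω q) {d : ℕ} (hd : 1 ≤ d) : Hyp Ω (q ^ d) := by
  refine ⟨Mbar.Setup.pow hq.setup hd, fun a => ?_⟩
  obtain ⟨N, hN, h⟩ := hq.alg a
  refine ⟨N, hN, ?_⟩
  rw [← pow_mul, mul_comm, pow_mul]
  exact BAA_iter h d

/-- `a ^ (p ^ (r * N)) = a` for a suitable `N`, as `a` is algebraic over the field with `p`
elements -/
theorem hyp_algClosure (p : ℕ) [Fact p.Prime] {r : ℕ} (hr : 1 ≤ r) :
    Hyp (AlgebraicClosure (ZMod p)) (p ^ r) := by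
  refine ⟨⟨inferInstance, p, r, Fact.out, inferInstance, hr, rfl⟩, fun a => ?_⟩
  have ha : IsIntegral (ZMod p) a := Algebra.IsIntegral.isIntegral a
  have h1 : FiniteDimensional (ZMod p) (IntermediateField.adjoin (ZMod p) {a}) :=
    IntermediateField.adjoin.finiteDimensional ha
  have h2 : Finite (IntermediateField.adjoin (ZMod p) {a}) := Module.finite_of_finite (ZMod p)
  let _ : Fintype (IntermediateField.adjoin (ZMod p) {a}) := Fintype.ofFinite _
  have h3 : CharP (IntermediateField.adjoin (ZMod p) {a}) p :=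
    charP_of_injective_algebraMap (algebraMap (ZMod p) (IntermediateField.adjoin (ZMod p) {a})).injective p
  obtain ⟨n, -, hn⟩ := FiniteField.card (IntermediateField.adjoin (ZMod p) {a}) p
  have h4 := FiniteField.pow_card (K := IntermediateField.adjoin (ZMod p) {a})
    ⟨a, IntermediateField.mem_adjoin_simple_self (ZMod p) a⟩
  rw [hn] at h4
  have h5 : a ^ (p ^ (n : ℕ)) = a := congrArg Subtype.val h4
  refine ⟨n, n.2, ?_⟩
  rw [← pow_mul, mul_comm, pow_mul]
  exact BAA_iter h5 r

lemma frobV_add (hq : Hyp Ω q) {m : ℕ} (v w : Fin m → Ω) :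
    frobV q (v + w) = frobV q v + frobV q w := by
  obtain ⟨φ, hφ⟩ := hq.exists_hom
  funext j
  change (v j + w j) ^ q = v j ^ q + w j ^ q
  rw [← hφ, ← hφ, ← hφ, map_add]

lemma frobV_smul {m : ℕ} (c : Ω) (v : Fin m → Ω) : frobV q (c • v) = c ^ q • frobV q v := by
  funext j
  change (c * v j) ^ q = c ^ q * v j ^ q
  rw [mul_pow]

lemma frobV_injective (hq : Hyp Ω q) {m : ℕ} :
    Function.Injective (frobV q : (Fin m → Ω) → (Fin m → Ω)) := by
  obtain ⟨φ, hφ⟩ := hq.exists_hom
  intro v w h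
  funext j
  have h1 : v j ^ q = w j ^ q := congrFun h j
  rw [← hφ, ← hφ] at h1
  exact φ.injective h1

lemma frobV_iterate {m : ℕ} (N : ℕ) (v : Fin m → Ω) : (frobV q)^[N] v = frobV (q ^ N) v := by
  induction N generalizing v with
  | zero =>
    funext j
    change v j = v j ^ (q ^ 0)
    rw [pow_zero, pow_one]
  | succ N ih =>
    rw [Function.iterate_succ_apply, ih]
    funext j
    change (v j ^ q) ^ (q ^ N) = v j ^ (q ^ (N + 1))
    rw [← pow_mul, pow_succ, mul_comm]

/-- all coordinates of a vector lie in a common finite field -/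
theorem exists_frobV_fix (hq : Hyp Ω q) {m : ℕ} (v : Fin m → Ω) :
    ∃ N, 1 ≤ N ∧ frobV (q ^ N) v = v := by
  choose N hN h using fun j => hq.alg (v j)
  refine ⟨∏ j, N j, Nat.succ_le_of_lt (Finset.prod_pos fun j _ => Nat.lt_of_succ_le (hN j)), ?_⟩
  funext j
  change v j ^ (q ^ (∏ j, N j)) = v j
  obtain ⟨c, hc⟩ := Finset.dvd_prod_of_mem N (Finset.mem_univ j)
  rw [hc, pow_mul]
  exact BAA_iter (h j) c

/-- for a rational subspace the condition is an equivalence: `v` is obtained from `frobV q v` by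
iteration -/
theorem RatSub.mem_iff (hq : Hyp Ω q) {m : ℕ} {U : Submodule Ω (Fin m → Ω)} (hU : RatSub q U)
    (v : Fin m → Ω) : frobV q v ∈ U ↔ v ∈ U := by
  refine ⟨fun h => ?_, fun h => hU v h⟩
  obtain ⟨N, hN, hv⟩ := exists_frobV_fix hq v
  have h1 : ∀ k : ℕ, (frobV q)^[k] (frobV q v) ∈ U := by
    intro k
    induction k with
    | zero => exact h
    | succ k ih =>
      rw [Function.iterate_succ_apply']
      exact hU _ ih
  have h2 := h1 (N - 1)
  rw [← Function.iterate_succ_apply, Nat.succ_eq_add_one, Nat.sub_add_cancel hN, frobV_iterate, hv] at h2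
  exact h2

lemma RatSub.pow (hq : Hyp Ω q) {m : ℕ} {U : Submodule Ω (Fin m → Ω)} (hU : RatSub q U) (d : ℕ) :
    RatSub (q ^ d) U := by
  intro v hv
  rw [← frobV_iterate]
  induction d with
  | zero => exact hv
  | succ k ih =>
    rw [Function.iterate_succ_apply']
    exact hU _ ih

lemma RatSub.inf {m : ℕ} {U W : Submodule Ω (Fin m → Ω)} (hU : RatSub q U) (hW : RatSub q W) :
    RatSub q (U ⊓ W) := fun v hv => ⟨hU v hv.1, hW v hv.2⟩

lemma RatSub.sup (hq : Hyp Ω q) {m : ℕ} {U W : Submodule Ω (Fin m → Ω)} (hU : RatSub q U)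
    (hW : RatSub q W) : RatSub q (U ⊔ W) := by
  intro v hv
  obtain ⟨u, hu, w, hw, rfl⟩ := Submodule.mem_sup.1 hv
  rw [frobV_add hq]
  exact Submodule.add_mem_sup (hU u hu) (hW w hw)

end Pool.Agent.PPL
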