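import Mathlib
import Pool.Agent.PPL.BAA

/-! # The `q`-power map on the projective plane and the counting function `hct`: basic facts

`frobPt_mk`: two representatives differ by a scalar (`Projectivization.mk_eq_mk_iff`), use `frobV_smul`.
`exists_frobGL`: apply the ring homomorphism of `Hyp.exists_hom` to the entries
(`Matrix.GeneralLinearGroup.map`). `hct_frob`: `i ↦ τ i` is a bijection from the labels with
`(x i).submodule ≤ U` to those with `(x i).submodule ≤ U'`. -/

noncomputable section

namespace Pool.Agent.PPL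

open Polynomial Module
open scoped Classical LinearAlgebra.Projectivization
open Pool.Agent.Mbar (Setup SSet IsSP)

variable {Ω : Type} [Field Ω] {q : ℕ}

theorem frobPt_mk (hq : Hyp Ω q) (v : Fin 3 → Ω) (hv : v ≠ 0) :
    frobPt q (Projectivization.mk Ω v hv) =
      Projectivization.mk Ω (frobV q v) (frobV_ne_zero q hv) := by
  obtain ⟨a, ha⟩ := Projectivization.exists_smul_eq_mk_rep Ω v hv
  have h1 : (Projectivization.mk Ω v hv).rep = (a : Ω) • v := ha.symm
  unfold frobPt
  rw [Projectivization.mk_eq_mk_iff']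
  refine ⟨(a : Ω) ^ q, ?_⟩
  rw [h1, frobV_smul]

theorem frobPt_bijective (hq : Hyp Ω q) :
    Function.Bijective (frobPt q : ℙ Ω (Fin 3 → Ω) → ℙ Ω (Fin 3 → Ω)) := by
  have hcl : IsAlgClosed Ω := hq.setup.closed
  have hq0 : 0 < q := lt_trans one_pos hq.one_lt
  constructor
  · intro x y h
    induction x using Projectivization.ind with
    | h v hv =>
      induction y using Projectivization.ind with
      | h w hw =>
        rw [frobPt_mk hq, frobPt_mk hq, Projectivization.mk_eq_mk_iff'] at h
        obtain ⟨a, ha⟩ := h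
        obtain ⟨c, rfl⟩ := IsAlgClosed.exists_pow_nat_eq a hq0
        rw [← frobV_smul] at ha
        rw [Projectivization.mk_eq_mk_iff']
        exact ⟨c, frobV_injective hq ha⟩
  · intro x
    induction x using Projectivization.ind with
    | h v hv =>
      choose w hw using fun j => IsAlgClosed.exists_pow_nat_eq (v j) hq0
      have hwv : frobV q w = v := funext hw
      have hw0 : w ≠ 0 := by
        rintro rfl
        apply hv
        rw [← hwv]
        funext j
        exact zero_pow hq0.ne'
      refine ⟨Projectivization.mk Ω w hw0, ?_⟩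
      rw [frobPt_mk hq, Projectivization.mk_eq_mk_iff']
      exact ⟨1, by rw [one_smul, hwv]⟩

lemma frobPt_iterate (hq : Hyp Ω q) (N : ℕ) (x : ℙ Ω (Fin 3 → Ω)) :
    (frobPt q)^[N] x = frobPt (q ^ N) x := by
  have key : ∀ (v : Fin 3 → Ω) (hv : v ≠ 0), (frobPt q)^[N] (Projectivization.mk Ω v hv) =
      Projectivization.mk Ω (frobV (q ^ N) v) (frobV_ne_zero _ hv) := by
    intro v hv
    induction N with
    | zero =>
      rw [Function.iterate_zero, id, Projectivization.mk_eq_mk_iff']
      refine ⟨1, ?_⟩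
      rw [one_smul, ← frobV_iterate, Function.iterate_zero, id]
    | succ N ih =>
      rw [Function.iterate_succ_apply', ih, frobPt_mk hq, Projectivization.mk_eq_mk_iff']
      refine ⟨1, ?_⟩
      rw [one_smul, ← frobV_iterate, ← frobV_iterate, Function.iterate_succ_apply']
  have h := key x.rep x.rep_nonzero
  rw [Projectivization.mk_rep] at h
  exact h

/-- the `q`-power map on the general linear group -/
theorem exists_frobGL (hq : Hyp Ω q) (g : GL (Fin 3) Ω) :
    ∃ g' : GL (Fin 3) Ω, (∀ i j, (g' : Matrix (Fin 3) (Fin 3) Ω) i j =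
      (g : Matrix (Fin 3) (Fin 3) Ω) i j ^ q) ∧
      ∀ x : ℙ Ω (Fin 3 → Ω), frobPt q (g • x) = g' • frobPt q x := by
  obtain ⟨φ, hφ⟩ := hq.exists_hom
  have h1 : ∀ i j, ((Matrix.GeneralLinearGroup.map φ g : GL (Fin 3) Ω) : Matrix (Fin 3) (Fin 3) Ω) i j =
      (g : Matrix (Fin 3) (Fin 3) Ω) i j ^ q := by
    intro i j
    rw [Matrix.GeneralLinearGroup.map_apply, hφ]
  refine ⟨Matrix.GeneralLinearGroup.map φ g, h1, fun x => ?_⟩
  induction x using Projectivization.ind with
  | h v hv =>
    rw [frobPt_mk hq, Projectivization.smul_mk, Projectivization.smul_mk, frobPt_mk hq,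
      Projectivization.mk_eq_mk_iff']
    refine ⟨1, ?_⟩
    rw [one_smul]
    change ((Matrix.GeneralLinearGroup.map φ g : GL (Fin 3) Ω) : Matrix (Fin 3) (Fin 3) Ω).mulVec (frobV q v) =
      frobV q ((g : Matrix (Fin 3) (Fin 3) Ω).mulVec v)
    funext i
    change ∑ j, ((Matrix.GeneralLinearGroup.map φ g : GL (Fin 3) Ω) : Matrix (Fin 3) (Fin 3) Ω) i j * v j ^ q =
      (∑ j, (g : Matrix (Fin 3) (Fin 3) Ω) i j * v j) ^ q
    rw [← hφ (∑ j, (g : Matrix (Fin 3) (Fin 3) Ω) i j * v j), map_sum]
    refine Finset.sum_congr rfl fun j _ => ?_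
    rw [h1, map_mul, hφ, hφ]

lemma submodule_le_iff (x : ℙ Ω (Fin 3 → Ω)) (U : Submodule Ω (Fin 3 → Ω)) :
    x.submodule ≤ U ↔ x.rep ∈ U := by
  rw [Projectivization.submodule_eq, Submodule.span_singleton_le_iff_mem]

lemma mk_submodule_le_iff (v : Fin 3 → Ω) (hv : v ≠ 0) (U : Submodule Ω (Fin 3 → Ω)) :
    (Projectivization.mk Ω v hv).submodule ≤ U ↔ v ∈ U := by
  rw [Projectivization.submodule_mk, Submodule.span_singleton_le_iff_mem]

theorem frobPt_submodule_le (hq : Hyp Ω q) {U : Submodule Ω (Fin 3 → Ω)} (hU : RatSub q U)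
    (x : ℙ Ω (Fin 3 → Ω)) : (frobPt q x).submodule ≤ U ↔ x.submodule ≤ U := by
  rw [submodule_le_iff x, frobPt, mk_submodule_le_iff]
  exact RatSub.mem_iff hq hU _

section hct

variable {R : Type} [Fintype R]

private lemma BAS_card (x : R → ℙ Ω (Fin 3 → Ω)) (U : Submodule Ω (Fin 3 → Ω)) :
    hct x U = (Finset.univ.filter (fun i => (x i).submodule ≤ U)).card := by
  unfold hct
  rw [Nat.card_eq_fintype_card, Fintype.card_subtype]

lemma hct_mono (x : R → ℙ Ω (Fin 3 → Ω)) {U W : Submodule Ω (Fin 3 → Ω)} (h : U ≤ W) :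
    hct x U ≤ hct x W := by
  rw [BAS_card, BAS_card]
  exact Finset.card_le_card (Finset.monotone_filter_right _ fun i _ hi => hi.trans h)

/-- supermodularity: a point contained in `U` or `W` is contained in `U ⊔ W`, and a point contained
in both is contained in `U ⊓ W` -/
theorem hct_sup_inf (x : R → ℙ Ω (Fin 3 → Ω)) (U W : Submodule Ω (Fin 3 → Ω)) :
    hct x U + hct x W ≤ hct x (U ⊔ W) + hct x (U ⊓ W) := by
  rw [BAS_card, BAS_card, BAS_card, BAS_card, ← Finset.card_union_add_card_inter]
  refine add_le_add (Finset.card_le_card ?_) (Finset.card_le_card ?_)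
  · intro i hi
    simp only [Finset.mem_union, Finset.mem_filter, Finset.mem_univ, true_and] at hi ⊢
    rcases hi with hi | hi
    · exact hi.trans le_sup_left
    · exact hi.trans le_sup_right
  · intro i hi
    simp only [Finset.mem_inter, Finset.mem_filter, Finset.mem_univ, true_and] at hi ⊢
    exact le_inf hi.1 hi.2

lemma hct_bot (x : R → ℙ Ω (Fin 3 → Ω)) : hct x ⊥ = 0 := by
  rw [BAS_card, Finset.card_eq_zero, Finset.filter_eq_empty_iff]
  intro i _ hi
  rw [submodule_le_iff, Submodule.mem_bot] at hi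
  exact (x i).rep_nonzero hi

lemma hct_top (x : R → ℙ Ω (Fin 3 → Ω)) : hct x ⊤ = Fintype.card R := by
  rw [BAS_card, Finset.filter_true_of_mem fun i _ => le_top, Finset.card_univ]

/-- the image of a subspace under the `q`-power map: for an equivariant family the number of points
in it is the same -/
theorem hct_frob (hq : Hyp Ω q) {τ : Equiv.Perm R} {x : R → ℙ Ω (Fin 3 → Ω)}
    (hx : x ∈ EConf Ω q τ) (U U' : Submodule Ω (Fin 3 → Ω)) (h : ∀ v, v ∈ U ↔ frobV q v ∈ U') :
    hct x U' = hct x U := by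
  unfold hct
  symm
  refine Nat.card_congr (τ.subtypeEquiv fun i => ?_)
  rw [hx i, submodule_le_iff, frobPt, mk_submodule_le_iff]
  exact h _

end hct

end Pool.Agent.PPL
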