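import Mathlib
import Pool.Agent.PPL.BAS

/-! # Descent for semilinear maps

Let `Φ v = g · frobV q v` for an invertible matrix `g`, an additive injective map with
`Φ (c • v) = c ^ q • Φ v`.

* `phi_periodic`: choose `M ≥ 1` such that all entries of `g` and `v` are fixed by `a ↦ a ^ (q ^ M)`
(`exists_frobV_fix` for a long vector, or products of exponents). The set `S` of the `w : Fin m → Ω`
with `frobV (q ^ M) w = w` is finite (each coordinate is a root of `X ^ (q ^ M) - X`; see
`Mbar.card_fixed`), `Φ` maps `S` to itself and is injective, so some iterate `Φ^[N]`, `N ≥ 1`, fixes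
`v` (`Function.Injective`, finite set, `Function.mem_periodicPts`, or the pigeonhole principle).

* `descent`: let `v ∈ U` with `Φ^[N] v = v`. If `v` were not in the span `W` of the fixed vectors in `U`,
there would be a linear functional `λ` vanishing on `W` with `λ v ≠ 0`
(`Submodule.exists_le_ker_of_notMem` or `Submodule.exists_dual_map_eq_bot...`). For `c` with
`c ^ (q ^ N) = c` the vector `∑ i < N, Φ^[i] (c • v) = ∑ i < N, c ^ (q ^ i) • Φ^[i] v` is fixed by `Φ`
and lies in `U`. Hence the polynomial `∑ i < N, C (λ (Φ^[i] v)) * X ^ (q ^ i)` of degree at most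
`q ^ (N - 1) < q ^ N` vanishes at the `q ^ N` roots `c` of `X ^ (q ^ N) - X`
(`Mbar.card_fixed` applied to `Setup Ω (q ^ N)`), so it is zero; its coefficient of `X ^ (q ^ 0)` is
`λ v`, a contradiction. -/

noncomputable section

namespace Pool.Agent.PPL

open Polynomial Module
open scoped Classical LinearAlgebra.Projectivization
open Pool.Agent.Mbar (Setup SSet IsSP)

variable {Ω : Type} [Field Ω] {q : ℕ}

private lemma DSA_fix (hq : Hyp Ω q) {ι : Type} [Fintype ι] (v : ι → Ω) :
    ∃ N, 1 ≤ N ∧ ∀ i, v i ^ (q ^ N) = v i := by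
  obtain ⟨N, hN, h⟩ := exists_frobV_fix hq (v ∘ (Fintype.equivFin ι).symm)
  refine ⟨N, hN, fun i => ?_⟩
  have h1 := congrFun h (Fintype.equivFin ι i)
  change (v ((Fintype.equivFin ι).symm (Fintype.equivFin ι i))) ^ (q ^ N) =
    v ((Fintype.equivFin ι).symm (Fintype.equivFin ι i)) at h1
  rwa [Equiv.symm_apply_apply] at h1

private lemma DSA_frob_mulVec (hq : Hyp Ω q) {m : ℕ} (g : Matrix (Fin m) (Fin m) Ω) (v : Fin m → Ω) :
    frobV q (g.mulVec v) = (g.map (fun a => a ^ q)).mulVec (frobV q v) := by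
  obtain ⟨φ, hφ⟩ := hq.exists_hom
  funext i
  change (∑ j, g i j * v j) ^ q = ∑ j, g i j ^ q * v j ^ q
  rw [← hφ, map_sum]
  refine Finset.sum_congr rfl fun j _ => ?_
  rw [map_mul, hφ, hφ]

private lemma DSA_inj (hq : Hyp Ω q) {m : ℕ} (g : GL (Fin m) Ω) :
    Function.Injective (fun w : Fin m → Ω => (g : Matrix (Fin m) (Fin m) Ω).mulVec (frobV q w)) := by
  intro v w h
  apply frobV_injective hq
  have h1 : ∀ u : Fin m → Ω, ((g⁻¹ : GL (Fin m) Ω) : Matrix (Fin m) (Fin m) Ω).mulVec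
      ((g : Matrix (Fin m) (Fin m) Ω).mulVec u) = u := by
    intro u
    rw [Matrix.mulVec_mulVec, ← Units.val_mul, inv_mul_cancel, Units.val_one, Matrix.one_mulVec]
  rw [← h1 (frobV q v), ← h1 (frobV q w)]
  exact congrArg _ h

theorem phi_periodic (hq : Hyp Ω q) {m : ℕ} (g : GL (Fin m) Ω) (v : Fin m → Ω) :
    ∃ N, 1 ≤ N ∧ (fun w : Fin m → Ω => (g : Matrix (Fin m) (Fin m) Ω).mulVec (frobV q w))^[N] v
      = v := by
  obtain ⟨M, hM, hfix⟩ := DSA_fix hq (ι := (Fin m × Fin m) ⊕ Fin m)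
    (Sum.elim (fun p => (g : Matrix (Fin m) (Fin m) Ω) p.1 p.2) v)
  have hqM := hq.pow hM
  have hfin : {w : Fin m → Ω | frobV (q ^ M) w = w}.Finite := by
    refine (Set.Finite.pi' (t := fun _ : Fin m => {x : Ω | x ^ (q ^ M) = x})
      (fun _ => (Mbar.card_fixed hqM.setup).1)).subset ?_
    intro w hw i
    exact congrFun hw i
  have hmaps : ∀ w : Fin m → Ω, frobV (q ^ M) w = w →
      frobV (q ^ M) ((g : Matrix (Fin m) (Fin m) Ω).mulVec (frobV q w)) =
        (g : Matrix (Fin m) (Fin m) Ω).mulVec (frobV q w) := by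
    intro w hw
    rw [DSA_frob_mulVec hqM]
    have h1 : (g : Matrix (Fin m) (Fin m) Ω).map (fun a => a ^ (q ^ M)) =
        (g : Matrix (Fin m) (Fin m) Ω) := by
      ext i j
      exact hfix (Sum.inl (i, j))
    have h2 : frobV (q ^ M) (frobV q w) = frobV q w := by
      rw [← frobV_iterate, ← Function.iterate_succ_apply, Function.iterate_succ_apply', frobV_iterate, hw]
    rw [h1, h2]
  obtain ⟨Φ, hΦ⟩ : ∃ Φ : (Fin m → Ω) → (Fin m → Ω),
    Φ = fun w : Fin m → Ω => (g : Matrix (Fin m) (Fin m) Ω).mulVec (frobV q w) := ⟨_, rfl⟩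
  have hinj : Function.Injective Φ := hΦ ▸ DSA_inj hq g
  have hmem : ∀ n : ℕ, Φ^[n] v ∈ {w : Fin m → Ω | frobV (q ^ M) w = w} := by
    intro n
    induction n with
    | zero =>
      funext i
      exact hfix (Sum.inr i)
    | succ n ih =>
      rw [Function.iterate_succ_apply', hΦ]
      rw [hΦ] at ih
      exact hmaps _ ih
  obtain ⟨i, j, hij, h⟩ := hfin.exists_lt_map_eq_of_forall_mem hmem
  rw [← hΦ]
  refine ⟨j - i, by omega, ?_⟩
  have h2 : Φ^[j] v = Φ^[i] (Φ^[j - i] v) := by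
    rw [← Function.iterate_add_apply, Nat.add_sub_cancel' hij.le]
  have h' : Φ^[i] v = Φ^[j] v := h
  rw [h2] at h'
  exact (hinj.iterate i h').symm

private lemma DSA_poly (hq : Hyp Ω q) {N : ℕ} (hN : 1 ≤ N) (a : ℕ → Ω)
    (h : ∀ c : Ω, c ^ (q ^ N) = c → ∑ i ∈ Finset.range N, a i * c ^ (q ^ i) = 0) : a 0 = 0 := by
  have hq1 := hq.one_lt
  obtain ⟨hfin, hcard⟩ := Mbar.card_fixed (hq.pow hN).setup
  have hP : (∑ i ∈ Finset.range N, (C (a i) * X ^ (q ^ i) : Polynomial Ω)) = 0 := by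
    apply Polynomial.eq_zero_of_natDegree_lt_card_of_eval_eq_zero' _ hfin.toFinset
    · intro c hc
      rw [Set.Finite.mem_toFinset] at hc
      rw [eval_finsetSum]
      simp only [eval_mul, eval_C, eval_pow, eval_X]
      exact h c hc
    · rw [← Set.ncard_eq_toFinset_card _ hfin, hcard]
      refine lt_of_le_of_lt (natDegree_sum_le_of_forall_le (n := q ^ (N - 1)) _ _ fun i hi => ?_)
        (Nat.pow_lt_pow_right hq1 (by omega))
      refine (natDegree_C_mul_X_pow_le _ _).trans (Nat.pow_le_pow_right (by omega) ?_)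
      have := Finset.mem_range.1 hi
      omega
  have h1 := congrArg (fun P : Polynomial Ω => P.coeff 1) hP
  simp only [finsetSum_coeff, coeff_C_mul, coeff_X_pow, coeff_zero] at h1
  rw [Finset.sum_eq_single 0] at h1
  · simpa using h1
  · intro i _ hi
    rw [if_neg, mul_zero]
    have : 1 < q ^ i := Nat.one_lt_pow hi hq1
    omega
  · intro h2
    exact absurd (Finset.mem_range.2 (by omega)) h2

theorem descent (hq : Hyp Ω q) {m : ℕ} (g : GL (Fin m) Ω) (U : Submodule Ω (Fin m → Ω))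
    (hU : ∀ v ∈ U, (g : Matrix (Fin m) (Fin m) Ω).mulVec (frobV q v) ∈ U) :
    U ≤ Submodule.span Ω {v | v ∈ U ∧ (g : Matrix (Fin m) (Fin m) Ω).mulVec (frobV q v) = v} := by
  intro v hv
  obtain ⟨N, hN, hper⟩ := phi_periodic hq g v
  obtain ⟨Φ, hΦ⟩ : ∃ Φ : (Fin m → Ω) → (Fin m → Ω),
    Φ = fun w : Fin m → Ω => (g : Matrix (Fin m) (Fin m) Ω).mulVec (frobV q w) := ⟨_, rfl⟩
  rw [← hΦ] at hper
  have hΦ' : ∀ w, (g : Matrix (Fin m) (Fin m) Ω).mulVec (frobV q w) = Φ w := fun w => by rw [hΦ]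
  simp only [hΦ'] at hU ⊢
  have hadd : ∀ u w, Φ (u + w) = Φ u + Φ w := by
    intro u w
    rw [← hΦ', ← hΦ', ← hΦ', frobV_add hq, Matrix.mulVec_add]
  have hsmul : ∀ (c : Ω) w, Φ (c • w) = c ^ q • Φ w := by
    intro c w
    rw [← hΦ', ← hΦ', frobV_smul, Matrix.mulVec_smul]
  have hsum : ∀ (k : ℕ) (f : ℕ → Fin m → Ω), Φ (∑ i ∈ Finset.range k, f i) = ∑ i ∈ Finset.range k, Φ (f i) := by
    intro k f
    induction k with
    | zero =>
      rw [Finset.sum_range_zero, Finset.sum_range_zero]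
      have h := hsmul 0 0
      rw [zero_smul, zero_pow (by have := hq.one_lt; omega), zero_smul] at h
      exact h
    | succ k ih => rw [Finset.sum_range_succ, Finset.sum_range_succ, hadd, ih]
  have hitsmul : ∀ (k : ℕ) (c : Ω) w, Φ^[k] (c • w) = c ^ (q ^ k) • Φ^[k] w := by
    intro k c w
    induction k generalizing c w with
    | zero => rw [Function.iterate_zero, id, id, pow_zero, pow_one]
    | succ k ih =>
      rw [Function.iterate_succ_apply, hsmul, ih, ← Function.iterate_succ_apply, ← pow_mul, pow_succ,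
        mul_comm (q ^ k) q]
  have hitU : ∀ (k : ℕ) w, w ∈ U → Φ^[k] w ∈ U := by
    intro k w hw
    induction k with
    | zero => exact hw
    | succ k ih =>
      rw [Function.iterate_succ_apply']
      exact hU _ ih
  by_contra hvW
  obtain ⟨f, hfv, hfW⟩ := Submodule.exists_le_ker_of_notMem hvW
  apply hfv
  refine DSA_poly hq hN (fun i => f (Φ^[i] v)) fun c hc => ?_
  have h1 : (∑ i ∈ Finset.range N, Φ^[i] (c • v)) ∈ Submodule.span Ω {v | v ∈ U ∧ Φ v = v} := by
    refine Submodule.subset_span ⟨Submodule.sum_mem _ fun i _ => hitU i _ (U.smul_mem c hv), ?_⟩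
    rw [hsum]
    obtain ⟨k, rfl⟩ : ∃ k, N = k + 1 := ⟨N - 1, by omega⟩
    rw [Finset.sum_range_succ, Finset.sum_range_succ', ← Function.iterate_succ_apply' Φ, hitsmul (k + 1), hper, hc]
    simp only [Function.iterate_succ_apply', Function.iterate_zero, id]
  have h2 := hfW h1
  rw [LinearMap.mem_ker, map_sum] at h2
  rw [← h2]
  refine Finset.sum_congr rfl fun i _ => ?_
  rw [hitsmul, map_smul, smul_eq_mul, mul_comm]

end Pool.Agent.PPL
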