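import Mathlib
import Pool.Agent.PPL.DSA

/-! # Lang's theorem for `GL_m` and rational bases

* `lang`: apply `descent` with `U = ⊤` to `Φ v = g · frobV q v`: the fixed vectors span `Fin m → Ω`,
so there is a basis of fixed vectors (`exists_linearIndependent`, `Module.Basis`). The matrix `h₀`
whose columns are the basis vectors satisfies `g * h₀^{(q)} = h₀`. This is the statement `lang`
(`h = h₀`).

* `exists_rat_basis`: `descent` with `g = 1`: `U` is spanned by its vectors fixed by `frobV q`; choose a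
basis of `U` among them (`exists_linearIndependent`, or `Submodule.exists_fun_fin_finrank_span_eq`).
`lang` can be deduced from the same choice for `U = ⊤`. -/

noncomputable section

namespace Pool.Agent.PPL

open Polynomial Module
open scoped Classical LinearAlgebra.Projectivization
open Pool.Agent.Mbar (Setup SSet IsSP)

variable {Ω : Type} [Field Ω] {q : ℕ}

private theorem DSC_basis (hq : Hyp Ω q) {m : ℕ} (g : GL (Fin m) Ω) (U : Submodule Ω (Fin m → Ω))
    (hU : ∀ v ∈ U, (g : Matrix (Fin m) (Fin m) Ω).mulVec (frobV q v) ∈ U)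
    {d : ℕ} (hd : finrank Ω U = d) :
    ∃ b : Fin d → (Fin m → Ω), LinearIndependent Ω b ∧
      (∀ i, (g : Matrix (Fin m) (Fin m) Ω).mulVec (frobV q (b i)) = b i) ∧
      Submodule.span Ω (Set.range b) = U := by
  subst hd
  have hspan : Submodule.span Ω {v | v ∈ U ∧
      (g : Matrix (Fin m) (Fin m) Ω).mulVec (frobV q v) = v} = U := by
    refine le_antisymm (Submodule.span_le.2 fun v hv => hv.1) (descent hq g U hU)
  have h := Submodule.exists_fun_fin_finrank_span_eq Ω
    {v | v ∈ U ∧ (g : Matrix (Fin m) (Fin m) Ω).mulVec (frobV q v) = v}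
  rw [hspan] at h
  obtain ⟨f, hf, hfs, hfi⟩ := h
  exact ⟨f, hfi, fun i => (hf i).2, hfs⟩

/-- Lang's theorem for `GL_m` -/
theorem lang (hq : Hyp Ω q) {m : ℕ} (g : GL (Fin m) Ω) :
    ∃ h : GL (Fin m) Ω, (g : Matrix (Fin m) (Fin m) Ω) *
      (Matrix.of fun i j => (h : Matrix (Fin m) (Fin m) Ω) i j ^ q) =
        (h : Matrix (Fin m) (Fin m) Ω) := by
  obtain ⟨b, hb, hg, -⟩ := DSC_basis hq g ⊤ (fun _ _ => Submodule.mem_top) (d := m) (by simp)
  have hH : IsUnit (Matrix.of fun i j => b j i : Matrix (Fin m) (Fin m) Ω) := by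
    rw [← Matrix.linearIndependent_cols_iff_isUnit]
    exact hb
  refine ⟨hH.unit, ?_⟩
  ext i j
  have h1 := congrFun (hg j) i
  rw [Matrix.mul_apply]
  simp only [IsUnit.unit_spec, Matrix.of_apply]
  exact h1

/-- a rational subspace of dimension `d` has a basis of rational vectors -/
theorem exists_rat_basis (hq : Hyp Ω q) {m : ℕ} {U : Submodule Ω (Fin m → Ω)} (hU : RatSub q U)
    {d : ℕ} (hd : finrank Ω U = d) :
    ∃ b : Fin d → (Fin m → Ω), LinearIndependent Ω b ∧ (∀ i, frobV q (b i) = b i) ∧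
      Submodule.span Ω (Set.range b) = U := by
  obtain ⟨b, h1, h2, h3⟩ := DSC_basis hq 1 U (by
    intro v hv
    simpa using hU v hv) hd
  refine ⟨b, h1, fun i => ?_, h3⟩
  simpa using h2 i

end Pool.Agent.PPL
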