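import Mathlib
import Pool.Agent.PPL.DSC

/-! # Counting rational points of rational subspaces

`rat_points`: let `b` be a rational basis of `U` (`exists_rat_basis`), `d = finrank U`. A point
`x = [v]` with `x ≤ U` and `frobPt q x = x` satisfies `frobV q v = c • v`; after scaling `v`
(`a ^ (q - 1) = c`, `Ω` algebraically closed) `frobV q v = v`, and then the coordinates of `v` in the
basis `b` are fixed by `a ↦ a ^ q`. So the points are the nonzero vectors
`∑ a i • b i`, `a i ^ q = a i`, up to the `q - 1` nonzero scalars `c` with `c ^ q = c`, and there are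
`(q ^ d - 1) / (q - 1) = 1 + q + ... + q ^ (d - 1)` of them. One way: the set of nonzero fixed vectors
of `U` has `q ^ d - 1` elements and each fibre of the map to points has `q - 1` elements
(`Finset.card_eq_of_equiv`, `Set.ncard`, `Finset.card_eq_sum_card_fiberwise`). The number of `a : Ω`
with `a ^ q = a` is `q` by `Mbar.card_fixed hq.setup`.
Only `d ≤ 3` is needed, but the general statement is not harder. -/

noncomputable section

namespace Pool.Agent.PPL

open Polynomial Module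
open scoped Classical LinearAlgebra.Projectivization
open Pool.Agent.Mbar (Setup SSet IsSP)

variable {Ω : Type} [Field Ω] {q : ℕ}

private lemma RPC_q (hq : Hyp Ω q) : 1 < q := hq.one_lt

private lemma RPC_rep (hq : Hyp Ω q) (x : ℙ Ω (Fin 3 → Ω)) (hx : frobPt q x = x) :
    ∃ r : Fin 3 → Ω, ∃ h : r ≠ 0, frobV q r = r ∧ Projectivization.mk Ω r h = x := by
  have hq1 := RPC_q hq
  have h1 : Projectivization.mk Ω (frobV q x.rep) (frobV_ne_zero q x.rep_nonzero) =
      Projectivization.mk Ω x.rep x.rep_nonzero := by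
    rw [Projectivization.mk_rep]
    exact hx
  obtain ⟨c, hc⟩ := (Projectivization.mk_eq_mk_iff Ω _ _ _ _).1 h1
  have hcl := hq.setup.closed
  obtain ⟨a, ha⟩ := IsAlgClosed.exists_pow_nat_eq ((c : Ω)⁻¹) (n := q - 1) (by omega)
  have hc0 : (c : Ω) ≠ 0 := c.ne_zero
  have ha0 : a ≠ 0 := by
    rintro rfl
    rw [zero_pow (by omega)] at ha
    exact hc0 (inv_eq_zero.1 ha.symm)
  refine ⟨a • x.rep, smul_ne_zero ha0 x.rep_nonzero, ?_, ?_⟩
  · have h2 : frobV q x.rep = (c : Ω) • x.rep := hc.symm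
    rw [frobV_smul, h2, smul_smul]
    congr 1
    have h3 : a ^ q = a ^ (q - 1) * a := by
      rw [← pow_succ]
      congr 1
      omega
    rw [h3, ha]
    field_simp
  · conv_rhs => rw [← Projectivization.mk_rep x]
    rw [Projectivization.mk_eq_mk_iff]
    exact ⟨Units.mk0 a ha0, rfl⟩

private lemma RPC_card (hq : Hyp Ω q) {U : Submodule Ω (Fin 3 → Ω)} (hU : RatSub q U) :
    {v : Fin 3 → Ω | v ∈ U ∧ frobV q v = v}.Finite ∧
    {v : Fin 3 → Ω | v ∈ U ∧ frobV q v = v}.ncard = q ^ finrank Ω U := by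
  obtain ⟨b, hb, hbr, hbs⟩ := exists_rat_basis hq hU rfl
  obtain ⟨hF, hFc⟩ := Mbar.card_fixed hq.setup
  obtain ⟨φ, hφ⟩ := hq.exists_hom
  have hfr : ∀ c : Fin (finrank Ω U) → Ω, frobV q (∑ i, c i • b i) = ∑ i, (c i) ^ q • b i := by
    intro c
    funext j
    change (∑ i, c i • b i) j ^ q = _
    rw [← hφ, Finset.sum_apply, Finset.sum_apply, map_sum]
    refine Finset.sum_congr rfl fun i _ => ?_
    simp only [Pi.smul_apply, smul_eq_mul, map_mul]
    rw [hφ, hφ]
    congr 1
    exact congrFun (hbr i) j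
  have hinj : ∀ c c' : Fin (finrank Ω U) → Ω, ∑ i, c i • b i = ∑ i, c' i • b i → c = c' := by
    intro c c' h
    funext i
    have h1 : ∑ i, (c i - c' i) • b i = 0 := by
      simp only [sub_smul, Finset.sum_sub_distrib, h, sub_self]
    exact sub_eq_zero.1 (Fintype.linearIndependent_iff.1 hb _ h1 i)
  let Φ : (Fin (finrank Ω U) → {a : Ω | a ^ q = a}) → {v : Fin 3 → Ω | v ∈ U ∧ frobV q v = v} :=
    fun c => ⟨∑ i, (c i : Ω) • b i, by
      refine ⟨?_, ?_⟩
      · exact Submodule.sum_mem _ fun i _ => Submodule.smul_mem _ _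
          (hbs.le (Submodule.subset_span ⟨i, rfl⟩))
      · rw [hfr (fun i => (c i : Ω))]
        refine Finset.sum_congr rfl fun i _ => ?_
        rw [(c i).2]⟩
  have hΦ : Function.Bijective Φ := by
    constructor
    · intro c c' h
      have h1 := hinj (fun i => (c i : Ω)) (fun i => (c' i : Ω)) (congrArg Subtype.val h)
      funext i
      exact Subtype.ext (congrFun h1 i)
    · rintro ⟨v, hv, hv2⟩
      rw [← hbs, Submodule.mem_span_range_iff_exists_fun] at hv
      obtain ⟨c, rfl⟩ := hv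
      rw [hfr] at hv2
      have h1 := hinj _ _ hv2
      exact ⟨fun i => ⟨c i, congrFun h1 i⟩, rfl⟩
  have hfinF : Finite {a : Ω | a ^ q = a} := hF
  have hfin : Finite {v : Fin 3 → Ω | v ∈ U ∧ frobV q v = v} := Finite.of_surjective Φ hΦ.2
  refine ⟨hfin, ?_⟩
  rw [← Nat.card_coe_set_eq, ← Nat.card_eq_of_bijective Φ hΦ, Nat.card_fun, Nat.card_coe_set_eq, hFc,
    Nat.card_eq_fintype_card, Fintype.card_fin]

theorem rat_points (hq : Hyp Ω q) {U : Submodule Ω (Fin 3 → Ω)} (hU : RatSub q U) :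
    {x : ℙ Ω (Fin 3 → Ω) | x.submodule ≤ U ∧ frobPt q x = x}.Finite ∧
    {x : ℙ Ω (Fin 3 → Ω) | x.submodule ≤ U ∧ frobPt q x = x}.ncard =
      ∑ i ∈ Finset.range (finrank Ω U), q ^ i := by
  have hq1 := RPC_q hq
  obtain ⟨hW, hWc⟩ := RPC_card hq hU
  obtain ⟨hF, hFc⟩ := Mbar.card_fixed hq.setup
  set S : Set (ℙ Ω (Fin 3 → Ω)) := {x | x.submodule ≤ U ∧ frobPt q x = x} with hS
  set W : Set (Fin 3 → Ω) := {v | v ∈ U ∧ frobV q v = v} with hWd
  set F : Set Ω := {a | a ^ q = a} with hFd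
  have hW0 : (0 : Fin 3 → Ω) ∈ W := by
    refine ⟨U.zero_mem, ?_⟩
    funext j
    exact zero_pow (by omega)
  have hF0 : (0 : Ω) ∈ F := zero_pow (by omega)
  have hrep : ∀ x : S, ∃ r : Fin 3 → Ω, ∃ h : r ≠ 0, frobV q r = r ∧ Projectivization.mk Ω r h = x.1 :=
    fun x => RPC_rep hq x.1 x.2.2
  choose r hr0 hrf hrm using hrep
  have hrU : ∀ x, r x ∈ U := by
    intro x
    rw [← mk_submodule_le_iff (r x) (hr0 x), hrm]
    exact x.2.1
  have hfs : ∀ (c : Ω) (x : S), frobV q (c • r x) = c ^ q • r x := by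
    intro c x
    rw [frobV_smul, hrf]
  let Ψ : S × ↥(F \ {0}) → ↥(W \ {0}) := fun p => ⟨(p.2.1 : Ω) • r p.1, by
    refine ⟨⟨U.smul_mem _ (hrU _), ?_⟩, ?_⟩
    · rw [hfs, show (p.2.1 : Ω) ^ q = p.2.1 from p.2.2.1]
    · exact smul_ne_zero p.2.2.2 (hr0 _)⟩
  have hΨ : Function.Bijective Ψ := by
    constructor
    · rintro ⟨x, c⟩ ⟨x', c'⟩ h
      have h1 : (c.1 : Ω) • r x = (c'.1 : Ω) • r x' := congrArg Subtype.val h
      have hc : c.1 ≠ 0 := c.2.2
      have hc' : c'.1 ≠ 0 := c'.2.2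
      have hx : x = x' := by
        apply Subtype.ext
        rw [← hrm x, ← hrm x', Projectivization.mk_eq_mk_iff']
        refine ⟨c.1⁻¹ * c'.1, ?_⟩
        rw [mul_smul, ← h1, smul_smul, inv_mul_cancel₀ hc, one_smul]
      subst hx
      have h2 : c = c' := by
        apply Subtype.ext
        have h3 : (c.1 - c'.1) • r x = 0 := by rw [sub_smul, h1, sub_self]
        rcases smul_eq_zero.1 h3 with h4 | h4
        · exact sub_eq_zero.1 h4
        · exact absurd h4 (hr0 x)
      rw [h2]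
    · rintro ⟨v, ⟨hvU, hvf⟩, hv0⟩
      have hv0' : v ≠ 0 := hv0
      have hxS : Projectivization.mk Ω v hv0' ∈ S := by
        refine ⟨(mk_submodule_le_iff v hv0' U).2 hvU, ?_⟩
        rw [frobPt_mk hq, Projectivization.mk_eq_mk_iff']
        exact ⟨1, by rw [one_smul, hvf]⟩
      have h1 := hrm ⟨_, hxS⟩
      rw [Projectivization.mk_eq_mk_iff'] at h1
      obtain ⟨a, ha⟩ := h1
      -- `a • v = r x`
      have ha0 : a ≠ 0 := by
        rintro rfl
        rw [zero_smul] at ha
        exact hr0 _ ha.symm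
      have hv : v = a⁻¹ • r ⟨_, hxS⟩ := by
        rw [← ha, smul_smul, inv_mul_cancel₀ ha0, one_smul]
      have h2 : (a⁻¹) ^ q = a⁻¹ := by
        have h3 : frobV q v = v := hvf
        rw [hv, hfs] at h3
        have h4 : ((a⁻¹) ^ q - a⁻¹) • r ⟨_, hxS⟩ = 0 := by rw [sub_smul, h3, sub_self]
        rcases smul_eq_zero.1 h4 with h5 | h5
        · exact sub_eq_zero.1 h5
        · exact absurd h5 (hr0 _)
      exact ⟨(⟨_, hxS⟩, ⟨a⁻¹, h2, inv_ne_zero ha0⟩), Subtype.ext hv.symm⟩
  have hWf : (W \ {0}).Finite := hW.subset Set.sdiff_subset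
  have hFf : (F \ {0}).Finite := hF.subset Set.sdiff_subset
  have hfW : Finite ↥(W \ {0}) := hWf
  have hSf : S.Finite := by
    have h1F : (1 : Ω) ∈ F \ {0} := ⟨one_pow q, one_ne_zero⟩
    have : Finite S := Finite.of_injective (fun x : S => Ψ (x, ⟨1, h1F⟩)) (by
      intro x x' h
      exact congrArg Prod.fst (hΨ.1 h))
    exact this
  refine ⟨hSf, ?_⟩
  have hcard := Nat.card_eq_of_bijective Ψ hΨ
  rw [Nat.card_prod, Nat.card_coe_set_eq, Nat.card_coe_set_eq, Nat.card_coe_set_eq,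
    Set.ncard_sdiff_singleton_of_mem hF0, Set.ncard_sdiff_singleton_of_mem hW0, hFc, hWc] at hcard
  have hgeo : (∑ i ∈ Finset.range (finrank Ω U), q ^ i) * (q - 1) = q ^ finrank Ω U - 1 :=
    geom_sum_mul_of_one_le hq1.le _
  rw [← hgeo] at hcard
  exact Nat.eq_of_mul_eq_mul_right (by omega) hcard

/-- points fixed by the `q`-power map are the rational subspaces of dimension one -/
theorem frobPt_eq_iff (hq : Hyp Ω q) (x : ℙ Ω (Fin 3 → Ω)) :
    frobPt q x = x ↔ x.submodule ∈ RPts Ω q := by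
  constructor
  · intro h
    refine ⟨?_, x.finrank_submodule⟩
    intro v hv
    have h1 : frobV q x.rep ∈ x.submodule := by
      have h2 : (Projectivization.mk Ω (frobV q x.rep) (frobV_ne_zero q x.rep_nonzero)).submodule ≤
          x.submodule := by
        have h3 : Projectivization.mk Ω (frobV q x.rep) (frobV_ne_zero q x.rep_nonzero) = x := h
        rw [h3]
      exact (mk_submodule_le_iff _ _ _).1 h2
    rw [Projectivization.submodule_eq] at hv
    obtain ⟨c, rfl⟩ := Submodule.mem_span_singleton.1 hv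
    rw [frobV_smul]
    exact Submodule.smul_mem _ _ h1
  · rintro ⟨h, -⟩
    have h1 : x.rep ∈ x.submodule := (submodule_le_iff x _).1 le_rfl
    have h2 := h _ h1
    rw [Projectivization.submodule_eq] at h2
    obtain ⟨c, hc⟩ := Submodule.mem_span_singleton.1 h2
    conv_rhs => rw [← Projectivization.mk_rep x]
    change Projectivization.mk Ω (frobV q x.rep) _ = _
    rw [Projectivization.mk_eq_mk_iff']
    exact ⟨c, hc⟩

end Pool.Agent.PPL
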