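import Mathlib
import Pool.Agent.PPL.RPC

/-! # Counting rational points, lines and flags

* `x ↦ x.submodule` is a bijection from the points fixed by `frobPt q` to `RPts Ω q`
(`frobPt_eq_iff`, `Projectivization.submodule_injective`, a subspace of dimension one is the subspace
of a point), so `rat_points` gives the number `q ^ 2 + q + 1` of elements of `RPts` and the number
`q + 1` of elements of `RPts` below a given rational line.
* Lines: orthogonality for the dot product `∑ j, v j * w j` exchanges rational subspaces of dimension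
one and two. For instance define `perp U = {w | ∀ v ∈ U, v ⬝ᵥ w = 0}` as a submodule (or use
`LinearMap.BilinForm.orthogonal` for `Matrix.toBilin'` or `dotProductBilin`; nondegenerate, so
`finrank (perp U) = 3 - finrank U` and `perp (perp U) = U`); `perp` of a rational subspace is
rational: if `w ∈ perp U` and `v ∈ U`, then `v = frobV q v'` with `v' ∈ U` (take
`v' = frobV (q ^ (N - 1)) v`, `exists_frobV_fix`), and `v ⬝ᵥ frobV q w = (v' ⬝ᵥ w) ^ q = 0`. -/

noncomputable section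

namespace Pool.Agent.PPL

open Polynomial Module
open scoped Classical LinearAlgebra.Projectivization
open Pool.Agent.Mbar (Setup SSet IsSP)

variable {Ω : Type} [Field Ω] {q : ℕ}

private lemma below_eq (hq : Hyp Ω q) (L : Submodule Ω (Fin 3 → Ω)) :
    (fun x : ℙ Ω (Fin 3 → Ω) => x.submodule) '' {x | x.submodule ≤ L ∧ frobPt q x = x} =
      {U | U ∈ RPts Ω q ∧ U ≤ L} := by
  ext U
  constructor
  · rintro ⟨x, ⟨hx1, hx2⟩, rfl⟩
    exact ⟨(frobPt_eq_iff hq x).1 hx2, hx1⟩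
  · rintro ⟨hU, hUL⟩
    have h1 : (Projectivization.mk'' U hU.2).submodule = U := Projectivization.submodule_mk'' U hU.2
    refine ⟨Projectivization.mk'' U hU.2, ⟨?_, ?_⟩, h1⟩
    · rw [h1]
      exact hUL
    · rw [frobPt_eq_iff hq, h1]
      exact hU

private lemma below_card (hq : Hyp Ω q) {L : Submodule Ω (Fin 3 → Ω)} (hL : RatSub q L) :
    {U | U ∈ RPts Ω q ∧ U ≤ L}.Finite ∧
      {U | U ∈ RPts Ω q ∧ U ≤ L}.ncard = ∑ i ∈ Finset.range (finrank Ω L), q ^ i := by
  have h := rat_points hq hL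
  rw [← below_eq hq L]
  refine ⟨h.1.image _, ?_⟩
  rw [Set.ncard_image_of_injective _ Projectivization.submodule_injective]
  exact h.2

private lemma rat_top : RatSub q (⊤ : Submodule Ω (Fin 3 → Ω)) := fun _ _ => Submodule.mem_top

private lemma fr3 : finrank Ω (Fin 3 → Ω) = 3 := by simp

theorem card_RPts (hq : Hyp Ω q) :
    (RPts Ω q).Finite ∧ (RPts Ω q).ncard = q ^ 2 + q + 1 := by
  have h := below_card hq (rat_top (Ω := Ω) (q := q))
  have he : {U | U ∈ RPts Ω q ∧ U ≤ (⊤ : Submodule Ω (Fin 3 → Ω))} = RPts Ω q := by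
    ext U
    simp
  rw [he] at h
  refine ⟨h.1, ?_⟩
  rw [h.2, finrank_top, fr3]
  simp only [Finset.sum_range_succ, Finset.sum_range_zero, pow_zero, pow_one]
  ring

/-- the dot product as a bilinear form -/
private def bil (Ω : Type) [Field Ω] : LinearMap.BilinForm Ω (Fin 3 → Ω) :=
  Matrix.toBilin' (1 : Matrix (Fin 3) (Fin 3) Ω)

private lemma bil_apply (v w : Fin 3 → Ω) : bil Ω v w = v ⬝ᵥ w := by
  unfold bil
  rw [Matrix.toBilin'_apply', Matrix.one_mulVec]

private lemma bil_nondeg : (bil Ω).Nondegenerate :=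
  LinearMap.BilinForm.nondegenerate_toBilin'_of_det_ne_zero' _ (by simp)

private lemma bil_refl : (bil Ω).IsRefl := by
  intro v w h
  rw [bil_apply] at h ⊢
  rw [dotProduct_comm]
  exact h

/-- the orthogonal space for the dot product -/
private def perp (U : Submodule Ω (Fin 3 → Ω)) : Submodule Ω (Fin 3 → Ω) := (bil Ω).orthogonal U

private lemma mem_perp (U : Submodule Ω (Fin 3 → Ω)) (w : Fin 3 → Ω) :
    w ∈ perp U ↔ ∀ v ∈ U, v ⬝ᵥ w = 0 := by
  unfold perp
  rw [LinearMap.BilinForm.mem_orthogonal_iff]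
  constructor
  · intro h v hv
    have := h v hv
    rwa [bil_apply] at this
  · intro h v hv
    rw [bil_apply]
    exact h v hv

private lemma perp_perp (U : Submodule Ω (Fin 3 → Ω)) : perp (perp U) = U :=
  LinearMap.BilinForm.orthogonal_orthogonal bil_nondeg bil_refl U

private lemma perp_fr (U : Submodule Ω (Fin 3 → Ω)) : finrank Ω (perp U) = 3 - finrank Ω U := by
  have := LinearMap.BilinForm.finrank_orthogonal (bil_nondeg (Ω := Ω)) U
  rw [fr3] at this
  exact this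

private lemma perp_anti {U W : Submodule Ω (Fin 3 → Ω)} (h : U ≤ W) : perp W ≤ perp U := by
  intro w hw
  rw [mem_perp] at hw ⊢
  exact fun v hv => hw v (h hv)

private lemma perp_rat (hq : Hyp Ω q) {U : Submodule Ω (Fin 3 → Ω)} (hU : RatSub q U) :
    RatSub q (perp U) := by
  intro w hw
  rw [mem_perp] at hw ⊢
  intro v hv
  obtain ⟨N, hN, hv'⟩ := exists_frobV_fix hq v
  have h1 : frobV (q ^ (N - 1)) v ∈ U := RatSub.pow hq hU (N - 1) v hv
  have h2 : frobV q (frobV (q ^ (N - 1)) v) = v := by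
    conv_rhs => rw [← hv']
    funext j
    change (v j ^ q ^ (N - 1)) ^ q = v j ^ q ^ N
    rw [← pow_mul, ← pow_succ, Nat.sub_add_cancel hN]
  have h3 := hw _ h1
  obtain ⟨φ, hφ⟩ := hq.exists_hom
  rw [← h2]
  have h4 : frobV q (frobV (q ^ (N - 1)) v) ⬝ᵥ frobV q w = φ (frobV (q ^ (N - 1)) v ⬝ᵥ w) := by
    unfold dotProduct
    rw [map_sum]
    refine Finset.sum_congr rfl fun j _ => ?_
    rw [map_mul, hφ, hφ]
    rfl
  rw [h4, h3, map_zero]

private lemma perp_image (hq : Hyp Ω q) :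
    perp '' (RPts Ω q) = RLns Ω q := by
  ext L
  constructor
  · rintro ⟨U, hU, rfl⟩
    refine ⟨perp_rat hq hU.1, ?_⟩
    rw [perp_fr, hU.2]
  · intro hL
    refine ⟨perp L, ⟨perp_rat hq hL.1, ?_⟩, perp_perp L⟩
    rw [perp_fr, hL.2]

private lemma perp_inj : Function.Injective (perp : Submodule Ω (Fin 3 → Ω) → _) := by
  intro U W h
  rw [← perp_perp U, h, perp_perp]

theorem card_RLns (hq : Hyp Ω q) :
    (RLns Ω q).Finite ∧ (RLns Ω q).ncard = q ^ 2 + q + 1 := by
  have h := card_RPts hq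
  rw [← perp_image hq]
  refine ⟨h.1.image _, ?_⟩
  rw [Set.ncard_image_of_injective _ perp_inj]
  exact h.2

theorem card_RPts_below (hq : Hyp Ω q) {L : Submodule Ω (Fin 3 → Ω)} (hL : L ∈ RLns Ω q) :
    {U | U ∈ RPts Ω q ∧ U ≤ L}.ncard = q + 1 := by
  rw [(below_card hq hL.1).2, hL.2]
  simp only [Finset.sum_range_succ, Finset.sum_range_zero, pow_zero, pow_one]
  ring

theorem card_flags (hq : Hyp Ω q) :
    {F : Submodule Ω (Fin 3 → Ω) × Submodule Ω (Fin 3 → Ω) |
      F.1 ∈ RPts Ω q ∧ F.2 ∈ RLns Ω q ∧ F.1 ≤ F.2}.Finite ∧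
    {F : Submodule Ω (Fin 3 → Ω) × Submodule Ω (Fin 3 → Ω) |
      F.1 ∈ RPts Ω q ∧ F.2 ∈ RLns Ω q ∧ F.1 ≤ F.2}.ncard = (q ^ 2 + q + 1) * (q + 1) := by
  have hP := card_RPts hq
  have hL := card_RLns hq
  have hfin : {F : Submodule Ω (Fin 3 → Ω) × Submodule Ω (Fin 3 → Ω) |
      F.1 ∈ RPts Ω q ∧ F.2 ∈ RLns Ω q ∧ F.1 ≤ F.2}.Finite := by
    refine (hP.1.prod hL.1).subset ?_
    rintro ⟨U, L⟩ ⟨h1, h2, -⟩
    exact ⟨h1, h2⟩
  refine ⟨hfin, ?_⟩
  rw [Set.ncard_eq_toFinset_card _ hfin]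
  rw [Finset.card_eq_sum_card_fiberwise (f := Prod.snd) (t := hL.1.toFinset)]
  · rw [Finset.sum_congr rfl (g := fun _ => q + 1)]
    · rw [Finset.sum_const, ← Set.ncard_eq_toFinset_card _ hL.1, hL.2, smul_eq_mul]
    · intro L hLm
      rw [Set.Finite.mem_toFinset] at hLm
      rw [← card_RPts_below hq hLm]
      rw [← Set.ncard_coe_finset]
      rw [← Set.ncard_image_of_injective {U | U ∈ RPts Ω q ∧ U ≤ L}
        (Prod.mk_left_injective L)]
      congr 1
      ext ⟨U, L'⟩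
      simp only [Finset.coe_filter, Set.Finite.mem_toFinset, Set.mem_ofPred_eq, Set.mem_image,
        Prod.mk.injEq]
      constructor
      · rintro ⟨⟨h1, h2, h3⟩, rfl⟩
        exact ⟨U, ⟨h1, h3⟩, rfl, rfl⟩
      · rintro ⟨U', ⟨h1, h3⟩, rfl, rfl⟩
        exact ⟨⟨h1, hLm, h3⟩, rfl⟩
  · rintro ⟨U, L⟩ h
    simp only [Finset.mem_coe, Set.Finite.mem_toFinset, Set.mem_ofPred_eq] at h ⊢
    exact h.2.1

private theorem exists_point_below_aux (hq : Hyp Ω q) {L : Submodule Ω (Fin 3 → Ω)} (hL : L ∈ RLns Ω q) :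
    ∃ U ∈ RPts Ω q, U ≤ L := by
  have h := card_RPts_below hq hL
  have h1 : {U | U ∈ RPts Ω q ∧ U ≤ L}.Nonempty := by
    rw [Set.nonempty_iff_ne_empty]
    intro h0
    rw [h0, Set.ncard_empty] at h
    omega
  obtain ⟨U, hU⟩ := h1
  exact ⟨U, hU.1, hU.2⟩

theorem exists_line_above (hq : Hyp Ω q) {U : Submodule Ω (Fin 3 → Ω)} (hU : U ∈ RPts Ω q) :
    ∃ L ∈ RLns Ω q, U ≤ L := by
  have hp : perp U ∈ RLns Ω q := by
    rw [← perp_image hq]
    exact ⟨U, hU, rfl⟩
  obtain ⟨P, hP, hPU⟩ := exists_point_below_aux hq hp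
  refine ⟨perp P, ?_, ?_⟩
  · rw [← perp_image hq]
    exact ⟨P, hP, rfl⟩
  · have := perp_anti hPU
    rwa [perp_perp] at this

theorem exists_point_below (hq : Hyp Ω q) {L : Submodule Ω (Fin 3 → Ω)} (hL : L ∈ RLns Ω q) :
    ∃ U ∈ RPts Ω q, U ≤ L := exists_point_below_aux hq hL

end Pool.Agent.PPL
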