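import Mathlib
import Pool.Agent.PPL.LNS

/-! # Stability is tested by rational subspaces

Fix an equivariant family `x`, `n = card R` not divisible by `3`. For a subspace `U` put
`f U = 3 * hct x U - n * finrank U` (an integer). Then `f ⊥ = 0 = f ⊤`, `f` is supermodular
(`hct_sup_inf`, `Submodule.finrank_sup_add_finrank_inf_eq`), and `f U ≠ 0` for `U` of dimension one
or two, as `3` does not divide `n` nor `2 n`. `Hvy x U` means `0 < f U`; heavy subspaces have
dimension one or two.

`stable_iff`: if `x` is not stable, there is a heavy subspace `U` (maybe not rational), `f U ≠ 0`.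
Let `M` be a heavy subspace with `f M` maximal (values are bounded by `3 n`), and, among these,
of maximal dimension. For a second heavy subspace `M'` with `f M' = f M`, `M' ≠ M`, of the same
dimension: `f (M ⊔ M') + f (M ⊓ M') ≥ 2 f M > 0`. Both `f` are at most `f M` (they are heavy or have
`f ≤ 0`), so both are equal to `f M > 0`, and `M ⊔ M'` is heavy of bigger dimension with the maximal
value, a contradiction. The image of `M` under the `q`-power map (the subspace `M'` with
`v ∈ M ↔ frobV q v ∈ M'`: the span of the `frobV q v`, `v ∈ M`; same dimension; `hct_frob`) has the same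
`f` and dimension. So `M' = M`, that is, `M` is rational. -/

noncomputable section

namespace Pool.Agent.PPL

open Polynomial Module
open scoped Classical LinearAlgebra.Projectivization
open Pool.Agent.Mbar (Setup SSet IsSP)

variable {Ω : Type} [Field Ω] {q : ℕ} {R : Type} [Fintype R]

private def ff (x : R → ℙ Ω (Fin 3 → Ω)) (U : Submodule Ω (Fin 3 → Ω)) : ℤ :=
  3 * (hct x U : ℤ) - (Fintype.card R : ℤ) * (finrank Ω U : ℤ)

private lemma ff_super (x : R → ℙ Ω (Fin 3 → Ω)) (U W : Submodule Ω (Fin 3 → Ω)) :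
    ff x U + ff x W ≤ ff x (U ⊔ W) + ff x (U ⊓ W) := by
  have h1 := hct_sup_inf x U W
  have h2 := Submodule.finrank_sup_add_finrank_inf_eq U W
  unfold ff
  zify at h1 h2
  have h3 : (Fintype.card R : ℤ) * ((finrank Ω ↥(U ⊔ W) : ℤ) + (finrank Ω ↥(U ⊓ W) : ℤ))
      = (Fintype.card R : ℤ) * ((finrank Ω U : ℤ) + (finrank Ω W : ℤ)) := by rw [h2]
  linarith

private lemma hvy_iff (x : R → ℙ Ω (Fin 3 → Ω)) (U : Submodule Ω (Fin 3 → Ω)) :
    Hvy x U ↔ 0 < ff x U := by
  unfold Hvy ff
  rw [Nat.card_eq_fintype_card]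
  constructor
  · intro h
    zify at h
    linarith
  · intro h
    zify
    linarith

private lemma hct_le (x : R → ℙ Ω (Fin 3 → Ω)) (U : Submodule Ω (Fin 3 → Ω)) :
    hct x U ≤ Fintype.card R := by
  rw [← hct_top x]
  exact hct_mono x le_top

private lemma ff_le (x : R → ℙ Ω (Fin 3 → Ω)) (U : Submodule Ω (Fin 3 → Ω)) :
    ff x U ≤ 3 * Fintype.card R := by
  unfold ff
  have h1 := hct_le x U
  have h2 : (0 : ℤ) ≤ (Fintype.card R : ℤ) * (finrank Ω U : ℤ) := by positivity
  zify at h1
  linarith

private lemma fr3 : finrank Ω (Fin 3 → Ω) = 3 := by simp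

private lemma fr_le (U : Submodule Ω (Fin 3 → Ω)) : finrank Ω U ≤ 3 := by
  have := Submodule.finrank_le U
  rwa [fr3] at this

private lemma fr_top {U : Submodule Ω (Fin 3 → Ω)} (h : finrank Ω U = 3) : U = ⊤ := by
  apply Submodule.eq_top_of_finrank_eq
  rw [h, fr3]

private lemma fr_bot {U : Submodule Ω (Fin 3 → Ω)} (h : finrank Ω U = 0) : U = ⊥ :=
  Submodule.finrank_eq_zero.1 h

/-- the image of a subspace under the power map -/
private lemma image_sub (hq : Hyp Ω q) (M : Submodule Ω (Fin 3 → Ω)) :
    ∃ M' : Submodule Ω (Fin 3 → Ω), (∀ v, v ∈ M ↔ frobV q v ∈ M') ∧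
      finrank Ω M' = finrank Ω M := by
  obtain ⟨φ, hφ⟩ := hq.exists_hom
  have hsurj : Function.Surjective φ := by
    intro a
    obtain ⟨N, hN, ha⟩ := hq.alg a
    refine ⟨a ^ (q ^ (N - 1)), ?_⟩
    rw [hφ, ← pow_mul, ← pow_succ, Nat.sub_add_cancel hN, ha]
  have hadd : ∀ v w : Fin 3 → Ω, frobV q (v + w) = frobV q v + frobV q w := frobV_add hq
  have hinj := frobV_injective (Ω := Ω) hq (m := 3)
  have h0 : frobV q (0 : Fin 3 → Ω) = 0 := by
    have := hadd 0 0
    rw [add_zero] at this
    exact left_eq_add.1 this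
  let M' : Submodule Ω (Fin 3 → Ω) :=
    { carrier := frobV q '' (M : Set (Fin 3 → Ω))
      add_mem' := by
        rintro _ _ ⟨v, hv, rfl⟩ ⟨w, hw, rfl⟩
        exact ⟨v + w, M.add_mem hv hw, hadd v w⟩
      zero_mem' := ⟨0, M.zero_mem, h0⟩
      smul_mem' := by
        rintro c _ ⟨v, hv, rfl⟩
        obtain ⟨d, hd⟩ := hsurj c
        refine ⟨d • v, M.smul_mem d hv, ?_⟩
        rw [frobV_smul, ← hφ, hd] }
  have hmem : ∀ v, v ∈ M ↔ frobV q v ∈ M' := by
    intro v
    constructor
    · intro hv
      exact ⟨v, hv, rfl⟩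
    · rintro ⟨w, hw, hwv⟩
      rw [← hinj hwv]
      exact hw
  refine ⟨M', hmem, ?_⟩
  let j0 : M → M' := fun v => ⟨frobV q v, (hmem v).1 v.2⟩
  have hj0 : Function.Bijective j0 := by
    constructor
    · intro v w h
      have := congrArg Subtype.val h
      exact Subtype.ext (hinj this)
    · rintro ⟨_, ⟨v, hv, rfl⟩⟩
      exact ⟨⟨v, hv⟩, rfl⟩
  let j : M ≃+ M' :=
    { Equiv.ofBijective j0 hj0 with
      map_add' := by
        intro v w
        exact Subtype.ext (hadd v w) }
  have hr := rank_eq_of_equiv_equiv (R := Ω) (R' := Ω) (M := M) (M₁ := M') (fun a => φ a) j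
    ⟨φ.injective, hsurj⟩ (by
      intro r m
      apply Subtype.ext
      change frobV q (r • (m : Fin 3 → Ω)) = φ r • frobV q (m : Fin 3 → Ω)
      rw [frobV_smul, hφ])
  unfold Module.finrank
  rw [hr]

theorem stable_iff (hq : Hyp Ω q) (h3 : ¬ 3 ∣ Fintype.card R) {τ : Equiv.Perm R}
    {x : R → ℙ Ω (Fin 3 → Ω)} (hx : x ∈ EConf Ω q τ) :
    Stable x ↔ (∀ U ∈ RPts Ω q, ¬ Hvy x U) ∧ ∀ L ∈ RLns Ω q, ¬ Hvy x L := by
  constructor
  · intro hs
    constructor
    · rintro U ⟨-, hU⟩ hh
      have h1 : U ≠ ⊥ := by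
        rintro rfl
        simp at hU
      have h2 : U ≠ ⊤ := by
        rintro rfl
        rw [finrank_top, fr3] at hU
        omega
      have := hs U h1 h2
      unfold Hvy at hh
      omega
    · rintro U ⟨-, hU⟩ hh
      have h1 : U ≠ ⊥ := by
        rintro rfl
        simp at hU
      have h2 : U ≠ ⊤ := by
        rintro rfl
        rw [finrank_top, fr3] at hU
        omega
      have := hs U h1 h2
      unfold Hvy at hh
      omega
  · rintro ⟨hP, hL⟩
    by_contra hns
    unfold Stable at hns
    push Not at hns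
    obtain ⟨U, hU1, hU2, hU3⟩ := hns
    rw [Nat.card_eq_fintype_card] at hU3
    have hU0 : finrank Ω U ≠ 0 := fun h => hU1 (fr_bot h)
    have hU3' : finrank Ω U ≠ 3 := fun h => hU2 (fr_top h)
    have hUle := fr_le U
    have hpos : 0 < ff x U := by
      unfold ff
      have hne : Fintype.card R * finrank Ω U ≠ 3 * hct x U := by
        intro he
        rcases (by omega : finrank Ω U = 1 ∨ finrank Ω U = 2) with h | h
        · rw [h] at he
          exact h3 ⟨hct x U, by omega⟩
        · rw [h] at he
          omega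
      have hlt : Fintype.card R * finrank Ω U < 3 * hct x U := lt_of_le_of_ne hU3 hne
      zify at hlt
      linarith
    -- the maximal subspace
    obtain ⟨m, ⟨M, hM⟩, hmax⟩ := Int.exists_greatest_of_bdd
      (P := fun z => ∃ W : Submodule Ω (Fin 3 → Ω), 4 * ff x W + finrank Ω W = z)
      ⟨4 * (3 * Fintype.card R) + 3, by
        rintro z ⟨W, rfl⟩
        have h1 := ff_le x W
        have h2 := fr_le W
        omega⟩ ⟨_, U, rfl⟩
    have hmax' : ∀ W, 4 * ff x W + finrank Ω W ≤ 4 * ff x M + finrank Ω M := by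
      intro W
      rw [hM]
      exact hmax _ ⟨W, rfl⟩
    have hfmax : ∀ W, ff x W ≤ ff x M := by
      intro W
      have h1 := hmax' W
      have h2 := fr_le M
      have h4 := fr_le W
      omega
    have hMpos : 0 < ff x M := lt_of_lt_of_le hpos (hfmax U)
    obtain ⟨M', hM'1, hM'2⟩ := image_sub hq M
    have hh := hct_frob hq hx M M' hM'1
    have hff : ff x M' = ff x M := by
      unfold ff
      rw [hh, hM'2]
    have hMM : M' = M := by
      by_contra hne
      have h1 := ff_super x M M'
      have h2 := hfmax (M ⊔ M')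
      have h4 := hfmax (M ⊓ M')
      have h5 : ff x (M ⊔ M') = ff x M := by omega
      have h6 := hmax' (M ⊔ M')
      have h7 : finrank Ω M < finrank Ω ↥(M ⊔ M') := by
        apply Submodule.finrank_lt_finrank_of_lt
        refine lt_of_le_of_ne le_sup_left ?_
        intro he
        apply hne
        have hle : M' ≤ M := by
          rw [he]
          exact le_sup_right
        exact Submodule.eq_of_le_of_finrank_eq hle hM'2
      omega
    have hrat : RatSub q M := by
      intro v hv
      have := (hM'1 v).1 hv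
      rwa [hMM] at this
    have hr := fr_le M
    have hr0 : finrank Ω M ≠ 0 := by
      intro h
      have := fr_bot h
      rw [this] at hMpos
      unfold ff at hMpos
      rw [hct_bot] at hMpos
      simp at hMpos
    have hr3 : finrank Ω M ≠ 3 := by
      intro h
      have := fr_top h
      rw [this] at hMpos
      unfold ff at hMpos
      rw [hct_top, finrank_top, fr3] at hMpos
      push_cast at hMpos
      linarith
    rcases (by omega : finrank Ω M = 1 ∨ finrank Ω M = 2) with h | h
    · exact hP M ⟨hrat, h⟩ ((hvy_iff x M).2 hMpos)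
    · exact hL M ⟨hrat, h⟩ ((hvy_iff x M).2 hMpos)

end Pool.Agent.PPL
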