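import Mathlib
import Pool.Agent.PPL.HVA

/-! # Inclusion and exclusion over heavy rational subspaces

Fix an equivariant family `x`, `n = card R` not divisible by `3`. For a subspace `U` put
`f U = 3 * hct x U - n * finrank U` (an integer). Then `f ⊥ = 0 = f ⊤`, `f` is supermodular
(`hct_sup_inf`, `Submodule.finrank_sup_add_finrank_inf_eq`), and `f U ≠ 0` for `U` of dimension one
or two, as `3` does not divide `n` nor `2 n`. `Hvy x U` means `0 < f U`; heavy subspaces have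
dimension one or two.

`incl_excl`: if there are no heavy rational subspaces both sides are `1`. Otherwise let `M` be a
heavy rational subspace with `f M` maximal among the rational heavy subspaces. For each heavy
rational `W`, `f (W ⊓ M) ≥ f W + f M - f (W ⊔ M) ≥ f W > 0` (`f (W ⊔ M) ≤ f M`, also if `W ⊔ M = ⊤`), so
`W ⊓ M` is heavy, in particular not `⊥`.
- `finrank M = 1`: `W ⊓ M ≠ ⊥` gives `M ≤ W` for all heavy rational `W`. So `M` is the only heavy
rational point and all heavy rational lines contain it: `1 - 1 - v₂ + v₂ = 0`.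
- `finrank M = 2`: all heavy rational points `P` satisfy `P ≤ M` (as `P ⊓ M ≠ ⊥`), and for a heavy
rational line `L ≠ M` the point `L ⊓ M` is heavy (dimension one), and it is the only heavy point on
`L` (heavy points are on `M`). So the number of pairs is `v₁ + (v₂ - 1)` and `1 - v₁ - v₂ + (v₁ + v₂ - 1) = 0`. -/

noncomputable section

namespace Pool.Agent.PPL

open Polynomial Module
open scoped Classical LinearAlgebra.Projectivization
open Pool.Agent.Mbar (Setup SSet IsSP)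

variable {Ω : Type} [Field Ω] {q : ℕ} {R : Type} [Fintype R]

/-- the excess of a subspace -/
private def HVY_f (x : R → ℙ Ω (Fin 3 → Ω)) (U : Submodule Ω (Fin 3 → Ω)) : ℤ :=
  3 * (hct x U : ℤ) - (Nat.card R : ℤ) * (finrank Ω U : ℤ)

private lemma HVY_hvy (x : R → ℙ Ω (Fin 3 → Ω)) (U : Submodule Ω (Fin 3 → Ω)) :
    Hvy x U ↔ 0 < HVY_f x U := by
  unfold Hvy HVY_f
  rw [sub_pos]
  constructor
  · intro h
    exact_mod_cast h
  · intro h
    exact_mod_cast h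

private lemma HVY_bot (x : R → ℙ Ω (Fin 3 → Ω)) : HVY_f x ⊥ = 0 := by
  unfold HVY_f
  rw [hct_bot, finrank_bot]
  simp

private lemma HVY_top (x : R → ℙ Ω (Fin 3 → Ω)) : HVY_f x ⊤ = 0 := by
  unfold HVY_f
  rw [hct_top, finrank_top, Module.finrank_fin_fun, Nat.card_eq_fintype_card]
  push_cast
  ring

private lemma HVY_sup (x : R → ℙ Ω (Fin 3 → Ω)) (U W : Submodule Ω (Fin 3 → Ω)) :
    HVY_f x U + HVY_f x W ≤ HVY_f x (U ⊔ W) + HVY_f x (U ⊓ W) := by
  have h1 := hct_sup_inf x U W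
  have h2 := Submodule.finrank_sup_add_finrank_inf_eq U W
  have h1' : (hct x U : ℤ) + hct x W ≤ hct x (U ⊔ W) + hct x (U ⊓ W) := by exact_mod_cast h1
  have h2' : (finrank Ω (U ⊔ W : Submodule Ω (Fin 3 → Ω)) : ℤ) +
      finrank Ω (U ⊓ W : Submodule Ω (Fin 3 → Ω)) = finrank Ω U + finrank Ω W := by exact_mod_cast h2
  unfold HVY_f
  have h3 : (Nat.card R : ℤ) * (finrank Ω (U ⊔ W : Submodule Ω (Fin 3 → Ω)) : ℤ) +
      (Nat.card R : ℤ) * finrank Ω (U ⊓ W : Submodule Ω (Fin 3 → Ω)) =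
      (Nat.card R : ℤ) * finrank Ω U + (Nat.card R : ℤ) * finrank Ω W := by
    rw [← mul_add, ← mul_add, h2']
  linarith

private lemma HVY_rank {W : Submodule Ω (Fin 3 → Ω)} (h1 : W ≠ ⊥) (h2 : W ≠ ⊤) :
    finrank Ω W = 1 ∨ finrank Ω W = 2 := by
  have h3 : finrank Ω W ≠ 0 := fun h => h1 (Submodule.finrank_eq_zero.1 h)
  have h4 : finrank Ω W < 3 := by
    have := Submodule.finrank_lt h2
    rwa [Module.finrank_fin_fun] at this
  omega

theorem incl_excl (hq : Hyp Ω q) (h3 : ¬ 3 ∣ Fintype.card R) {τ : Equiv.Perm R}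
    {x : R → ℙ Ω (Fin 3 → Ω)} (hx : x ∈ EConf Ω q τ) :
    (if Stable x then (1 : ℤ) else 0) =
      1 - ({U | U ∈ RPts Ω q ∧ Hvy x U}.ncard : ℤ) - ({L | L ∈ RLns Ω q ∧ Hvy x L}.ncard : ℤ)
        + ({F : Submodule Ω (Fin 3 → Ω) × Submodule Ω (Fin 3 → Ω) |
            (F.1 ∈ RPts Ω q ∧ F.2 ∈ RLns Ω q ∧ F.1 ≤ F.2) ∧ Hvy x F.1 ∧ Hvy x F.2}.ncard : ℤ) := by
  have hfP : {U | U ∈ RPts Ω q ∧ Hvy x U}.Finite := (card_RPts hq).1.subset fun U hU => hU.1
  have hfL : {L | L ∈ RLns Ω q ∧ Hvy x L}.Finite := (card_RLns hq).1.subset fun U hU => hU.1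
  by_cases hst : Stable x
  · obtain ⟨h1, h2⟩ := (stable_iff hq h3 hx).1 hst
    have e1 : {U | U ∈ RPts Ω q ∧ Hvy x U} = ∅ := by
      ext U
      simp only [Set.mem_ofPred_eq, Set.mem_empty_iff_false, iff_false, not_and]
      exact h1 U
    have e2 : {L | L ∈ RLns Ω q ∧ Hvy x L} = ∅ := by
      ext U
      simp only [Set.mem_ofPred_eq, Set.mem_empty_iff_false, iff_false, not_and]
      exact h2 U
    have e3 : {F : Submodule Ω (Fin 3 → Ω) × Submodule Ω (Fin 3 → Ω) |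
            (F.1 ∈ RPts Ω q ∧ F.2 ∈ RLns Ω q ∧ F.1 ≤ F.2) ∧ Hvy x F.1 ∧ Hvy x F.2} = ∅ := by
      ext F
      simp only [Set.mem_ofPred_eq, Set.mem_empty_iff_false, iff_false]
      rintro ⟨⟨h4, -, -⟩, h5, -⟩
      exact h1 _ h4 h5
    rw [if_pos hst, e1, e2, e3, Set.ncard_empty, Set.ncard_empty]
    simp
  rw [if_neg hst]
  have hne : ({U | U ∈ RPts Ω q ∧ Hvy x U} ∪ {L | L ∈ RLns Ω q ∧ Hvy x L}).Nonempty := by
    by_contra hne
    rw [Set.not_nonempty_iff_eq_empty, Set.union_empty_iff] at hne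
    apply hst
    rw [stable_iff hq h3 hx]
    refine ⟨fun U hU h => ?_, fun U hU h => ?_⟩
    · have : U ∈ ({U | U ∈ RPts Ω q ∧ Hvy x U} : Set _) := ⟨hU, h⟩
      rw [hne.1] at this
      exact this
    · have : U ∈ ({L | L ∈ RLns Ω q ∧ Hvy x L} : Set _) := ⟨hU, h⟩
      rw [hne.2] at this
      exact this
  obtain ⟨M, hM, hmax⟩ := Set.exists_max_image _ (HVY_f x) (hfP.union hfL) hne
  have hMr : RatSub q M := by
    rcases hM with hM | hM
    · exact hM.1.1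
    · exact hM.1.1
  have hMh : 0 < HVY_f x M := by
    rw [← HVY_hvy]
    rcases hM with hM | hM
    · exact hM.2
    · exact hM.2
  -- the maximum bounds all rational subspaces
  have hbd : ∀ W : Submodule Ω (Fin 3 → Ω), RatSub q W → HVY_f x W ≤ HVY_f x M := by
    intro W hW
    by_cases hWh : 0 < HVY_f x W
    · have hb : W ≠ ⊥ := by
        rintro rfl
        rw [HVY_bot] at hWh
        exact lt_irrefl _ hWh
      have ht : W ≠ ⊤ := by
        rintro rfl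
        rw [HVY_top] at hWh
        exact lt_irrefl _ hWh
      rcases HVY_rank hb ht with h | h
      · exact hmax W (Or.inl ⟨⟨hW, h⟩, (HVY_hvy x W).2 hWh⟩)
      · exact hmax W (Or.inr ⟨⟨hW, h⟩, (HVY_hvy x W).2 hWh⟩)
    · exact (not_lt.1 hWh).trans hMh.le
  have hinf : ∀ W : Submodule Ω (Fin 3 → Ω), RatSub q W → Hvy x W → Hvy x (W ⊓ M) ∧ W ⊓ M ≠ ⊥ := by
    intro W hW hWh
    have h1 := HVY_sup x W M
    have h2 := hbd _ (hW.sup hq hMr)
    have h3 := (HVY_hvy x W).1 hWh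
    have h4 : 0 < HVY_f x (W ⊓ M) := by linarith
    refine ⟨(HVY_hvy x _).2 h4, ?_⟩
    intro h5
    rw [h5, HVY_bot] at h4
    exact lt_irrefl _ h4
  rcases hM with ⟨hM1, hM2⟩ | ⟨hM1, hM2⟩
  · -- a heavy point
    have hle : ∀ W : Submodule Ω (Fin 3 → Ω), RatSub q W → Hvy x W → M ≤ W := by
      intro W hW hWh
      have h1 := (hinf W hW hWh).2
      have h2 : W ⊓ M = M := by
        apply Submodule.eq_of_le_of_finrank_le inf_le_right
        rw [hM1.2]
        exact Nat.one_le_iff_ne_zero.2 fun h => h1 (Submodule.finrank_eq_zero.1 h)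
      exact inf_eq_right.1 h2
    have e1 : {U | U ∈ RPts Ω q ∧ Hvy x U} = {M} := by
      ext U
      simp only [Set.mem_ofPred_eq, Set.mem_singleton_iff]
      constructor
      · rintro ⟨h1, h2⟩
        exact (Submodule.eq_of_le_of_finrank_le (hle U h1.1 h2) (by rw [hM1.2, h1.2])).symm
      · rintro rfl
        exact ⟨hM1, hM2⟩
    have e3 : {F : Submodule Ω (Fin 3 → Ω) × Submodule Ω (Fin 3 → Ω) |
            (F.1 ∈ RPts Ω q ∧ F.2 ∈ RLns Ω q ∧ F.1 ≤ F.2) ∧ Hvy x F.1 ∧ Hvy x F.2} =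
        (fun L => (M, L)) '' {L | L ∈ RLns Ω q ∧ Hvy x L} := by
      ext F
      simp only [Set.mem_ofPred_eq, Set.mem_image]
      constructor
      · rintro ⟨⟨h1, h2, h3⟩, h4, h5⟩
        refine ⟨F.2, ⟨h2, h5⟩, ?_⟩
        have h6 : F.1 ∈ ({U | U ∈ RPts Ω q ∧ Hvy x U} : Set _) := ⟨h1, h4⟩
        rw [e1, Set.mem_singleton_iff] at h6
        exact Prod.ext h6.symm rfl
      · rintro ⟨L, ⟨h1, h2⟩, rfl⟩
        exact ⟨⟨hM1, h1, hle L h1.1 h2⟩, hM2, h2⟩
    have c3 : ((fun L => (M, L)) '' {L | L ∈ RLns Ω q ∧ Hvy x L}).ncard =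
        {L | L ∈ RLns Ω q ∧ Hvy x L}.ncard :=
      Set.ncard_image_of_injective _ fun a b h => (Prod.ext_iff.1 h).2
    rw [e1, e3, c3, Set.ncard_singleton]
    push_cast
    ring
  · -- a heavy line
    have hle : ∀ P : Submodule Ω (Fin 3 → Ω), P ∈ RPts Ω q → Hvy x P → P ≤ M := by
      intro P hP hPh
      have h1 := (hinf P hP.1 hPh).2
      have h2 : P ⊓ M = P := by
        apply Submodule.eq_of_le_of_finrank_le inf_le_left
        rw [hP.2]
        exact Nat.one_le_iff_ne_zero.2 fun h => h1 (Submodule.finrank_eq_zero.1 h)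
      exact inf_eq_left.1 h2
    have hLM : ∀ L : Submodule Ω (Fin 3 → Ω), L ∈ RLns Ω q → Hvy x L → L ≠ M →
        L ⊓ M ∈ RPts Ω q := by
      intro L hL hLh hne
      have h1 := (hinf L hL.1 hLh).2
      refine ⟨hL.1.inf hMr, ?_⟩
      have h2 : finrank Ω (L ⊓ M : Submodule Ω (Fin 3 → Ω)) ≠ 0 := fun h => h1 (Submodule.finrank_eq_zero.1 h)
      have h4 : finrank Ω (L ⊓ M : Submodule Ω (Fin 3 → Ω)) < 2 := by
        by_contra h5
        have h6 : L ⊓ M = L := Submodule.eq_of_le_of_finrank_le inf_le_left (by rw [hL.2]; omega)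
        have h7 : L ≤ M := inf_eq_left.1 h6
        exact hne (Submodule.eq_of_le_of_finrank_le h7 (by rw [hL.2, hM1.2]))
      omega
    have e3 : {F : Submodule Ω (Fin 3 → Ω) × Submodule Ω (Fin 3 → Ω) |
            (F.1 ∈ RPts Ω q ∧ F.2 ∈ RLns Ω q ∧ F.1 ≤ F.2) ∧ Hvy x F.1 ∧ Hvy x F.2} =
        (fun P => (P, M)) '' {P | P ∈ RPts Ω q ∧ Hvy x P} ∪
          (fun L => (L ⊓ M, L)) '' ({L | L ∈ RLns Ω q ∧ Hvy x L} \ {M}) := by
      ext F
      simp only [Set.mem_ofPred_eq, Set.mem_union, Set.mem_image]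
      constructor
      · rintro ⟨⟨h1, h2, h3⟩, h4, h5⟩
        by_cases h6 : F.2 = M
        · exact Or.inl ⟨F.1, ⟨h1, h4⟩, Prod.ext rfl h6.symm⟩
        · refine Or.inr ⟨F.2, ⟨⟨h2, h5⟩, h6⟩, Prod.ext ?_ rfl⟩
          have h7 := hLM F.2 h2 h5 h6
          have h8 : F.1 ≤ F.2 ⊓ M := le_inf h3 (hle F.1 h1 h4)
          exact (Submodule.eq_of_le_of_finrank_le h8 (by rw [h7.2, h1.2])).symm
      · rintro (⟨P, ⟨h1, h2⟩, rfl⟩ | ⟨L, ⟨⟨h1, h2⟩, h3⟩, rfl⟩)
        · exact ⟨⟨h1, hM1, hle P h1 h2⟩, h2, hM2⟩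
        · exact ⟨⟨hLM L h1 h2 h3, h1, inf_le_left⟩, (hinf L h1.1 h2).1, h2⟩
    have c1 : ((fun P => (P, M)) '' {P | P ∈ RPts Ω q ∧ Hvy x P}).ncard =
        {P | P ∈ RPts Ω q ∧ Hvy x P}.ncard :=
      Set.ncard_image_of_injective _ fun a b h => (Prod.ext_iff.1 h).1
    have c2 : ((fun L => (L ⊓ M, L)) '' ({L | L ∈ RLns Ω q ∧ Hvy x L} \ {M})).ncard =
        ({L | L ∈ RLns Ω q ∧ Hvy x L} \ {M}).ncard :=
      Set.ncard_image_of_injective _ fun a b h => (Prod.ext_iff.1 h).2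
    have c3 : ({L | L ∈ RLns Ω q ∧ Hvy x L} \ {M}).ncard + 1 = {L | L ∈ RLns Ω q ∧ Hvy x L}.ncard :=
      Set.ncard_sdiff_singleton_add_one (show M ∈ {L | L ∈ RLns Ω q ∧ Hvy x L} from ⟨hM1, hM2⟩) hfL
    have hdis : Disjoint ((fun P => (P, M)) '' {P | P ∈ RPts Ω q ∧ Hvy x P})
        ((fun L => (L ⊓ M, L)) '' ({L | L ∈ RLns Ω q ∧ Hvy x L} \ {M})) := by
      rw [Set.disjoint_left]
      rintro _ ⟨P, -, rfl⟩ ⟨L, ⟨-, hL⟩, he⟩
      exact hL (Prod.ext_iff.1 he).2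
    rw [e3, Set.ncard_union_eq hdis (hfP.image _) ((hfL.subset Set.sdiff_subset).image _), c1, c2, ← c3]
    push_cast
    ring

end Pool.Agent.PPL
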