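import Mathlib
import Pool.Agent.PPL.RPC
import Pool.Agent.Mbar.TPL

/-! # Equivariant families with given types relative to a rational flag

`type_count`: if `s` is not invariant under `τ` there is no such family, because
`typ U₁ U₂ (frobPt q x) = typ U₁ U₂ x` (`frobPt_submodule_le`). If `s` is invariant, apply
`Mbar.tpl` with `σ = τ`, `X = ℙ Ω (Fin 3 → Ω)`, `T` the permutation given by `frobPt_bijective`,
`Y = Fin 3`, `T' = 1`, `A b = {x | typ U₁ U₂ x = s b}`, `A' b = {s b}` and `dg y = y.val`. The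
hypothesis `h` of `tpl` is the count of the points of type `y` fixed by the `q ^ d`-power map
(`frobPt_iterate`): they are the fixed points of `U₁`, of `U₂` but not `U₁`, of everything but `U₂`,
and `rat_points` for `q ^ d` (`RatSub.pow`, dimensions `1, 2, 3`) gives `1`, `(1 + q^d) - 1 = q ^ d`,
`(1 + q ^ d + q ^ (2 d)) - (1 + q ^ d) = q ^ (2 d)`. In the right side of `tpl` the only element of
`Fintype.piFinset A'` is `s`.

`flag_count`: partition the set of families by the function `s i = typ U₁ U₂ (x i)`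
(finitely many `s`); `hct x U₁ = cnt s 0` and `hct x U₂ = cnt s 0 + cnt s 1`, and
`∑ i, (s i).val = cnt s 1 + 2 * cnt s 2`. -/

noncomputable section

namespace Pool.Agent.PPL

open Polynomial Module
open scoped Classical LinearAlgebra.Projectivization
open Pool.Agent.Mbar (Setup SSet IsSP)

variable {Ω : Type} [Field Ω] {q : ℕ} {R : Type} [Fintype R]

lemma sum_val (s : R → Fin 3) : ∑ i, (s i).val = cnt s 1 + 2 * cnt s 2 := by
  unfold cnt
  rw [Finset.card_filter, Finset.card_filter, Finset.mul_sum, ← Finset.sum_add_distrib]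
  refine Finset.sum_congr rfl fun i _ => ?_
  generalize s i = j
  fin_cases j <;> simp

lemma cnt_sum (s : R → Fin 3) : cnt s 0 + cnt s 1 + cnt s 2 = Fintype.card R := by
  unfold cnt
  rw [Finset.card_filter, Finset.card_filter, Finset.card_filter, ← Finset.sum_add_distrib,
    ← Finset.sum_add_distrib, ← Finset.card_univ, Finset.card_eq_sum_ones]
  refine Finset.sum_congr rfl fun i _ => ?_
  generalize s i = j
  fin_cases j <;> simp

omit [Fintype R] in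
private lemma typ_frob (hq : Hyp Ω q) {U₁ U₂ : Submodule Ω (Fin 3 → Ω)}
    (h₁ : RatSub q U₁) (h₂ : RatSub q U₂) (x : ℙ Ω (Fin 3 → Ω)) :
    typ U₁ U₂ (frobPt q x) = typ U₁ U₂ x := by
  unfold typ
  rw [frobPt_submodule_le hq h₁, frobPt_submodule_le hq h₂]

private lemma fr3 : finrank Ω (Fin 3 → Ω) = 3 := by simp

private lemma fixed_count (hq : Hyp Ω q) {U₁ U₂ : Submodule Ω (Fin 3 → Ω)}
    (h₁ : U₁ ∈ RPts Ω q) (h₂ : U₂ ∈ RLns Ω q) (h : U₁ ≤ U₂) (j : Fin 3) :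
    {x : ℙ Ω (Fin 3 → Ω) | typ U₁ U₂ x = j ∧ frobPt q x = x}.Finite ∧
    {x : ℙ Ω (Fin 3 → Ω) | typ U₁ U₂ x = j ∧ frobPt q x = x}.ncard = q ^ (j : ℕ) := by
  have c1 := rat_points hq h₁.1
  have c2 := rat_points hq h₂.1
  have c3 := rat_points hq (U := (⊤ : Submodule Ω (Fin 3 → Ω))) (fun _ _ => Submodule.mem_top)
  rw [h₁.2] at c1
  rw [h₂.2] at c2
  rw [finrank_top, fr3] at c3
  simp only [Finset.sum_range_succ, Finset.sum_range_zero, pow_zero, pow_one, zero_add] at c1 c2 c3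
  fin_cases j
  · have he : {x : ℙ Ω (Fin 3 → Ω) | typ U₁ U₂ x = 0 ∧ frobPt q x = x} =
        {x : ℙ Ω (Fin 3 → Ω) | x.submodule ≤ U₁ ∧ frobPt q x = x} := by
      ext x
      simp only [Set.mem_ofPred_eq]
      unfold typ
      by_cases k1 : x.submodule ≤ U₁
      · simp [k1]
      · by_cases k2 : x.submodule ≤ U₂
        · simp [k1, k2]
        · simp [k1, k2]
    change {x : ℙ Ω (Fin 3 → Ω) | typ U₁ U₂ x = 0 ∧ frobPt q x = x}.Finite ∧
      {x : ℙ Ω (Fin 3 → Ω) | typ U₁ U₂ x = 0 ∧ frobPt q x = x}.ncard = q ^ 0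
    rw [he]
    exact ⟨c1.1, by rw [c1.2, pow_zero]⟩
  · have he : {x : ℙ Ω (Fin 3 → Ω) | typ U₁ U₂ x = 1 ∧ frobPt q x = x} =
        {x : ℙ Ω (Fin 3 → Ω) | x.submodule ≤ U₂ ∧ frobPt q x = x} \
        {x : ℙ Ω (Fin 3 → Ω) | x.submodule ≤ U₁ ∧ frobPt q x = x} := by
      ext x
      simp only [Set.mem_ofPred_eq, Set.mem_diff]
      unfold typ
      by_cases k1 : x.submodule ≤ U₁
      · simp [k1]
      · by_cases k2 : x.submodule ≤ U₂
        · simp [k1, k2]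
        · simp [k1, k2]
    change {x : ℙ Ω (Fin 3 → Ω) | typ U₁ U₂ x = 1 ∧ frobPt q x = x}.Finite ∧
      {x : ℙ Ω (Fin 3 → Ω) | typ U₁ U₂ x = 1 ∧ frobPt q x = x}.ncard = q ^ 1
    rw [he]
    refine ⟨c2.1.diff, ?_⟩
    rw [Set.ncard_diff _ c1.1, c1.2, c2.2, pow_one]
    · omega
    · rintro x ⟨k1, k2⟩
      exact ⟨k1.trans h, k2⟩
  · have he : {x : ℙ Ω (Fin 3 → Ω) | typ U₁ U₂ x = 2 ∧ frobPt q x = x} =
        {x : ℙ Ω (Fin 3 → Ω) | x.submodule ≤ ⊤ ∧ frobPt q x = x} \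
        {x : ℙ Ω (Fin 3 → Ω) | x.submodule ≤ U₂ ∧ frobPt q x = x} := by
      ext x
      simp only [Set.mem_ofPred_eq, Set.mem_diff]
      unfold typ
      by_cases k2 : x.submodule ≤ U₂
      · by_cases k1 : x.submodule ≤ U₁
        · simp [k1, k2]
        · simp [k1, k2]
      · have k1 : ¬ x.submodule ≤ U₁ := fun k => k2 (k.trans h)
        simp [k1, k2]
    change {x : ℙ Ω (Fin 3 → Ω) | typ U₁ U₂ x = 2 ∧ frobPt q x = x}.Finite ∧
      {x : ℙ Ω (Fin 3 → Ω) | typ U₁ U₂ x = 2 ∧ frobPt q x = x}.ncard = q ^ 2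
    rw [he]
    refine ⟨c3.1.diff, ?_⟩
    rw [Set.ncard_diff _ c2.1, c2.2, c3.2]
    · omega
    · rintro x ⟨k1, k2⟩
      exact ⟨le_top, k2⟩

theorem type_count (hq : Hyp Ω q) (τ : Equiv.Perm R) {U₁ U₂ : Submodule Ω (Fin 3 → Ω)}
    (h₁ : U₁ ∈ RPts Ω q) (h₂ : U₂ ∈ RLns Ω q) (h : U₁ ≤ U₂) (s : R → Fin 3) :
    {x : R → ℙ Ω (Fin 3 → Ω) | x ∈ EConf Ω q τ ∧ ∀ i, typ U₁ U₂ (x i) = s i}.Finite ∧
    {x : R → ℙ Ω (Fin 3 → Ω) | x ∈ EConf Ω q τ ∧ ∀ i, typ U₁ U₂ (x i) = s i}.ncard =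
      if s ∈ Inv τ then q ^ (cnt s 1 + 2 * cnt s 2) else 0 := by
  by_cases hs : s ∈ Inv τ
  · rw [if_pos hs]
    have hs' : ∀ i, s (τ i) = s i := by
      unfold Inv at hs
      exact (Finset.mem_filter.1 hs).2
    set Tq : Equiv.Perm (ℙ Ω (Fin 3 → Ω)) := Equiv.ofBijective (frobPt q) (frobPt_bijective hq)
      with hTq
    have hTa : ∀ x, Tq x = frobPt q x := fun x => rfl
    have hTd : ∀ d x, (Tq ^ d) x = frobPt (q ^ d) x := by
      intro d x
      rw [← Equiv.Perm.iterate_eq_pow, ← frobPt_iterate hq]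
      rfl
    have key := Pool.Agent.Mbar.tpl τ Tq (1 : Equiv.Perm (Fin 3))
      (fun b => {x | typ U₁ U₂ x = s b}) (fun b => {s b}) (fun y => (y : ℕ)) q
      (by
        intro b x
        simp only [Set.mem_ofPred_eq]
        rw [hTa, typ_frob hq h₁.1 h₂.1, hs'])
      (by
        intro b y
        simp only [Equiv.Perm.coe_one, id_eq, Finset.mem_singleton]
        rw [hs'])
      (by
        intro y
        rfl)
      (by
        intro b d hd hb
        have hqd := hq.pow hd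
        have h1' : U₁ ∈ RPts Ω (q ^ d) := ⟨RatSub.pow hq h₁.1 d, h₁.2⟩
        have h2' : U₂ ∈ RLns Ω (q ^ d) := ⟨RatSub.pow hq h₂.1 d, h₂.2⟩
        have hc := fixed_count hqd h1' h2' h (s b)
        have he : {x | x ∈ {x | typ U₁ U₂ x = s b} ∧ (Tq ^ d) x = x} =
            {x | typ U₁ U₂ x = s b ∧ frobPt (q ^ d) x = x} := by
          ext x
          simp only [Set.mem_ofPred_eq, hTd]
        rw [he]
        refine ⟨hc.1, ?_⟩
        rw [hc.2, Finset.sum_singleton, one_pow, if_pos (by rfl), pow_mul])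
    have hset : {x : R → ℙ Ω (Fin 3 → Ω) | (∀ b, x b ∈ {x | typ U₁ U₂ x = s b}) ∧
        ∀ b, x (τ b) = Tq (x b)} =
        {x : R → ℙ Ω (Fin 3 → Ω) | x ∈ EConf Ω q τ ∧ ∀ i, typ U₁ U₂ (x i) = s i} := by
      ext x
      constructor
      · rintro ⟨k1, k2⟩
        exact ⟨k2, k1⟩
      · rintro ⟨k1, k2⟩
        exact ⟨k2, k1⟩
    rw [hset] at key
    refine ⟨key.1, ?_⟩
    rw [key.2, Fintype.piFinset_singleton, Finset.sum_singleton, if_pos, sum_val]
    intro b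
    exact hs' b
  · rw [if_neg hs]
    have he : {x : R → ℙ Ω (Fin 3 → Ω) | x ∈ EConf Ω q τ ∧ ∀ i, typ U₁ U₂ (x i) = s i} = ∅ := by
      rw [Set.eq_empty_iff_forall_notMem]
      rintro x ⟨k1, k2⟩
      apply hs
      unfold Inv
      rw [Finset.mem_filter]
      refine ⟨Finset.mem_univ _, fun i => ?_⟩
      rw [← k2, ← k2, k1 i, typ_frob hq h₁.1 h₂.1]
    rw [he]
    exact ⟨Set.finite_empty, Set.ncard_empty _⟩

private lemma hct_one (U₁ U₂ : Submodule Ω (Fin 3 → Ω)) (x : R → ℙ Ω (Fin 3 → Ω)) :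
    hct x U₁ = cnt (fun i => typ U₁ U₂ (x i)) 0 := by
  unfold hct cnt
  rw [Nat.card_eq_fintype_card, Fintype.card_subtype]
  congr 1
  ext i
  simp only [Finset.mem_filter, Finset.mem_univ, true_and]
  unfold typ
  by_cases k1 : (x i).submodule ≤ U₁
  · simp [k1]
  · by_cases k2 : (x i).submodule ≤ U₂
    · simp [k1, k2]
    · simp [k1, k2]

private lemma hct_two {U₁ U₂ : Submodule Ω (Fin 3 → Ω)} (h : U₁ ≤ U₂) (x : R → ℙ Ω (Fin 3 → Ω)) :
    hct x U₂ = cnt (fun i => typ U₁ U₂ (x i)) 0 + cnt (fun i => typ U₁ U₂ (x i)) 1 := by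
  unfold hct cnt
  rw [Nat.card_eq_fintype_card, Fintype.card_subtype, ← Finset.card_union_of_disjoint]
  · congr 1
    ext i
    simp only [Finset.mem_filter, Finset.mem_univ, true_and, Finset.mem_union]
    unfold typ
    by_cases k2 : (x i).submodule ≤ U₂
    · by_cases k1 : (x i).submodule ≤ U₁
      · simp [k1, k2]
      · simp [k1, k2]
    · have k1 : ¬ (x i).submodule ≤ U₁ := fun k => k2 (k.trans h)
      simp [k1, k2]
  · rw [Finset.disjoint_left]
    intro i hi hi'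
    rw [Finset.mem_filter] at hi hi'
    rw [hi.2] at hi'
    exact absurd hi'.2 (by decide)

/-- `{x ∈ EConf | P (hct x U₁) (hct x U₂)}` -/
theorem flag_count (hq : Hyp Ω q) (τ : Equiv.Perm R) {U₁ U₂ : Submodule Ω (Fin 3 → Ω)}
    (h₁ : U₁ ∈ RPts Ω q) (h₂ : U₂ ∈ RLns Ω q) (h : U₁ ≤ U₂) (P : ℕ → ℕ → Prop) :
    {x : R → ℙ Ω (Fin 3 → Ω) | x ∈ EConf Ω q τ ∧ P (hct x U₁) (hct x U₂)}.Finite ∧
    {x : R → ℙ Ω (Fin 3 → Ω) | x ∈ EConf Ω q τ ∧ P (hct x U₁) (hct x U₂)}.ncard =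
      ∑ s ∈ (Inv τ).filter (fun s => P (cnt s 0) (cnt s 0 + cnt s 1)),
        q ^ (cnt s 1 + 2 * cnt s 2) := by
  have hfin : {x : R → ℙ Ω (Fin 3 → Ω) | x ∈ EConf Ω q τ ∧ P (hct x U₁) (hct x U₂)}.Finite := by
    refine (Set.finite_iUnion (fun s : R → Fin 3 => (type_count hq τ h₁ h₂ h s).1)).subset ?_
    rintro x ⟨k1, -⟩
    rw [Set.mem_iUnion]
    exact ⟨fun i => typ U₁ U₂ (x i), k1, fun i => rfl⟩
  refine ⟨hfin, ?_⟩
  rw [Set.ncard_eq_toFinset_card _ hfin]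
  rw [Finset.card_eq_sum_card_fiberwise (f := fun x i => typ U₁ U₂ (x i))
    (t := (Inv τ).filter (fun s => P (cnt s 0) (cnt s 0 + cnt s 1)))]
  · refine Finset.sum_congr rfl fun s hs => ?_
    rw [Finset.mem_filter] at hs
    have hc := (type_count hq τ h₁ h₂ h s).2
    rw [if_pos hs.1] at hc
    rw [← hc, ← Set.ncard_coe_finset]
    congr 1
    ext x
    simp only [Finset.coe_filter, Set.Finite.mem_toFinset, Set.mem_ofPred_eq]
    constructor
    · rintro ⟨⟨k1, k2⟩, k3⟩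
      exact ⟨k1, fun i => congrFun k3 i⟩
    · rintro ⟨k1, k2⟩
      have k3 : (fun i => typ U₁ U₂ (x i)) = s := funext k2
      refine ⟨⟨k1, ?_⟩, k3⟩
      rw [hct_one U₁ U₂, hct_two h, k3]
      exact hs.2
  · intro x hx
    rw [Finset.mem_coe, Set.Finite.mem_toFinset] at hx
    obtain ⟨k1, k2⟩ := hx
    rw [Finset.mem_coe, Finset.mem_filter]
    rw [hct_one U₁ U₂, hct_two h] at k2
    refine ⟨?_, k2⟩
    unfold Inv
    rw [Finset.mem_filter]
    refine ⟨Finset.mem_univ _, fun i => ?_⟩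
    change typ U₁ U₂ (x (τ i)) = typ U₁ U₂ (x i)
    rw [k1 i, typ_frob hq h₁.1 h₂.1]

end Pool.Agent.PPL
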