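import Mathlib
import Pool.Agent.PPL.HVY
import Pool.Agent.PPL.TYP

/-! # The number of stable equivariant families

Sum `incl_excl` over the finite set `EConf` (finite by `flag_count` with `P = True`) and exchange the
sums: the number of pairs `(x, U)` with `U ∈ RPts` heavy for `x` is
`∑ U ∈ RPts, #{x | Hvy x U}`, for each `U` choose a line above it (`exists_line_above`) and use
`flag_count` with `P a b = (n * 1 < 3 * a)`; similarly for lines with `P a b = (n * 2 < 3 * b)`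
(`exists_point_below`) and for flags. As `a + b' + c = n` (`cnt_sum`), `n * 2 < 3 * (a + b')` is
`3 * c < n`. With `card_RPts`, `card_RLns`, `card_flags` the result is
`∑ s ∈ Inv τ, q ^ (b + 2 c) * (1 - (q² + q + 1) ([n < 3 a] + [3 c < n]) +
(q² + q + 1) (q + 1) [n < 3 a] [3 c < n])`, and the bracket is the value of `wt s` at `q`. -/

noncomputable section

namespace Pool.Agent.PPL

open Polynomial Module
open scoped Classical LinearAlgebra.Projectivization
open Pool.Agent.Mbar (Setup SSet IsSP)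

variable {Ω : Type} [Field Ω] {q : ℕ} {R : Type} [Fintype R]

omit [Field Ω] [Fintype R] in
private theorem CNT_gen {X : Type} {E : Set X} (hE : E.Finite) (p : X → Prop) :
    ({x | x ∈ E ∧ p x}.ncard : ℤ) = ∑ x ∈ hE.toFinset, if p x then (1 : ℤ) else 0 := by
  have h1 : {x | x ∈ E ∧ p x} = (↑(hE.toFinset.filter p) : Set X) := by
    ext x
    simp
  rw [h1, Set.ncard_coe_finset, Finset.card_filter]
  push_cast
  rfl

private theorem CNT_ite (p p' : Prop) {i : Decidable p} {i' : Decidable p'} (h : p ↔ p') :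
    (@ite ℤ p i 1 0) = @ite ℤ p' i' 1 0 := by
  by_cases hp : p
  · rw [if_pos hp, if_pos (h.1 hp)]
  · rw [if_neg hp, if_neg fun h' => hp (h.2 h')]

private theorem CNT_fl (hq : Hyp Ω q) (τ : Equiv.Perm R) {U₁ U₂ : Submodule Ω (Fin 3 → Ω)}
    (h₁ : U₁ ∈ RPts Ω q) (h₂ : U₂ ∈ RLns Ω q) (h : U₁ ≤ U₂) (P : ℕ → ℕ → Prop)
    (hE : (EConf Ω q τ : Set (R → ℙ Ω (Fin 3 → Ω))).Finite) :
    (∑ x ∈ hE.toFinset, if P (hct x U₁) (hct x U₂) then (1 : ℤ) else 0) =
      ∑ s ∈ Inv τ, (q : ℤ) ^ (cnt s 1 + 2 * cnt s 2) *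
        (if P (cnt s 0) (cnt s 0 + cnt s 1) then 1 else 0) := by
  rw [← CNT_gen hE, (flag_count hq τ h₁ h₂ h P).2]
  push_cast
  rw [Finset.sum_filter]
  refine Finset.sum_congr rfl fun s _ => ?_
  split_ifs <;> simp

theorem stable_count (hq : Hyp Ω q) (h3 : ¬ 3 ∣ Fintype.card R) (τ : Equiv.Perm R) :
    {x : R → ℙ Ω (Fin 3 → Ω) | x ∈ EConf Ω q τ ∧ Stable x}.Finite ∧
    ({x : R → ℙ Ω (Fin 3 → Ω) | x ∈ EConf Ω q τ ∧ Stable x}.ncard : ℤ) =
      (numP τ).eval (q : ℤ) := by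
  obtain ⟨hP, hPc⟩ := card_RPts (Ω := Ω) hq
  obtain ⟨hL, hLc⟩ := card_RLns (Ω := Ω) hq
  obtain ⟨hF, hFc⟩ := card_flags (Ω := Ω) hq
  have hne : (RPts Ω q).Nonempty := by
    rw [← Set.ncard_pos hP, hPc]
    omega
  obtain ⟨U₀, hU₀⟩ := hne
  obtain ⟨L₀, hL₀, hUL₀⟩ := exists_line_above hq hU₀
  have hE : (EConf Ω q τ : Set (R → ℙ Ω (Fin 3 → Ω))).Finite := by
    refine (flag_count hq τ hU₀ hL₀ hUL₀ (fun _ _ => True)).1.subset fun x hx => ?_
    exact ⟨hx, trivial⟩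
  refine ⟨hE.subset fun x hx => hx.1, ?_⟩
  have hPc' : (hP.toFinset.card : ℤ) = (q : ℤ) ^ 2 + q + 1 := by
    rw [← Set.ncard_eq_toFinset_card _ hP, hPc]
    push_cast
    ring
  have hLc' : (hL.toFinset.card : ℤ) = (q : ℤ) ^ 2 + q + 1 := by
    rw [← Set.ncard_eq_toFinset_card _ hL, hLc]
    push_cast
    ring
  have hFc' : (hF.toFinset.card : ℤ) = ((q : ℤ) ^ 2 + q + 1) * (q + 1) := by
    rw [← Set.ncard_eq_toFinset_card _ hF, hFc]
    push_cast
    ring
  rw [CNT_gen hE]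
  have h1 : ∀ x ∈ hE.toFinset, (if Stable x then (1 : ℤ) else 0) =
      1 - (∑ U ∈ hP.toFinset, if Hvy x U then (1 : ℤ) else 0)
        - (∑ L ∈ hL.toFinset, if Hvy x L then (1 : ℤ) else 0)
        + (∑ F ∈ hF.toFinset, if Hvy x F.1 ∧ Hvy x F.2 then (1 : ℤ) else 0) := by
    intro x hx
    have hx' : x ∈ EConf Ω q τ := by simpa using hx
    have g1 := CNT_gen hP (fun U => Hvy x U)
    have g2 := CNT_gen hL (fun U => Hvy x U)
    have g3 : ({F : Submodule Ω (Fin 3 → Ω) × Submodule Ω (Fin 3 → Ω) |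
            (F.1 ∈ RPts Ω q ∧ F.2 ∈ RLns Ω q ∧ F.1 ≤ F.2) ∧ Hvy x F.1 ∧ Hvy x F.2}.ncard : ℤ) =
        ∑ F ∈ hF.toFinset, if Hvy x F.1 ∧ Hvy x F.2 then (1 : ℤ) else 0 := by
      refine (CNT_gen hF (fun F => Hvy x F.1 ∧ Hvy x F.2)).trans
        (Finset.sum_congr rfl fun F _ => CNT_ite _ _ Iff.rfl)
    rw [incl_excl hq h3 hx', g1, g2, g3]
  rw [Finset.sum_congr rfl h1, Finset.sum_add_distrib, Finset.sum_sub_distrib,
    Finset.sum_sub_distrib]
  rw [Finset.sum_comm (s := hE.toFinset) (t := hP.toFinset),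
    Finset.sum_comm (s := hE.toFinset) (t := hL.toFinset),
    Finset.sum_comm (s := hE.toFinset) (t := hF.toFinset)]
  have e0 : (∑ x ∈ hE.toFinset, (1 : ℤ)) = ∑ s ∈ Inv τ, (q : ℤ) ^ (cnt s 1 + 2 * cnt s 2) := by
    have h := CNT_fl hq τ hU₀ hL₀ hUL₀ (fun _ _ => True) hE
    simpa using h
  have e1 : ∀ U ∈ hP.toFinset, (∑ x ∈ hE.toFinset, if Hvy x U then (1 : ℤ) else 0) =
      ∑ s ∈ Inv τ, (q : ℤ) ^ (cnt s 1 + 2 * cnt s 2) *
        (if Fintype.card R < 3 * cnt s 0 then 1 else 0) := by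
    intro U hU
    have hU' : U ∈ RPts Ω q := by simpa using hU
    obtain ⟨L, hLL, hUL⟩ := exists_line_above hq hU'
    refine Eq.trans (Finset.sum_congr rfl fun x _ => ?_)
      ((CNT_fl hq τ hU' hLL hUL (fun a _ => Fintype.card R < 3 * a) hE).trans
        (Finset.sum_congr rfl fun s _ => congrArg _ (CNT_ite _ _ Iff.rfl)))
    refine CNT_ite _ _ ?_
    unfold Hvy
    rw [hU'.2, mul_one, Nat.card_eq_fintype_card]
  have e2 : ∀ L ∈ hL.toFinset, (∑ x ∈ hE.toFinset, if Hvy x L then (1 : ℤ) else 0) =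
      ∑ s ∈ Inv τ, (q : ℤ) ^ (cnt s 1 + 2 * cnt s 2) *
        (if Fintype.card R * 2 < 3 * (cnt s 0 + cnt s 1) then 1 else 0) := by
    intro L hLL
    have hL' : L ∈ RLns Ω q := by simpa using hLL
    obtain ⟨U, hUU, hUL⟩ := exists_point_below hq hL'
    refine Eq.trans (Finset.sum_congr rfl fun x _ => ?_)
      ((CNT_fl hq τ hUU hL' hUL (fun _ b => Fintype.card R * 2 < 3 * b) hE).trans
        (Finset.sum_congr rfl fun s _ => congrArg _ (CNT_ite _ _ Iff.rfl)))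
    refine CNT_ite _ _ ?_
    unfold Hvy
    rw [hL'.2, Nat.card_eq_fintype_card]
  have e3 : ∀ F ∈ hF.toFinset,
      (∑ x ∈ hE.toFinset, if Hvy x F.1 ∧ Hvy x F.2 then (1 : ℤ) else 0) =
      ∑ s ∈ Inv τ, (q : ℤ) ^ (cnt s 1 + 2 * cnt s 2) *
        (if Fintype.card R < 3 * cnt s 0 ∧ Fintype.card R * 2 < 3 * (cnt s 0 + cnt s 1)
          then 1 else 0) := by
    intro F hFF
    have hF' : F.1 ∈ RPts Ω q ∧ F.2 ∈ RLns Ω q ∧ F.1 ≤ F.2 := by simpa using hFF
    refine Eq.trans (Finset.sum_congr rfl fun x _ => ?_)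
      ((CNT_fl hq τ hF'.1 hF'.2.1 hF'.2.2
        (fun a b => Fintype.card R < 3 * a ∧ Fintype.card R * 2 < 3 * b) hE).trans
        (Finset.sum_congr rfl fun s _ => congrArg _ (CNT_ite _ _ Iff.rfl)))
    refine CNT_ite _ _ ?_
    unfold Hvy
    rw [hF'.1.2, hF'.2.1.2, mul_one, Nat.card_eq_fintype_card]
  rw [e0, Finset.sum_congr rfl e1, Finset.sum_congr rfl e2, Finset.sum_congr rfl e3,
    Finset.sum_const, Finset.sum_const, Finset.sum_const, nsmul_eq_mul, nsmul_eq_mul, nsmul_eq_mul,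
    hPc', hLc', hFc', Finset.mul_sum, Finset.mul_sum, Finset.mul_sum, ← Finset.sum_sub_distrib,
    ← Finset.sum_sub_distrib, ← Finset.sum_add_distrib]
  unfold numP
  rw [eval_finsetSum]
  refine Finset.sum_congr rfl fun s _ => ?_
  have hc := cnt_sum s
  rw [eval_mul, eval_pow, eval_X]
  unfold wt
  have h4 : (Fintype.card R * 2 < 3 * (cnt s 0 + cnt s 1)) ↔ (3 * cnt s 2 < Fintype.card R) := by
    omega
  by_cases ha : Fintype.card R < 3 * cnt s 0 <;> by_cases hb : 3 * cnt s 2 < Fintype.card R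
  · simp only [h4, ha, hb, if_true, and_self, eval_pow, eval_X]
    ring
  · simp only [h4, ha, hb, if_true, if_false, and_false, eval_sub, eval_neg, eval_pow, eval_X]
    ring
  · simp only [h4, ha, hb, if_true, if_false, false_and, eval_sub, eval_neg, eval_pow, eval_X]
    ring
  · simp only [h4, ha, hb, if_false, and_self, eval_one]
    ring

end Pool.Agent.PPL
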