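import Mathlib
import Pool.Agent.PPL.ARI

/-! # The coefficients of the quotient polynomial

Let `p j = pz j` for `j ≥ 0`. In `ℤ⟦X⟧` (or by strong induction on `k` with the recursion)
`∑ p j X ^ j` is inverse to `(1 - X ^ 2) * (1 - X ^ 3) = (X ^ 2 - 1) * (X ^ 3 - 1)` by `pz_rec`. Hence
`N.coeff k = ∑ j ∈ range (k + 1), pz j * (numP τ).coeff (k - j + 3)`.
The coefficient of degree `k - j + 3` of the summand `X ^ (b + 2 c) * wt s` of `numP τ` is
- `1` if `k - j + 3 = b + 2 c + 3`, else `0`, if `n < 3 a` and `3 c < n`: contribution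
`pz (k - b - 2 c)`;
- `-1` if `k - j + 3` is `b + 2 c + 1` or `b + 2 c + 2` in the mixed cases: contribution
`- (pz (k + 2 - b - 2 c) + pz (k + 1 - b - 2 c)) = - gz (k + 2 - b - 2 c)` (`gz_eq`; here
`b + 2 c ≥ 2`, because `n ≥ 4`: if `n < 3 a` and `3 c ≥ n` then `c ≥ 2`; if `3 a < n` and `3 c < n` then
`3 b > n`, so `b ≥ 2`);
- `1` if `k - j + 3 = b + 2 c` in the last case: contribution `pz (k + 3 - b - 2 c)`
(`b + 2 c = n - a + c ≥ 3`).
Here `a = cnt s 0`, `b = cnt s 1`, `c = cnt s 2`, `a + b + c = n = card R` (`cnt_sum'`). -/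

noncomputable section

namespace Pool.Agent.PPL

open Polynomial
open scoped Classical

variable {R : Type} [Fintype R]

lemma cnt_sum' (s : R → Fin 3) : cnt s 0 + cnt s 1 + cnt s 2 = Fintype.card R := by
  have h := Finset.card_eq_sum_card_fiberwise (f := s) (s := Finset.univ) (t := Finset.univ)
    (fun _ _ => Finset.mem_univ _)
  rw [Fin.sum_univ_three, Finset.card_univ] at h
  exact h.symm

/-- the generating function of `pz` -/
private def COE_Z : PowerSeries ℤ := PowerSeries.mk fun j => pz j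

private lemma COE_shift (n d : ℕ) :
    (if d ≤ n then pz ((n - d : ℕ) : ℤ) else 0) = pz ((n : ℤ) - d) := by
  split_ifs with h
  · rw [Nat.cast_sub h]
  · unfold pz
    rw [if_pos (by omega)]

private lemma COE_Z_mul :
    COE_Z * ((PowerSeries.X ^ 2 - 1) * (PowerSeries.X ^ 3 - 1)) = 1 := by
  have h : COE_Z * ((PowerSeries.X ^ 2 - 1) * (PowerSeries.X ^ 3 - 1)) =
      COE_Z - COE_Z * PowerSeries.X ^ 2 - COE_Z * PowerSeries.X ^ 3 + COE_Z * PowerSeries.X ^ 5 := by
    ring
  rw [h]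
  ext n
  rw [map_add, map_sub, map_sub, PowerSeries.coeff_mul_X_pow', PowerSeries.coeff_mul_X_pow',
    PowerSeries.coeff_mul_X_pow', PowerSeries.coeff_one]
  simp only [COE_Z, PowerSeries.coeff_mk]
  rw [COE_shift, COE_shift, COE_shift]
  have := pz_rec (n : ℤ)
  push_cast
  rw [this]
  by_cases hn : n = 0
  · rw [if_pos hn, if_pos (by omega)]
  · rw [if_neg hn, if_neg (by omega)]

theorem coeff_eq (N P : ℤ[X]) (h : P = X ^ 3 * ((X ^ 2 - 1) * (X ^ 3 - 1)) * N) (k : ℕ) :
    N.coeff k = ∑ j ∈ Finset.range (k + 1), pz j * P.coeff (k - j + 3) := by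
  have h1 : ∀ m, P.coeff (m + 3) = (((X ^ 2 - 1) * (X ^ 3 - 1)) * N : ℤ[X]).coeff m := by
    intro m
    rw [h, mul_assoc, Polynomial.coeff_X_pow_mul]
  have h2 : (N : PowerSeries ℤ) = COE_Z * (((X ^ 2 - 1) * (X ^ 3 - 1)) * N : ℤ[X]) := by
    rw [Polynomial.coe_mul, Polynomial.coe_mul, Polynomial.coe_sub, Polynomial.coe_sub,
      Polynomial.coe_pow, Polynomial.coe_pow, Polynomial.coe_X, Polynomial.coe_one, ← mul_assoc,
      COE_Z_mul, one_mul]
  rw [← Polynomial.coeff_coe, h2, PowerSeries.coeff_mul,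
    Finset.Nat.sum_antidiagonal_eq_sum_range_succ
      (fun i j => PowerSeries.coeff i COE_Z * PowerSeries.coeff j
        ((((X ^ 2 - 1) * (X ^ 3 - 1)) * N : ℤ[X]) : PowerSeries ℤ)) k]
  refine Finset.sum_congr rfl fun j _ => ?_
  rw [Polynomial.coeff_coe, h1]
  simp only [COE_Z, PowerSeries.coeff_mk]

private lemma COE_mono (k e : ℕ) (he : 3 ≤ e) :
    ∑ j ∈ Finset.range (k + 1), pz j * (X ^ e : ℤ[X]).coeff (k - j + 3) = pz ((k : ℤ) + 3 - e) := by
  by_cases h : e ≤ k + 3
  · rw [Finset.sum_eq_single_of_mem (k + 3 - e) (Finset.mem_range.mpr (by omega))]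
    · rw [Polynomial.coeff_X_pow, if_pos (by omega), mul_one, Nat.cast_sub h]
      push_cast
      rfl
    · intro j hj hne
      rw [Finset.mem_range] at hj
      rw [Polynomial.coeff_X_pow, if_neg (by omega), mul_zero]
  · rw [Finset.sum_eq_zero]
    · unfold pz
      rw [if_pos (by omega)]
    · intro j hj
      rw [Finset.mem_range] at hj
      rw [Polynomial.coeff_X_pow, if_neg (by omega), mul_zero]

private lemma COE_two (k e : ℕ) (he : 2 ≤ e) :
    ∑ j ∈ Finset.range (k + 1), pz j * (X ^ e * (-X - X ^ 2) : ℤ[X]).coeff (k - j + 3) =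
      -gz ((k : ℤ) + 2 - e) := by
  have h1 : (X ^ e * (-X - X ^ 2) : ℤ[X]) = -X ^ (e + 1) - X ^ (e + 2) := by ring
  simp only [h1, Polynomial.coeff_sub, Polynomial.coeff_neg, mul_sub, mul_neg,
    Finset.sum_sub_distrib, Finset.sum_neg_distrib]
  rw [COE_mono k (e + 1) (by omega), COE_mono k (e + 2) (by omega), ← gz_eq]
  push_cast
  rw [show (k : ℤ) + 3 - (e + 1) = k + 2 - e by ring, show (k : ℤ) + 3 - (e + 2) = k + 2 - e - 1 by ring]
  ring

theorem coeff_kap (h3 : ¬ 3 ∣ Fintype.card R) (h4 : 4 ≤ Fintype.card R) (τ : Equiv.Perm R)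
    {N : ℤ[X]} (hN : numP τ = X ^ 3 * ((X ^ 2 - 1) * (X ^ 3 - 1)) * N) (k : ℕ) :
    N.coeff k = ∑ s ∈ Inv τ, kap (Fintype.card R) k (cnt s 0) (cnt s 1) (cnt s 2) := by
  rw [coeff_eq N _ hN k]
  simp only [numP, Polynomial.finsetSum_coeff, Finset.mul_sum]
  rw [Finset.sum_comm]
  refine Finset.sum_congr rfl fun s _ => ?_
  have hs := cnt_sum' s
  unfold wt kap
  generalize cnt s 0 = a at *
  generalize cnt s 1 = b at *
  generalize cnt s 2 = c at *
  generalize Fintype.card R = n at *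
  by_cases h1 : n < 3 * a
  · by_cases h2 : 3 * c < n
    · rw [if_pos h1, if_pos h2, if_pos h1, if_pos h2, ← pow_add, COE_mono k _ (by omega)]
      congr 1
      push_cast
      ring
    · rw [if_pos h1, if_neg h2, if_pos h1, if_neg h2, COE_two k _ (by omega)]
      congr 2
      push_cast
      ring
  · by_cases h2 : 3 * c < n
    · rw [if_neg h1, if_pos h2, if_neg h1, if_pos h2, COE_two k _ (by omega)]
      congr 2
      push_cast
      ring
    · rw [if_neg h1, if_neg h2, if_neg h1, if_neg h2, mul_one, COE_mono k _ (by omega)]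
      congr 1
      push_cast
      ring

end Pool.Agent.PPL
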