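import Mathlib
import Pool.Agent.PPL.ARI

/-! # The permutation characters of the invariant ordered partitions

* `T_swap01`, `T_swap12`: compose `s` with a transposition of `Fin 3` (`Finset.card_bij` or
`Finset.card_nbij'`); the set `Inv τ` is preserved and `cnt (f ∘ s) j = cnt s (f⁻¹ j)`.
* `T_srt`: all permutations are generated by the two transpositions; `srt x y z` is one of the six
rearrangements (`rcases le_total`, `simp [srt]`, `omega`).
* `isSP_T`: `Equiv.Perm R` acts on the functions `s : R → Fin 3` by `(g • s) i = s (g⁻¹ i)`, and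
`g • s = s` means `s (g i) = s i` for all `i`. Use `IsSP.natCard_pred` of `Pool.Agent.Mbar.SSet` with
`P s` the condition on the sizes of the parts; the action has to be given by hand
(`MulAction (Equiv.Perm R) (R → Fin 3)` with `smul g s = s ∘ g.symm`), as in `IsSP.natCard_pred`. -/

noncomputable section

namespace Pool.Agent.PPL

open scoped Classical
open Pool.Agent.Mbar (SSet IsSP)

variable {R : Type} [Fintype R]

private lemma TSP_cnt (f : Equiv.Perm (Fin 3)) (s : R → Fin 3) (j : Fin 3) :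
    cnt (fun i => f (s i)) j = cnt s (f.symm j) := by
  unfold cnt
  congr 1
  ext i
  simp only [Finset.mem_filter, Finset.mem_univ, true_and]
  exact (Equiv.eq_symm_apply f).symm

private lemma TSP_inv (f : Equiv.Perm (Fin 3)) {τ : Equiv.Perm R} {s : R → Fin 3} (hs : s ∈ Inv τ) :
    (fun i => f (s i)) ∈ Inv τ := by
  unfold Inv at hs ⊢
  rw [Finset.mem_filter] at hs ⊢
  refine ⟨Finset.mem_univ _, fun i => ?_⟩
  change f (s (τ i)) = f (s i)
  rw [hs.2 i]

private lemma TSP_swap (f : Equiv.Perm (Fin 3)) (hf : ∀ j, f (f j) = j) (τ : Equiv.Perm R) (x y z x' y' z' : ℕ)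
    (h : ∀ s : R → Fin 3, (cnt s 0 = x ∧ cnt s 1 = y ∧ cnt s 2 = z) ↔
      (cnt s (f 0) = x' ∧ cnt s (f 1) = y' ∧ cnt s (f 2) = z')) :
    T τ x y z = T τ x' y' z' := by
  have hsy : ∀ j, f.symm j = f j := fun j => by rw [Equiv.symm_apply_eq, hf]
  unfold T
  refine Finset.card_nbij' (fun s i => f (s i)) (fun s i => f (s i)) ?_ ?_ ?_ ?_
  · intro s hs
    rw [Finset.mem_coe, Finset.mem_filter] at hs ⊢
    refine ⟨TSP_inv f hs.1, ?_⟩
    rw [TSP_cnt, TSP_cnt, TSP_cnt, hsy, hsy, hsy]
    exact (h s).1 hs.2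
  · intro s hs
    rw [Finset.mem_coe, Finset.mem_filter] at hs ⊢
    refine ⟨TSP_inv f hs.1, (h _).2 ?_⟩
    rw [TSP_cnt, TSP_cnt, TSP_cnt, hsy, hsy, hsy, hf, hf, hf]
    exact hs.2
  · intro s _
    funext i
    exact hf (s i)
  · intro s _
    funext i
    exact hf (s i)

theorem T_swap01 (τ : Equiv.Perm R) (x y z : ℕ) : T τ x y z = T τ y x z := by
  refine TSP_swap (Equiv.swap 0 1) (fun j => Equiv.swap_apply_self 0 1 j) τ x y z y x z fun s => ?_
  have h0 : Equiv.swap (0 : Fin 3) 1 0 = 1 := by decide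
  have h1 : Equiv.swap (0 : Fin 3) 1 1 = 0 := by decide
  have h2 : Equiv.swap (0 : Fin 3) 1 2 = 2 := by decide
  rw [h0, h1, h2]
  tauto

theorem T_swap12 (τ : Equiv.Perm R) (x y z : ℕ) : T τ x y z = T τ x z y := by
  refine TSP_swap (Equiv.swap 1 2) (fun j => Equiv.swap_apply_self 1 2 j) τ x y z x z y fun s => ?_
  have h0 : Equiv.swap (1 : Fin 3) 2 0 = 0 := by decide
  have h1 : Equiv.swap (1 : Fin 3) 2 1 = 2 := by decide
  have h2 : Equiv.swap (1 : Fin 3) 2 2 = 1 := by decide
  rw [h0, h1, h2]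
  tauto

private lemma TSP_srt {x y z a b c : ℕ} (h1 : max x (max y z) = a)
    (h2 : min x (min y z) = c) (h3 : x + y + z - a - c = b) : srt x y z = (a, b, c) := by
  unfold srt
  rw [h1, h2, h3]

theorem T_srt (τ : Equiv.Perm R) (x y z : ℕ) :
    T τ x y z = T τ (srt x y z).1 (srt x y z).2.1 (srt x y z).2.2 := by
  rcases le_total x y with hxy | hxy <;> rcases le_total y z with hyz | hyz <;> rcases le_total x z with hxz | hxz
  · rw [TSP_srt (a := z) (b := y) (c := x) (by omega) (by omega) (by omega)]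
    change T τ x y z = T τ z y x
    rw [T_swap01 τ x y z, T_swap12 τ y x z, T_swap01 τ y z x]
  · rw [TSP_srt (a := z) (b := y) (c := x) (by omega) (by omega) (by omega)]
    change T τ x y z = T τ z y x
    rw [T_swap01 τ x y z, T_swap12 τ y x z, T_swap01 τ y z x]
  · rw [TSP_srt (a := y) (b := z) (c := x) (by omega) (by omega) (by omega)]
    change T τ x y z = T τ y z x
    rw [T_swap01 τ x y z, T_swap12 τ y x z]
  · rw [TSP_srt (a := y) (b := x) (c := z) (by omega) (by omega) (by omega)]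
    change T τ x y z = T τ y x z
    rw [T_swap01 τ x y z]
  · rw [TSP_srt (a := z) (b := x) (c := y) (by omega) (by omega) (by omega)]
    change T τ x y z = T τ z x y
    rw [T_swap12 τ x y z, T_swap01 τ x z y]
  · rw [TSP_srt (a := x) (b := z) (c := y) (by omega) (by omega) (by omega)]
    change T τ x y z = T τ x z y
    rw [T_swap12 τ x y z]
  · rw [TSP_srt (a := x) (b := y) (c := z) (by omega) (by omega) (by omega)]
  · rw [TSP_srt (a := x) (b := y) (c := z) (by omega) (by omega) (by omega)]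

private lemma TSP_cnt_perm (g : Equiv.Perm R) (s : R → Fin 3) (j : Fin 3) :
    cnt (fun i => s (g.symm i)) j = cnt s j := by
  unfold cnt
  refine Finset.card_nbij' (fun i => g.symm i) (fun i => g i) ?_ ?_ ?_ ?_
  · intro i hi
    rw [Finset.mem_coe, Finset.mem_filter] at hi ⊢
    exact ⟨Finset.mem_univ _, hi.2⟩
  · intro i hi
    rw [Finset.mem_coe, Finset.mem_filter] at hi ⊢
    refine ⟨Finset.mem_univ _, ?_⟩
    change s (g.symm (g i)) = j
    rw [Equiv.symm_apply_apply]
    exact hi.2
  · intro i _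
    exact Equiv.apply_symm_apply g i
  · intro i _
    exact Equiv.symm_apply_apply g i

theorem isSP_T (x y z : ℕ) : IsSP (fun τ : Equiv.Perm R => (T τ x y z : ℤ)) := by
  let act : MulAction (Equiv.Perm R) (R → Fin 3) :=
    { smul := fun g s i => s (g.symm i)
      one_smul := fun s => rfl
      mul_smul := fun g h s => rfl }
  have h1 : IsSP (fun g : Equiv.Perm R => (Nat.card {s : R → Fin 3 //
      (cnt s 0 = x ∧ cnt s 1 = y ∧ cnt s 2 = z) ∧ g • s = s} : ℤ)) := by
    refine IsSP.natCard_pred (G := Equiv.Perm R) (R → Fin 3) (fun s => cnt s 0 = x ∧ cnt s 1 = y ∧ cnt s 2 = z) ?_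
    intro g s hs
    change cnt (fun i => s (g.symm i)) 0 = x ∧ cnt (fun i => s (g.symm i)) 1 = y ∧ cnt (fun i => s (g.symm i)) 2 = z
    rw [TSP_cnt_perm, TSP_cnt_perm, TSP_cnt_perm]
    exact hs
  refine h1.congr fun τ => ?_
  norm_cast
  unfold T
  rw [Nat.card_eq_fintype_card, Fintype.card_subtype]
  congr 1
  ext s
  rw [Finset.mem_filter, Finset.mem_filter]
  have h2 : s ∈ Inv τ ↔ τ • s = s := by
    unfold Inv
    rw [Finset.mem_filter]
    constructor
    · rintro ⟨-, h⟩
      funext i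
      change s (τ.symm i) = s i
      rw [← h (τ.symm i), Equiv.apply_symm_apply]
    · intro h
      refine ⟨Finset.mem_univ _, fun i => ?_⟩
      have h3 := congrFun h (τ i)
      change s (τ.symm (τ i)) = s (τ i) at h3
      rw [Equiv.symm_apply_apply] at h3
      exact h3.symm
  rw [h2]
  constructor
  · rintro ⟨h3, h4⟩
    exact ⟨Finset.mem_univ _, h4, h3⟩
  · rintro ⟨-, h4, h3⟩
    exact ⟨h3, h4⟩

end Pool.Agent.PPL
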