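import Mathlib
import Pool.Agent.Mbar.TPL
import Pool.Agent.Mbar.SSet

/-! # The twisted product lemma with an integer weight

Copy the proof of `Mbar.tpl` (`Pool/Agent/Mbar/TPL.lean`): all auxiliary lemmas of the namespace `TPL` can be
used; only the last part has to be cast to `ℤ` (`Fintype.card_piFinset`, `Nat.cast_prod`,
`Finset.prod_univ_sum`, `Finset.prod_pow_eq_pow_sum`). -/

noncomputable section

namespace Pool.Agent.PPL

open scoped Classical
open Pool.Agent.Mbar (SSet IsSP)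

/-- the twisted product lemma with an integer weight -/
theorem tplZ {B X Y : Type} [Fintype B] (σ : Equiv.Perm B) (T : Equiv.Perm X)
    (T' : Equiv.Perm Y) (A : B → Set X) (A' : B → Finset Y) (dg : Y → ℕ) (q : ℤ)
    (hA : ∀ b x, T x ∈ A (σ b) ↔ x ∈ A b) (hA' : ∀ b y, T' y ∈ A' (σ b) ↔ y ∈ A' b)
    (hdg : ∀ y, dg (T' y) = dg y)
    (h : ∀ b d, 1 ≤ d → (σ ^ d) b = b → {x | x ∈ A b ∧ (T ^ d) x = x}.Finite ∧
      ({x | x ∈ A b ∧ (T ^ d) x = x}.ncard : ℤ) =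
        ∑ y ∈ A' b, if (T' ^ d) y = y then q ^ (d * dg y) else 0) :
    {s : B → X | (∀ b, s b ∈ A b) ∧ ∀ b, s (σ b) = T (s b)}.Finite ∧
    ({s : B → X | (∀ b, s b ∈ A b) ∧ ∀ b, s (σ b) = T (s b)}.ncard : ℤ) =
      ∑ s ∈ Fintype.piFinset A', if ∀ b, s (σ b) = T' (s b) then q ^ (∑ b, dg (s b)) else 0 := by
  have hh := fun o : Mbar.TPL.Q σ => h (Mbar.TPL.rep σ o) (Mbar.TPL.len σ o) (Mbar.TPL.len_pos σ o) (Mbar.TPL.pow_len σ o)
  set F : Mbar.TPL.Q σ → Finset X := fun o => (hh o).1.toFinset with hF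
  have hFm : ∀ o x, x ∈ F o ↔ x ∈ A (Mbar.TPL.rep σ o) ∧ (T ^ Mbar.TPL.len σ o) x = x := by
    intro o x
    rw [hF]
    simp only [Set.Finite.mem_toFinset, Set.mem_ofPred_eq]
  have hset : {s : B → X | (∀ b, s b ∈ A b) ∧ ∀ b, s (σ b) = T (s b)} =
      (((Fintype.piFinset F).image (Mbar.TPL.bwd σ T) : Finset (B → X)) : Set (B → X)) := by
    ext s
    rw [Set.mem_ofPred_eq, Finset.mem_coe, Finset.mem_image]
    constructor
    · rintro ⟨h1, h2⟩
      refine ⟨Mbar.TPL.fwd σ s, ?_, Mbar.TPL.bwd_fwd σ h2⟩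
      rw [Fintype.mem_piFinset]
      intro o
      rw [hFm]
      exact ⟨h1 _, Mbar.TPL.fwd_per σ h2 o⟩
    · rintro ⟨y, hy, rfl⟩
      rw [Fintype.mem_piFinset] at hy
      exact ⟨Mbar.TPL.bwd_mem σ hA (fun o => ((hFm o _).1 (hy o)).1),
        Mbar.TPL.bwd_equi σ (fun o => ((hFm o _).1 (hy o)).2)⟩
  rw [hset]
  refine ⟨Finset.finite_toSet _, ?_⟩
  rw [Set.ncard_coe_finset, Finset.card_image_of_injOn, Fintype.card_piFinset, Nat.cast_prod]
  · have h1 : ∀ o : Mbar.TPL.Q σ, ((F o).card : ℤ) = ∑ y ∈ (A' (Mbar.TPL.rep σ o)).filter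
        (fun y => (T' ^ Mbar.TPL.len σ o) y = y), q ^ (Mbar.TPL.len σ o * dg y) := by
      intro o
      rw [Finset.sum_filter, ← (hh o).2, hF]
      exact congrArg Nat.cast (Set.ncard_eq_toFinset_card _ (hh o).1).symm
    rw [Finset.prod_congr rfl (fun o _ => h1 o), Finset.prod_univ_sum, ← Finset.sum_filter]
    refine Finset.sum_bij' (fun y _ => Mbar.TPL.bwd σ T' y) (fun s _ => Mbar.TPL.fwd σ s) ?_ ?_ ?_ ?_ ?_
    · intro y hy
      rw [Fintype.mem_piFinset] at hy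
      rw [Finset.mem_filter, Fintype.mem_piFinset]
      have h2 : ∀ o, (T' ^ Mbar.TPL.len σ o) (y o) = y o := fun o => (Finset.mem_filter.1 (hy o)).2
      exact ⟨Mbar.TPL.bwd_mem (A := fun b => ((A' b : Finset Y) : Set Y)) σ hA'
        (fun o => (Finset.mem_filter.1 (hy o)).1), Mbar.TPL.bwd_equi σ h2⟩
    · intro s hs
      rw [Finset.mem_filter, Fintype.mem_piFinset] at hs
      rw [Fintype.mem_piFinset]
      intro o
      rw [Finset.mem_filter]
      exact ⟨hs.1 _, Mbar.TPL.fwd_per σ hs.2 o⟩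
    · intro y hy
      rw [Fintype.mem_piFinset] at hy
      exact Mbar.TPL.fwd_bwd σ (fun o => (Finset.mem_filter.1 (hy o)).2)
    · intro s hs
      exact Mbar.TPL.bwd_fwd σ (Finset.mem_filter.1 hs).2
    · intro y hy
      rw [Fintype.mem_piFinset] at hy
      have h2 : ∀ o, (T' ^ Mbar.TPL.len σ o) (y o) = y o := fun o => (Finset.mem_filter.1 (hy o)).2
      rw [Mbar.TPL.sum_deg σ hdg (Mbar.TPL.bwd_equi σ h2), Mbar.TPL.fwd_bwd σ h2, Finset.prod_pow_eq_pow_sum]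
  · intro y hy y' hy' hyy
    rw [Finset.mem_coe, Fintype.mem_piFinset] at hy hy'
    rw [← Mbar.TPL.fwd_bwd σ (fun o => ((hFm o _).1 (hy o)).2),
      ← Mbar.TPL.fwd_bwd σ (fun o => ((hFm o _).1 (hy' o)).2)]
    exact congrArg (Mbar.TPL.fwd σ) hyy

end Pool.Agent.PPL
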