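import Mathlib
import Pool.Agent.Mbar.SSet

noncomputable section

namespace Pool.Agent.PPL

open scoped Classical
open Pool.Agent.Mbar (SSet IsSP)

/-- free involutions give permutation characters -/
theorem isSP_quot {G : Type} [Group G] (Z : Type) [Finite Z] [MulAction G Z] (ι : Z → Z)
    (hι : ∀ z, ι (ι z) = z) (hfree : ∀ z, ι z ≠ z) (hg : ∀ (g : G) z, g • ι z = ι (g • z))
    (t : G → ℤ)
    (ht : ∀ g, 2 * t g = (Nat.card {z : Z // g • z = z} : ℤ) + Nat.card {z : Z // g • z = ι z}) :
    IsSP t := by
  let s : Setoid Z :=
    { r := fun z w => w = z ∨ w = ι z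
      iseqv := by
        refine ⟨fun z => Or.inl rfl, ?_, ?_⟩
        · rintro z w (h | h)
          · exact Or.inl h.symm
          · exact Or.inr (by rw [h, hι])
        · rintro z w u (h | h) (h' | h')
          · exact Or.inl (by rw [h', h])
          · exact Or.inr (by rw [h', h])
          · exact Or.inr (by rw [h', h])
          · exact Or.inl (by rw [h', h, hι]) }
  have hs : ∀ z w : Z, (Quotient.mk s z = Quotient.mk s w) ↔ (w = z ∨ w = ι z) := by
    intro z w
    rw [Quotient.eq]
    rfl
  let act : MulAction G (Quotient s) :=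
    { smul := fun g => Quotient.map (fun z => g • z) (by
        rintro z w (h | h)
        · exact Or.inl (by rw [h])
        · exact Or.inr (by rw [h, hg]))
      one_smul := by
        intro b
        induction b using Quotient.inductionOn with | _ z
        exact congrArg (Quotient.mk s) (one_smul G z)
      mul_smul := by
        intro g h b
        induction b using Quotient.inductionOn with | _ z
        exact congrArg (Quotient.mk s) (mul_smul g h z) }
  have hact : ∀ (g : G) (z : Z), g • (Quotient.mk s z) = Quotient.mk s (g • z) := fun g z => rfl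
  have hfix : ∀ (g : G) (z : Z), g • Quotient.mk s z = Quotient.mk s z ↔
      (g • z = z ∨ g • z = ι z) := by
    intro g z
    rw [hact, eq_comm, hs]
  refine (IsSP.natCard (G := G) (Quotient s)).congr fun g => ?_
  have h1 : Nat.card {z : Z // g • z = z ∨ g • z = ι z} =
      Nat.card {z : Z // g • z = z} + Nat.card {z : Z // g • z = ι z} := by
    rw [← Nat.card_sum]
    refine Nat.card_congr ⟨fun z => if h : g • z.1 = z.1 then Sum.inl ⟨z.1, h⟩ else
        Sum.inr ⟨z.1, z.2.resolve_left h⟩,
      Sum.elim (fun z => ⟨z.1, Or.inl z.2⟩) (fun z => ⟨z.1, Or.inr z.2⟩), ?_, ?_⟩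
    · rintro ⟨z, hz⟩
      by_cases h : g • z = z
      · simp [h]
      · simp [h]
    · rintro (⟨z, hz⟩ | ⟨z, hz⟩)
      · simp [hz]
      · have h : ¬ g • z = z := by rw [hz]; exact hfree z
        simp [h]
  have h2 : Nat.card {z : Z // g • z = z ∨ g • z = ι z} =
      Nat.card ({b : Quotient s // g • b = b} × Bool) := by
    have hout : ∀ b : Quotient s, Quotient.mk s b.out = b := fun b => Quotient.out_eq b
    refine (Nat.card_congr (Equiv.ofBijective
      (fun x : {b : Quotient s // g • b = b} × Bool =>
        (if x.2 then (⟨x.1.1.out, (hfix g _).mp (by rw [hout]; exact x.1.2)⟩ :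
            {z : Z // g • z = z ∨ g • z = ι z})
          else ⟨ι x.1.1.out, by
            have h := (hfix g x.1.1.out).mp (by rw [hout]; exact x.1.2)
            rcases h with h | h
            · exact Or.inl (by rw [hg, h])
            · exact Or.inr (by rw [hg, h])⟩)) ⟨?_, ?_⟩)).symm
    · rintro ⟨⟨b, hb⟩, c⟩ ⟨⟨b', hb'⟩, c'⟩ h
      have h' := congrArg Subtype.val h
      cases c <;> cases c' <;> simp only [if_true, if_false, Bool.false_eq_true] at h'
      · have h3 : b.out = b'.out := by rw [← hι b.out, h', hι]
        have h4 : b = b' := by rw [← hout b, h3, hout]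
        subst h4
        rfl
      · exfalso
        have h4 : b = b' := by rw [← hout b, ← hout b', hs]; exact Or.inr h'.symm
        subst h4
        exact hfree _ h'
      · exfalso
        have h4 : b' = b := by rw [← hout b, ← hout b', hs]; exact Or.inr h'
        subst h4
        exact hfree _ h'.symm
      · have h4 : b = b' := by rw [← hout b, h', hout]
        subst h4
        rfl
    · rintro ⟨z, hz⟩
      have h3 : Quotient.mk s z = Quotient.mk s (Quotient.mk s z).out := (hout _).symm
      rcases (hs _ _).mp h3 with h | h
      · refine ⟨(⟨Quotient.mk s z, (hfix g z).mpr hz⟩, true), Subtype.ext ?_⟩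
        simpa using h
      · refine ⟨(⟨Quotient.mk s z, (hfix g z).mpr hz⟩, false), Subtype.ext ?_⟩
        simp only [if_false, Bool.false_eq_true]
        rw [h, hι]
  have h3 := ht g
  rw [Nat.card_prod, Nat.card_eq_fintype_card (α := Bool), Fintype.card_bool] at h2
  have h4 : (Nat.card {z : Z // g • z = z} : ℤ) + Nat.card {z : Z // g • z = ι z} =
      (Nat.card {b : Quotient s // g • b = b} : ℤ) * 2 := by
    exact_mod_cast h1.symm.trans h2
  linarith

end Pool.Agent.PPL
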