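import Mathlib
import Pool.Agent.PPL.TSP
import Pool.Agent.PPL.WRA
import Pool.Agent.PPL.WRB

/-! # The wreath product character

Let `a + 2 b = card R`, `b ≥ 1`. Let `Z` be the set of the functions `s : R → Fin 3` with
`cnt s 0 = a` and `cnt s 1 = cnt s 2 = b`, with the action `(g • s) i = s (g⁻¹ i)` of the
permutations and the free involution `ι s = (Equiv.swap 1 2) ∘ s`, which commutes with the action.

* `alt_sum`: for a permutation `τ`,
`∑ s ∈ Inv τ with cnt s 0 = a, (-1) ^ cnt s 1 = #{s | cnt s 0 = a, s (τ i) = ι (s i) for all i}`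
(for `a + 2 b = card R`; if `s (τ i) = ι (s i)` then `cnt s 1 = cnt s 2` is automatic).
Proof: for fixed `A = s⁻¹ {0}` (invariant under `τ` in both cases) both sides are products over the
cycles of `τ` outside `A` of `1 + (-1) ^ length` and of `#{y ∈ {1,2} | ι ^ length y = y}`, the same
number. The structure is that of `Mbar.tpl` with `q = -1`; `tplZ` is the version of `Mbar.tpl` with an
integer `q` (copy the proof of `tpl` from `Pool/Agent/Mbar/TPL.lean`, all auxiliary lemmas of the
namespace `TPL` can be used, and cast the cardinalities to `ℤ`). Apply it with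
`X = Y = Fin 3`, `T = swap 1 2`, `T' = 1`, `A b = {0}` for `b ∈ A` and `{1, 2}` otherwise, `dg y = 1` if `y = 1`
and `0` otherwise.
* Grouping the left side of `alt_sum` by `cnt s 1 = i`, `cnt s 2 = 2 b - i` it is
`∑ i ∈ range (2 b + 1), (-1) ^ i * T τ a i (2 b - i)
= (-1) ^ b * T τ a b b + 2 ∑ j = 1 .. b, (-1) ^ (b + j) * T τ a (b + j) (b - j)` (`T_swap12`).
So with `E τ = ∑ j ∈ range (b + 1), (-1) ^ j * T τ a (b + j) (b - j)`:
`2 * E τ = T τ a b b + (-1) ^ b * #{s ∈ Z | τ s = ι s}` (`two_E`).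
* If `b` is odd this is `(#Fix τ - #{s ∈ Z | τ s = ι s}) / 2` and `IsSP.invol` of
`Pool.Agent.Mbar.SSet` applies (`#Fix τ = T τ a b b`). If `b` is even it is
`(#Fix τ + #{s ∈ Z | τ s = ι s}) / 2`, the number of fixed points of `τ` on the quotient `Z / ι`
(`isSP_quot`, a permutation character: `IsSP.natCard` for the action on the quotient; as `ι` is free
each fixed class `{s, ι s}` has two elements, both fixed or both exchanged). -/

noncomputable section

namespace Pool.Agent.PPL

open scoped Classical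
open Pool.Agent.Mbar (SSet IsSP)

variable {R : Type} [Fintype R]

private def wreZ (s : R → Fin 3) : Finset R := Finset.univ.filter (fun i => s i = 0)

private lemma wre_card (s : R → Fin 3) : (wreZ s).card = cnt s 0 := rfl

private lemma wre_mem (s : R → Fin 3) (i : R) : i ∈ wreZ s ↔ s i = 0 := by
  simp [wreZ]

private lemma wre_swap0 (x : Fin 3) : Equiv.swap (1 : Fin 3) 2 x = 0 ↔ x = 0 := by
  revert x; decide

private lemma wre_pow (d : ℕ) (x : Fin 3) :
    ((Equiv.swap (1 : Fin 3) 2) ^ d) x = if d % 2 = 0 then x else Equiv.swap 1 2 x := by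
  induction d with
  | zero => simp
  | succ d ih =>
    rw [pow_succ', Equiv.Perm.mul_apply, ih]
    rcases Nat.mod_two_eq_zero_or_one d with h | h
    · rw [if_pos h, if_neg (by omega)]
    · rw [if_neg (by omega), if_pos (by omega)]
      exact Equiv.swap_apply_self _ _ _ 

private lemma wre_one (τ : Equiv.Perm R) (A : Finset R) (hA : ∀ i, τ i ∈ A ↔ i ∈ A) :
    ∑ s ∈ (Inv τ).filter (fun s => wreZ s = A), (-1 : ℤ) ^ cnt s 1 =
      (((Finset.univ.filter (fun s : R → Fin 3 => (∀ i, s (τ i) = Equiv.swap 1 2 (s i)) ∧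
        wreZ s = A)).card : ℕ) : ℤ) := by
  have key := tplZ τ (Equiv.swap (1 : Fin 3) 2) (1 : Equiv.Perm (Fin 3))
    (fun b => if b ∈ A then {0} else {1, 2}) (fun b => if b ∈ A then {0} else {1, 2})
    (fun y => if y = 1 then 1 else 0) (-1)
    (by
      intro b x
      by_cases h : b ∈ A
      · rw [if_pos ((hA b).2 h), if_pos h]
        simp only [Set.mem_singleton_iff]
        exact wre_swap0 x
      · rw [if_neg (fun h' => h ((hA b).1 h')), if_neg h]
        simp only [Set.mem_insert_iff, Set.mem_singleton_iff]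
        revert x; decide)
    (by
      intro b y
      by_cases h : b ∈ A
      · rw [if_pos ((hA b).2 h), if_pos h]; rfl
      · rw [if_neg (fun h' => h ((hA b).1 h')), if_neg h]; rfl)
    (fun y => rfl)
    (by
      intro b d hd hb
      refine ⟨Set.toFinite _, ?_⟩
      by_cases h : b ∈ A
      · simp only [if_pos h]
        have : {x : Fin 3 | x ∈ ({0} : Set (Fin 3)) ∧ (Equiv.swap (1 : Fin 3) 2 ^ d) x = x} = {0} := by
          ext x
          simp only [Set.mem_setOf_eq, Set.mem_singleton_iff, wre_pow]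
          constructor
          · exact fun h => h.1
          · rintro rfl
            refine ⟨rfl, ?_⟩
            split_ifs
            · rfl
            · decide
        rw [this]
        simp
      · simp only [if_neg h]
        rcases Nat.mod_two_eq_zero_or_one d with h2 | h2
        · have : {x : Fin 3 | x ∈ ({1, 2} : Set (Fin 3)) ∧ (Equiv.swap (1 : Fin 3) 2 ^ d) x = x} =
              {1, 2} := by
            ext x
            simp only [Set.mem_setOf_eq, Set.mem_insert_iff, Set.mem_singleton_iff, wre_pow, if_pos h2]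
            simp
          rw [this]
          rw [Set.ncard_pair (by decide)]
          rw [Finset.sum_pair (by decide)]
          simp [Even.neg_one_pow (Nat.even_iff.2 h2)]
        · have : {x : Fin 3 | x ∈ ({1, 2} : Set (Fin 3)) ∧ (Equiv.swap (1 : Fin 3) 2 ^ d) x = x} =
              ∅ := by
            ext x
            simp only [Set.mem_setOf_eq, Set.mem_insert_iff, Set.mem_singleton_iff, wre_pow,
              if_neg (show ¬ d % 2 = 0 by omega), Set.mem_empty_iff_false, iff_false]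
            revert x; decide
          rw [this]
          rw [Set.ncard_empty]
          rw [Finset.sum_pair (by decide)]
          simp [Odd.neg_one_pow (Nat.odd_iff.2 h2)])
  have h1 := key.2
  have e1 : {s : R → Fin 3 | (∀ b, s b ∈ (if b ∈ A then ({0} : Set (Fin 3)) else {1, 2})) ∧
      ∀ b, s (τ b) = Equiv.swap (1 : Fin 3) 2 (s b)} =
      ((Finset.univ.filter (fun s : R → Fin 3 => (∀ i, s (τ i) = Equiv.swap 1 2 (s i)) ∧
        wreZ s = A) : Finset (R → Fin 3)) : Set (R → Fin 3)) := by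
    ext s
    simp only [Set.mem_setOf_eq, Finset.coe_filter, Finset.mem_univ, true_and]
    have : (∀ b, s b ∈ (if b ∈ A then ({0} : Set (Fin 3)) else {1, 2})) ↔ wreZ s = A := by
      rw [Finset.ext_iff]
      refine forall_congr' fun b => ?_
      rw [wre_mem]
      by_cases h : b ∈ A
      · simp [h]
      · simp only [h, if_false, iff_false, Set.mem_insert_iff, Set.mem_singleton_iff]
        generalize s b = x
        revert x; decide
    rw [this, and_comm]
  rw [e1, Set.ncard_coe_finset] at h1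
  rw [h1]
  refine Eq.trans (b := ∑ s ∈ (Fintype.piFinset
      (fun b => if b ∈ A then ({0} : Finset (Fin 3)) else {1, 2})).filter
      (fun s : R → Fin 3 => ∀ b, s (τ b) = s b),
      (-1 : ℤ) ^ (∑ b, if s b = 1 then 1 else 0)) ?_ ?_
  on_goal 2 =>
    rw [Finset.sum_filter]
    refine Finset.sum_congr rfl fun s _ => ?_
    by_cases h : ∀ b, s (τ b) = s b
    · rw [if_pos h]
      exact (if_pos h).symm
    · rw [if_neg h]
      exact (if_neg h).symm
  refine Finset.sum_congr ?_ fun s _ => ?_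
  · ext s
    simp only [Finset.mem_filter, Inv, Finset.mem_univ, true_and, Fintype.mem_piFinset]
    have : (∀ b, s b ∈ (if b ∈ A then ({0} : Finset (Fin 3)) else {1, 2})) ↔ wreZ s = A := by
      rw [Finset.ext_iff]
      refine forall_congr' fun b => ?_
      rw [wre_mem]
      by_cases h : b ∈ A
      · simp [h]
      · simp only [h, if_false, iff_false, Finset.mem_insert, Finset.mem_singleton]
        generalize s b = x
        revert x; decide
    rw [this, and_comm]
  · congr 1
    rw [cnt, Finset.card_filter]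

private lemma wre_inv1 (τ : Equiv.Perm R) (A : Finset R) (s : R → Fin 3) (hs : wreZ s = A)
    (h : ∀ i, s (τ i) = s i) (i : R) : τ i ∈ A ↔ i ∈ A := by
  rw [← hs, wre_mem, wre_mem, h i]

private lemma wre_inv2 (τ : Equiv.Perm R) (A : Finset R) (s : R → Fin 3) (hs : wreZ s = A)
    (h : ∀ i, s (τ i) = Equiv.swap 1 2 (s i)) (i : R) : τ i ∈ A ↔ i ∈ A := by
  rw [← hs, wre_mem, wre_mem, h i, wre_swap0]

theorem alt_sum (τ : Equiv.Perm R) (a : ℕ) :
    ∑ s ∈ (Inv τ).filter (fun s => cnt s 0 = a), (-1 : ℤ) ^ cnt s 1 =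
      (Nat.card {s : R → Fin 3 // cnt s 0 = a ∧ ∀ i, s (τ i) = Equiv.swap 1 2 (s i)} : ℤ) := by
  have e2 : Nat.card {s : R → Fin 3 // cnt s 0 = a ∧ ∀ i, s (τ i) = Equiv.swap 1 2 (s i)} =
      (Finset.univ.filter (fun s : R → Fin 3 => cnt s 0 = a ∧
        ∀ i, s (τ i) = Equiv.swap 1 2 (s i))).card := by
    rw [Nat.card_eq_fintype_card, Fintype.card_subtype]
  rw [e2]
  have hm1 : ∀ s ∈ (Inv τ).filter (fun s => cnt s 0 = a), wreZ s ∈
      (Finset.univ.filter (fun A : Finset R => A.card = a)) := by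
    intro s hs
    rw [Finset.mem_filter] at hs ⊢
    exact ⟨Finset.mem_univ _, hs.2⟩
  have hm2 : ∀ s ∈ (Finset.univ.filter (fun s : R → Fin 3 => cnt s 0 = a ∧
        ∀ i, s (τ i) = Equiv.swap 1 2 (s i))), wreZ s ∈
      (Finset.univ.filter (fun A : Finset R => A.card = a)) := by
    intro s hs
    rw [Finset.mem_filter] at hs ⊢
    exact ⟨Finset.mem_univ _, hs.2.1⟩
  rw [← Finset.sum_fiberwise_of_maps_to hm1, Finset.card_eq_sum_card_fiberwise hm2, Nat.cast_sum]
  refine Finset.sum_congr rfl fun A hA => ?_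
  have hAc : A.card = a := (Finset.mem_filter.1 hA).2
  have e3 : ((Inv τ).filter (fun s => cnt s 0 = a)).filter (fun s => wreZ s = A) =
      (Inv τ).filter (fun s => wreZ s = A) := by
    ext s
    simp only [Finset.mem_filter]
    constructor
    · rintro ⟨⟨h1, -⟩, h2⟩
      exact ⟨h1, h2⟩
    · rintro ⟨h1, h2⟩
      refine ⟨⟨h1, ?_⟩, h2⟩
      rw [← wre_card, h2, hAc]
  have e4 : (Finset.univ.filter (fun s : R → Fin 3 => cnt s 0 = a ∧
        ∀ i, s (τ i) = Equiv.swap 1 2 (s i))).filter (fun s => wreZ s = A) =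
      Finset.univ.filter (fun s : R → Fin 3 => (∀ i, s (τ i) = Equiv.swap 1 2 (s i)) ∧
        wreZ s = A) := by
    ext s
    simp only [Finset.mem_filter, Finset.mem_univ, true_and]
    constructor
    · rintro ⟨⟨-, h1⟩, h2⟩
      exact ⟨h1, h2⟩
    · rintro ⟨h1, h2⟩
      refine ⟨⟨?_, h1⟩, h2⟩
      rw [← wre_card, h2, hAc]
  rw [e3, e4]
  by_cases hinv : ∀ i, τ i ∈ A ↔ i ∈ A
  · exact wre_one τ A hinv
  · rw [Finset.filter_eq_empty_iff.2, Finset.filter_eq_empty_iff.2]
    · simp
    · rintro s - ⟨h1, h2⟩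
      exact hinv (wre_inv2 τ A s h2 h1)
    · intro s hs h2
      exact hinv (wre_inv1 τ A s h2 (Finset.mem_filter.1 hs).2)

private lemma wre_total (s : R → Fin 3) : cnt s 0 + cnt s 1 + cnt s 2 = Fintype.card R := by
  have h := Finset.card_eq_sum_card_fiberwise (s := (Finset.univ : Finset R)) (t := Finset.univ)
    (f := s) (fun _ _ => Finset.mem_coe.2 (Finset.mem_univ _))
  rw [Finset.card_univ] at h
  rw [h, Fin.sum_univ_three]
  rfl

private lemma wre_group (τ : Equiv.Perm R) {a b : ℕ} (hab : a + 2 * b = Fintype.card R) :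
    ∑ s ∈ (Inv τ).filter (fun s => cnt s 0 = a), (-1 : ℤ) ^ cnt s 1 =
      ∑ i ∈ Finset.range (2 * b + 1), (-1 : ℤ) ^ i * (T τ a i (2 * b - i) : ℤ) := by
  have hm : ∀ s ∈ (Inv τ).filter (fun s => cnt s 0 = a), cnt s 1 ∈ Finset.range (2 * b + 1) := by
    intro s hs
    have := (Finset.mem_filter.1 hs).2
    have h2 := wre_total s
    rw [Finset.mem_range]
    omega
  rw [← Finset.sum_fiberwise_of_maps_to hm]
  refine Finset.sum_congr rfl fun i hi => ?_
  rw [Finset.mem_range] at hi
  have : ((Inv τ).filter (fun s => cnt s 0 = a)).filter (fun s => cnt s 1 = i) =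
      (Inv τ).filter (fun s => cnt s 0 = a ∧ cnt s 1 = i ∧ cnt s 2 = 2 * b - i) := by
    ext s
    have h2 := wre_total s
    simp only [Finset.mem_filter]
    constructor
    · rintro ⟨⟨h, h0⟩, h1⟩
      exact ⟨h, h0, h1, by omega⟩
    · rintro ⟨h, h0, h1, -⟩
      exact ⟨⟨h, h0⟩, h1⟩
  rw [this, Finset.sum_congr rfl (g := fun _ => (-1 : ℤ) ^ i)]
  · rw [Finset.sum_const, nsmul_eq_mul, T, mul_comm]
  · intro s hs
    rw [(Finset.mem_filter.1 hs).2.2.1]

theorem two_E (τ : Equiv.Perm R) {a b : ℕ} (hab : a + 2 * b = Fintype.card R) :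
    2 * ∑ j ∈ Finset.range (b + 1), (-1 : ℤ) ^ j * (T τ a (b + j) (b - j) : ℤ) =
      (T τ a b b : ℤ) + (-1) ^ b *
        (Nat.card {s : R → Fin 3 // cnt s 0 = a ∧ ∀ i, s (τ i) = Equiv.swap 1 2 (s i)} : ℤ) := by
  rw [← alt_sum, wre_group τ hab]
  have h0 : ∑ i ∈ Finset.range (2 * b + 1), (-1 : ℤ) ^ i * (T τ a i (2 * b - i) : ℤ) =
      ∑ x ∈ Finset.range b, (-1 : ℤ) ^ x * (T τ a x (2 * b - x) : ℤ) +
      ∑ x ∈ Finset.range (b + 1), (-1 : ℤ) ^ (b + x) * (T τ a (b + x) (2 * b - (b + x)) : ℤ) := by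
    have h1 : 2 * b + 1 = b + (b + 1) := by ring
    rw [h1, Finset.sum_range_add]
  have h2 : ∑ x ∈ Finset.range b, (-1 : ℤ) ^ x * (T τ a x (2 * b - x) : ℤ) =
      (-1) ^ b * ∑ j ∈ Finset.range b, (-1 : ℤ) ^ (j + 1) *
        (T τ a (b + (j + 1)) (b - (j + 1)) : ℤ) := by
    rw [← Finset.sum_range_reflect, Finset.mul_sum]
    refine Finset.sum_congr rfl fun j hj => ?_
    rw [Finset.mem_range] at hj
    rw [T_swap12 τ a (b + (j + 1)) (b - (j + 1)), ← mul_assoc]
    have e1 : b - 1 - j = b - (j + 1) := by omega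
    have e2 : 2 * b - (b - 1 - j) = b + (j + 1) := by omega
    rw [e2, e1, ← pow_add]
    congr 1
    have : b + (j + 1) = (b - (j + 1)) + 2 * (j + 1) := by omega
    rw [this, pow_add, pow_mul]
    simp
  have h3 : ∑ x ∈ Finset.range (b + 1), (-1 : ℤ) ^ (b + x) * (T τ a (b + x) (2 * b - (b + x)) : ℤ) =
      (-1) ^ b * ∑ j ∈ Finset.range (b + 1), (-1 : ℤ) ^ j * (T τ a (b + j) (b - j) : ℤ) := by
    rw [Finset.mul_sum]
    refine Finset.sum_congr rfl fun j hj => ?_
    have e2 : 2 * b - (b + j) = b - j := by omega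
    rw [e2, pow_add, mul_assoc]
  rw [h0, h2, h3, mul_add, ← mul_assoc, ← mul_assoc, ← pow_add, ← two_mul, pow_mul]
  rw [neg_one_sq, one_pow, one_mul, one_mul]
  rw [Finset.sum_range_succ' _ b]
  simp only [pow_zero, one_mul, add_zero, Nat.sub_zero]
  ring

private def WreC (R : Type) [Fintype R] (a b : ℕ) : Type :=
  {s : R → Fin 3 // cnt s 0 = a ∧ cnt s 1 = b ∧ cnt s 2 = b}

private instance (a b : ℕ) : Finite (WreC R a b) := Subtype.finite

private lemma wre_cnt_perm (g : Equiv.Perm R) (s : R → Fin 3) (j : Fin 3) :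
    cnt (fun i => s (g i)) j = cnt s j := by
  unfold cnt
  refine Finset.card_bij (fun i _ => g i) ?_ ?_ ?_
  · intro i hi
    simpa using hi
  · intro i _ i' _ h
    exact g.injective h
  · intro i hi
    refine ⟨g.symm i, ?_, g.apply_symm_apply i⟩
    simpa using hi

private lemma wre_cnt_swap (s : R → Fin 3) (j : Fin 3) :
    cnt (fun i => Equiv.swap 1 2 (s i)) j = cnt s (Equiv.swap 1 2 j) := by
  unfold cnt
  congr 1
  refine Finset.filter_congr fun i _ => ?_
  rw [Equiv.swap_apply_eq_iff]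

private instance wreAct (a b : ℕ) : MulAction (Equiv.Perm R) (WreC R a b) where
  smul g s := ⟨fun i => s.1 (g⁻¹ i), by
    rw [wre_cnt_perm, wre_cnt_perm, wre_cnt_perm]; exact s.2⟩
  one_smul s := Subtype.ext rfl
  mul_smul g h s := Subtype.ext (by
    funext i
    show s.1 ((g * h)⁻¹ i) = s.1 (h⁻¹ (g⁻¹ i))
    rw [mul_inv_rev]
    rfl)

private def wreI (a b : ℕ) (s : WreC R a b) : WreC R a b :=
  ⟨fun i => Equiv.swap 1 2 (s.1 i), by
    rw [wre_cnt_swap, wre_cnt_swap, wre_cnt_swap]
    exact ⟨s.2.1, s.2.2.2, s.2.2.1⟩⟩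

private lemma wre_fix (a b : ℕ) (g : Equiv.Perm R) :
    Nat.card {z : WreC R a b // g • z = z} = T g a b b := by
  rw [T, ← Nat.card_eq_finsetCard]
  refine Nat.card_congr ⟨fun z => ⟨z.1.1, ?_⟩, fun z => ⟨⟨z.1, ?_⟩, ?_⟩, fun z => rfl, fun z => rfl⟩
  · rw [Finset.mem_filter, Inv, Finset.mem_filter]
    refine ⟨⟨Finset.mem_univ _, fun i => ?_⟩, z.1.2⟩
    have := congrFun (congrArg Subtype.val z.2) (g i)
    have h2 : (g • z.1).1 (g i) = z.1.1 (g.symm (g i)) := rfl
    rw [h2, Equiv.symm_apply_apply] at this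
    exact this.symm
  · exact (Finset.mem_filter.1 z.2).2
  · refine Subtype.ext (funext fun i => ?_)
    have h1 := (Finset.mem_filter.1 (Finset.mem_filter.1 z.2).1).2 (g.symm i)
    rw [Equiv.apply_symm_apply] at h1
    exact h1.symm

private lemma wre_anti (a b : ℕ) (hab : a + 2 * b = Fintype.card R) (g : Equiv.Perm R) :
    Nat.card {z : WreC R a b // g • z = wreI a b z} =
      Nat.card {s : R → Fin 3 // cnt s 0 = a ∧ ∀ i, s (g i) = Equiv.swap 1 2 (s i)} := by
  refine Nat.card_congr ⟨fun z => ⟨z.1.1, z.1.2.1, ?_⟩, fun z => ⟨⟨z.1, z.2.1, ?_⟩, ?_⟩,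
    fun z => rfl, fun z => rfl⟩
  · intro i
    have := congrFun (congrArg Subtype.val z.2) (g i)
    have h2 : (g • z.1).1 (g i) = z.1.1 (g.symm (g i)) := rfl
    rw [h2, Equiv.symm_apply_apply] at this
    have h3 : (wreI a b z.1).1 (g i) = Equiv.swap 1 2 (z.1.1 (g i)) := rfl
    rw [h3] at this
    rw [this, Equiv.swap_apply_self]
  · have h1 := wre_cnt_swap z.1 1
    have h2 : (fun i => Equiv.swap 1 2 (z.1 i)) = fun i => z.1 (g i) :=
      funext fun i => (z.2.2 i).symm
    rw [h2, wre_cnt_perm, Equiv.swap_apply_left] at h1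
    have h3 := wre_total z.1
    have h4 := z.2.1
    omega
  · refine Subtype.ext (funext fun i => ?_)
    have h1 := z.2.2 (g.symm i)
    rw [Equiv.apply_symm_apply] at h1
    show z.1 (g.symm i) = Equiv.swap 1 2 (z.1 i)
    rw [h1, Equiv.swap_apply_self]

/-- the alternating sum is a signed permutation character -/
theorem isSP_E {a b : ℕ} (hab : a + 2 * b = Fintype.card R) (hb : 1 ≤ b) :
    IsSP (fun τ : Equiv.Perm R =>
      ∑ j ∈ Finset.range (b + 1), (-1 : ℤ) ^ j * (T τ a (b + j) (b - j) : ℤ)) := by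
  have hI : ∀ z : WreC R a b, wreI a b (wreI a b z) = z := fun z =>
    Subtype.ext (funext fun i => Equiv.swap_apply_self _ _ _)
  have hg : ∀ (g : Equiv.Perm R) (z : WreC R a b), g • wreI a b z = wreI a b (g • z) :=
    fun g z => rfl
  rcases Nat.even_or_odd b with h | h
  · refine isSP_quot (WreC R a b) (wreI a b) hI ?_ hg _ ?_
    · intro z hz
      have h1 : 0 < cnt z.1 1 := by
        rw [z.2.2.1]; omega
      obtain ⟨i, hi⟩ := Finset.card_pos.1 h1
      have h2 : z.1 i = 1 := (Finset.mem_filter.1 hi).2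
      have h3 := congrFun (congrArg Subtype.val hz) i
      have h4 : (wreI a b z).1 i = Equiv.swap 1 2 (z.1 i) := rfl
      rw [h4, h2] at h3
      revert h3; decide
    · intro g
      rw [two_E g hab, wre_fix, wre_anti a b hab, h.neg_one_pow, one_mul]
  · refine IsSP.invol (WreC R a b) (wreI a b) hI hg _ ?_
    intro g
    rw [two_E g hab, wre_fix, wre_anti a b hab, h.neg_one_pow]
    ring

end Pool.Agent.PPL
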