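import Mathlib
import Pool.Agent.PPL.WRE

/-! # The coefficients are signed permutation characters

If the exception of `cf_nonneg` does not occur, all coefficients are nonnegative: `IsSP.sum`,
`IsSP.nat_mul` (with `Int.toNat`), `isSP_T`.

Otherwise `k + 4 = n` and `n = 3 m + 1` or `n = 3 m + 2` with `m ≥ 2`.
Case `n = 3 m + 1`: put `a = m + 3`, `b = m - 1`; case `n = 3 m + 2`: `a = m - 2`, `b = m + 2`. By `isSP_E` the sum
`E = ∑ j ∈ range (b + 1), (-1) ^ j * T τ a (b + j) (b - j)` is a signed permutation character, and by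
`T_srt` each summand is `(-1) ^ j * T τ (t j)` with `t j = srt a (b + j) (b - j) ∈ trip n`; `j ↦ t j` is injective
on `range (b + 1)` (if the multisets `{a, b + j, b - j}` and `{a, b + i, b - i}` are equal then `i = j`; e.g.
compare the sums of squares `a ^ 2 + 2 b ^ 2 + 2 j ^ 2`). Hence
`∑ t ∈ trip n, cf t * T t = E + ∑ t ∈ trip n, (cf t - e t) * T t` with `e t = (-1) ^ j` if `t = t j` and
`e t = 0` otherwise, and `cf t - e t ≥ 0` by `line1`/`line2` in the first case and `cf_nonneg` in the second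
(the exceptional partition is `t 1`). -/

noncomputable section

namespace Pool.Agent.PPL

open scoped Classical
open Pool.Agent.Mbar (SSet IsSP)

variable {R : Type} [Fintype R]

private lemma trip_mem {n x y z : ℕ} :
    (x, y, z) ∈ trip n ↔ x + y + z = n ∧ y ≤ x ∧ z ≤ y := by
  simp only [trip, Finset.mem_filter, Finset.mem_product, Finset.mem_range]
  constructor
  · rintro ⟨-, h⟩
    exact h
  · intro h
    refine ⟨⟨?_, ?_, ?_⟩, h⟩ <;> omega

private lemma srt_mem {n a b j : ℕ} (hab : a + 2 * b = n) (hj : j ≤ b) :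
    srt a (b + j) (b - j) ∈ trip n := by
  unfold srt
  rw [trip_mem]
  omega

private lemma srt_inj {a b i j : ℕ} (hi : i ≤ b) (hj : j ≤ b)
    (h : srt a (b + i) (b - i) = srt a (b + j) (b - j)) : i = j := by
  simp only [srt, Prod.mk.injEq] at h
  omega

private lemma low_of_nonneg {n k : ℕ} (e : ℕ × ℕ × ℕ → ℤ)
    (h : ∀ t ∈ trip n, 0 ≤ cf n k t.1 t.2.1 t.2.2 - e t) :
    IsSP (fun τ : Equiv.Perm R => ∑ t ∈ trip n,
      (cf n k t.1 t.2.1 t.2.2 - e t) * (T τ t.1 t.2.1 t.2.2 : ℤ)) := by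
  refine IsSP.sum (trip n) (fun t τ => (cf n k t.1 t.2.1 t.2.2 - e t) *
    (T τ t.1 t.2.1 t.2.2 : ℤ)) fun t ht => ?_
  refine (IsSP.nat_mul (cf n k t.1 t.2.1 t.2.2 - e t).toNat
    (isSP_T (R := R) t.1 t.2.1 t.2.2)).congr fun τ => ?_
  rw [Int.toNat_of_nonneg (h t ht)]

private lemma low_of_line {n k a b : ℕ} (hn : Fintype.card R = n) (hab : a + 2 * b = n)
    (hb : 1 ≤ b)
    (h1 : ∀ j, j ≤ b → (-1 : ℤ) ^ j ≤ cf n k (srt a (b + j) (b - j)).1
      (srt a (b + j) (b - j)).2.1 (srt a (b + j) (b - j)).2.2)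
    (h2 : ∀ t ∈ trip n, (∀ j, j ≤ b → t ≠ srt a (b + j) (b - j)) →
      0 ≤ cf n k t.1 t.2.1 t.2.2) :
    IsSP (fun τ : Equiv.Perm R => ∑ t ∈ trip n,
      cf n k t.1 t.2.1 t.2.2 * (T τ t.1 t.2.1 t.2.2 : ℤ)) := by
  let e : ℕ × ℕ × ℕ → ℤ := fun t =>
    ∑ j ∈ Finset.range (b + 1), if t = srt a (b + j) (b - j) then (-1 : ℤ) ^ j else 0
  have he : ∀ t ∈ trip n, 0 ≤ cf n k t.1 t.2.1 t.2.2 - e t := by
    intro t ht
    by_cases hex : ∃ j, j ≤ b ∧ t = srt a (b + j) (b - j)
    · obtain ⟨j, hj, rfl⟩ := hex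
      have h3 : e (srt a (b + j) (b - j)) = (-1) ^ j := by
        simp only [e]
        rw [Finset.sum_eq_single j]
        · rw [if_pos rfl]
        · intro i hi hij
          rw [if_neg]
          intro h
          exact hij (srt_inj hj (Nat.lt_succ_iff.mp (Finset.mem_range.mp hi)) h).symm
        · intro hj'
          exact absurd (Finset.mem_range.mpr (Nat.lt_succ_of_le hj)) hj'
      rw [h3]
      exact sub_nonneg.mpr (h1 j hj)
    · have h3 : e t = 0 := by
        simp only [e]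
        refine Finset.sum_eq_zero fun j hj => ?_
        rw [if_neg]
        intro h
        exact hex ⟨j, Nat.lt_succ_iff.mp (Finset.mem_range.mp hj), h⟩
      rw [h3, sub_zero]
      exact h2 t ht fun j hj h => hex ⟨j, hj, h⟩
  have hab' : a + 2 * b = Fintype.card R := hab.trans hn.symm
  refine ((low_of_nonneg (R := R) e he).add (isSP_E (R := R) hab' hb)).congr fun τ => ?_
  have h4 : ∑ j ∈ Finset.range (b + 1), (-1 : ℤ) ^ j * (T τ a (b + j) (b - j) : ℤ) =
      ∑ t ∈ trip n, e t * (T τ t.1 t.2.1 t.2.2 : ℤ) := by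
    simp only [e, Finset.sum_mul]
    rw [Finset.sum_comm]
    refine Finset.sum_congr rfl fun j hj => ?_
    have hj' : j ≤ b := Nat.lt_succ_iff.mp (Finset.mem_range.mp hj)
    rw [Finset.sum_eq_single (srt a (b + j) (b - j))]
    · rw [if_pos rfl, T_srt τ a (b + j) (b - j)]
    · intro t _ ht
      rw [if_neg ht, zero_mul]
    · intro h
      exact absurd (srt_mem hab hj') h
  rw [h4, ← Finset.sum_add_distrib]
  refine Finset.sum_congr rfl fun t _ => ?_
  ring

theorem low_isSP (h3 : ¬ 3 ∣ Fintype.card R) {k : ℕ} (hk : k + 4 ≤ Fintype.card R) :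
    IsSP (fun τ : Equiv.Perm R => ∑ t ∈ trip (Fintype.card R),
      cf (Fintype.card R) k t.1 t.2.1 t.2.2 * (T τ t.1 t.2.1 t.2.2 : ℤ)) := by
  obtain ⟨n, hn⟩ : ∃ n, Fintype.card R = n := ⟨_, rfl⟩
  rw [hn] at h3 hk
  rw [hn]
  by_cases hall : ∀ t ∈ trip n, 0 ≤ cf n k t.1 t.2.1 t.2.2
  · refine (low_of_nonneg (R := R) (n := n) (k := k) (fun _ => 0) fun t ht => ?_).congr
      fun τ => ?_
    · rw [sub_zero]
      exact hall t ht
    · simp only [sub_zero]
  · push Not at hall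
    obtain ⟨⟨x, y, z⟩, ht, hneg⟩ := hall
    rw [trip_mem] at ht
    obtain ⟨hs, hxy, hyz⟩ := ht
    have hex : (k + 4 = n ∧ ((3 * y = n + 1 ∧ x = y + 2) ∨ (n = 3 * y + 1 ∧ y = z + 2))) := by
      by_contra hex
      exact absurd (cf_nonneg hs hxy hyz h3 hk hex) (not_le.mpr hneg)
    obtain ⟨hk4, hex⟩ := hex
    rcases hex with ⟨hy, hx⟩ | ⟨hy, hz⟩
    · -- `n = 3 m + 2`
      obtain ⟨m, rfl⟩ : ∃ m, y = m + 1 := ⟨y - 1, by omega⟩
      have hm : 2 ≤ m := by omega
      have hn' : n = 3 * m + 2 := by omega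
      have hk' : k = 3 * m - 2 := by omega
      subst hn' hk'
      refine low_of_line (a := m - 2) (b := m + 2) hn (by omega) (by omega) ?_ ?_
      · intro j hj
        exact line2 hm hj
      · rintro ⟨x', y', z'⟩ ht' hne
        rw [trip_mem] at ht'
        refine cf_nonneg (x := x') (y := y') (z := z') ht'.1 ht'.2.1 ht'.2.2 h3 hk ?_
        rintro ⟨-, hex⟩
        refine hne 1 (by omega) ?_
        simp only [srt, Prod.mk.injEq]
        omega
    · obtain ⟨hm, hn', hk'⟩ : 2 ≤ y ∧ n = 3 * y + 1 ∧ k = 3 * y - 3 := by omega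
      subst hn' hk'
      refine low_of_line (a := y + 3) (b := y - 1) hn (by omega) (by omega) ?_ ?_
      · intro j hj
        exact line1 hm (by omega)
      · rintro ⟨x', y', z'⟩ ht' hne
        rw [trip_mem] at ht'
        refine cf_nonneg (x := x') (y := y') (z := z') ht'.1 ht'.2.1 ht'.2.2 h3 hk ?_
        rintro ⟨-, hex⟩
        refine hne 1 (by omega) ?_
        simp only [srt, Prod.mk.injEq]
        omega

end Pool.Agent.PPL
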