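import Mathlib
import Pool.Agent.PPL.BAS

/-! # Stabilisers of stable families

`stab_scalar`: let `g` fix all points of a stable family `x`. Each `(x i).rep` is an eigenvector of `g`.
If `g` is not a scalar, each eigenspace `E μ` is neither `⊤` nor, for `μ` an eigenvalue, `⊥`, so
`3 * hct x (E μ) < n * finrank (E μ)`. The eigenspaces are independent
(`Module.End.eigenspaces_iSupIndep`), so `∑ finrank (E μ) ≤ 3` over the finitely many eigenvalues, and each
label `i` belongs to exactly one of them: `3 n = ∑ 3 * hct x (E μ) < n * 3`, a contradiction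
(`n ≥ 1`).

`stable_smul`: replace `U` by its preimage under `g`, of the same dimension (`Submodule.comap` of the linear
equivalence `v ↦ g • v`). -/

noncomputable section

namespace Pool.Agent.PPL

open Polynomial Module
open scoped Classical LinearAlgebra.Projectivization
open Pool.Agent.Mbar (Setup SSet IsSP)

variable {Ω : Type} [Field Ω] {q : ℕ} {R : Type} [Fintype R]

private lemma ORA_smul (g : GL (Fin 3) Ω) (v : Fin 3 → Ω) :
    g • v = (g : Matrix (Fin 3) (Fin 3) Ω).mulVec v := rfl

private lemma ORA_eig {y : ℙ Ω (Fin 3 → Ω)} {g : GL (Fin 3) Ω} (h : g • y = y) :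
    ∃ a : Ω, (g : Matrix (Fin 3) (Fin 3) Ω).mulVec y.rep = a • y.rep := by
  rw [← y.mk_rep, Projectivization.smul_mk, Projectivization.mk_eq_mk_iff] at h
  obtain ⟨a, ha⟩ := h
  refine ⟨a, ?_⟩
  rw [← ORA_smul]
  exact ha.symm

private lemma ORA_finrank (f : Module.End Ω (Fin 3 → Ω)) (s : Finset Ω) :
    finrank Ω (⨆ m ∈ s, f.eigenspace m : Submodule Ω (Fin 3 → Ω)) =
      ∑ m ∈ s, finrank Ω (f.eigenspace m) := by
  induction s using Finset.induction_on with
  | empty => simp
  | insert a s ha ih =>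
    rw [Finset.iSup_insert, Finset.sum_insert ha, ← ih]
    have h1 := Submodule.finrank_sup_add_finrank_inf_eq (f.eigenspace a)
      (⨆ m ∈ s, f.eigenspace m)
    have h2 : f.eigenspace a ⊓ (⨆ m ∈ s, f.eigenspace m) = ⊥ := by
      rw [← disjoint_iff]
      refine (f.eigenspaces_iSupIndep a).mono_right ?_
      refine iSup₂_le fun m hm => ?_
      exact le_iSup₂_of_le m (fun h => ha (h ▸ hm)) le_rfl
    rw [h2, finrank_bot, add_zero] at h1
    exact h1

theorem stab_scalar [IsAlgClosed Ω] (hR : 1 ≤ Fintype.card R) {x : R → ℙ Ω (Fin 3 → Ω)}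
    (hx : Stable x) (g : GL (Fin 3) Ω) (hg : ∀ i, g • x i = x i) :
    ∃ c : Ω, (g : Matrix (Fin 3) (Fin 3) Ω) = Matrix.scalar (Fin 3) c := by
  by_contra hcon
  push Not at hcon
  choose μ hμ using fun i => ORA_eig (hg i)
  set f : Module.End Ω (Fin 3 → Ω) := Matrix.toLin' (g : Matrix (Fin 3) (Fin 3) Ω) with hf
  have hmem : ∀ i m, (x i).rep ∈ f.eigenspace m ↔ μ i = m := by
    intro i m
    rw [Module.End.mem_eigenspace_iff, hf, Matrix.toLin'_apply, hμ i]
    constructor
    · intro h
      exact smul_left_injective Ω (x i).rep_nonzero h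
    · rintro rfl
      rfl
  have htop : ∀ m, f.eigenspace m ≠ ⊤ := by
    intro m h
    apply hcon m
    have h1 : f = algebraMap Ω (Module.End Ω (Fin 3 → Ω)) m := by
      refine LinearMap.ext fun v => ?_
      have h2 : v ∈ f.eigenspace m := by rw [h]; exact Submodule.mem_top
      rw [Module.End.mem_eigenspace_iff] at h2
      rw [h2, Module.algebraMap_end_apply]
    calc (g : Matrix (Fin 3) (Fin 3) Ω) = LinearMap.toMatrix' f := by
          rw [hf, LinearMap.toMatrix'_toLin']
      _ = (algebraMap Ω (Module.End Ω (Fin 3 → Ω)) m).toMatrix' := by rw [h1]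
      _ = Matrix.scalar (Fin 3) m := LinearMap.toMatrix'_algebraMap m
  have hct_eq : ∀ m, hct x (f.eigenspace m) = (Finset.univ.filter (fun i => μ i = m)).card := by
    intro m
    rw [hct, Nat.card_eq_fintype_card, Fintype.card_subtype]
    congr 1
    ext i
    simp only [Finset.mem_filter, Finset.mem_univ, true_and]
    rw [submodule_le_iff, hmem]
  have hne : Finset.univ.Nonempty (α := R) := by
    rw [← Finset.card_pos, Finset.card_univ]
    exact hR
  set M := Finset.univ.image μ with hM
  have hMne : M.Nonempty := hne.image μ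
  have h1 : ∀ m ∈ M, 3 * (Finset.univ.filter (fun i => μ i = m)).card <
      Fintype.card R * finrank Ω (f.eigenspace m) := by
    intro m hm
    obtain ⟨i, -, hi⟩ := Finset.mem_image.1 hm
    have h2 : f.eigenspace m ≠ ⊥ := by
      intro h
      have h3 := (hmem i m).2 hi
      rw [h, Submodule.mem_bot] at h3
      exact (x i).rep_nonzero h3
    have h4 := hx _ h2 (htop m)
    rwa [hct_eq, Nat.card_eq_fintype_card] at h4
  have h2 := Finset.sum_lt_sum_of_nonempty hMne h1
  rw [← Finset.mul_sum, ← Finset.mul_sum, ← ORA_finrank f M] at h2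
  have h3 : ∑ m ∈ M, (Finset.univ.filter (fun i => μ i = m)).card = Fintype.card R := by
    rw [← Finset.card_univ, hM]
    exact (Finset.card_eq_sum_card_image μ Finset.univ).symm
  have h4 : finrank Ω (⨆ m ∈ M, f.eigenspace m : Submodule Ω (Fin 3 → Ω)) ≤ 3 := by
    have := Submodule.finrank_le (⨆ m ∈ M, f.eigenspace m : Submodule Ω (Fin 3 → Ω))
    simpa using this
  rw [h3] at h2
  have h5 := Nat.mul_le_mul_left (Fintype.card R) h4
  omega

/-- stability does not change under projective transformations -/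
theorem stable_smul {x : R → ℙ Ω (Fin 3 → Ω)} (hx : Stable x) (g : GL (Fin 3) Ω) :
    Stable (fun i => g • x i) := by
  intro U hU0 hU1
  set e : (Fin 3 → Ω) ≃ₗ[Ω] (Fin 3 → Ω) := DistribMulAction.toLinearEquiv Ω (Fin 3 → Ω) g with he
  have hfin : finrank Ω (U.map (e.symm : (Fin 3 → Ω) →ₗ[Ω] (Fin 3 → Ω))) = finrank Ω U :=
    LinearEquiv.finrank_map_eq e.symm U
  have hmem : ∀ v, v ∈ U.map (e.symm : (Fin 3 → Ω) →ₗ[Ω] (Fin 3 → Ω)) ↔ g • v ∈ U := by
    intro v
    constructor
    · rintro ⟨w, hw, rfl⟩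
      have : g • (e.symm w) = w := e.apply_symm_apply w
      change g • (e.symm w) ∈ U
      rw [this]
      exact hw
    · intro h
      exact ⟨g • v, h, e.symm_apply_apply v⟩
  have hct_eq : hct (fun i => g • x i) U =
      hct x (U.map (e.symm : (Fin 3 → Ω) →ₗ[Ω] (Fin 3 → Ω))) := by
    unfold hct
    refine Nat.card_congr (Equiv.subtypeEquivRight fun i => ?_)
    change (g • x i).submodule ≤ U ↔ (x i).submodule ≤ _
    rw [← (x i).mk_rep, Projectivization.smul_mk, mk_submodule_le_iff, mk_submodule_le_iff, hmem]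
  have h1 := hx (U.map (e.symm : (Fin 3 → Ω) →ₗ[Ω] (Fin 3 → Ω))) (by
    intro h
    apply hU0
    rwa [Submodule.map_eq_bot_iff] at h) (by
    intro h
    apply hU1
    rw [Submodule.eq_top_iff']
    intro v
    have h2 : e.symm v ∈ U.map (e.symm : (Fin 3 → Ω) →ₗ[Ω] (Fin 3 → Ω)) := by
      rw [h]
      exact Submodule.mem_top
    rw [hmem] at h2
    have h3 : g • (e.symm v) = v := e.apply_symm_apply v
    rwa [h3] at h2)
  rw [hct_eq, ← hfin]
  exact h1

end Pool.Agent.PPL
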