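import Mathlib
import Pool.Agent.PPL.DSC
import Pool.Agent.PPL.ORA

/-! # Points of the moduli space and stable equivariant families

`orbit_count`: let `Y` be the finite set of stable equivariant families, `G` the group of the
`h : GL (Fin 3) Ω` with all entries fixed by `a ↦ a ^ q`; it is isomorphic to `GL (Fin 3) k` for the field
`k` of the elements of `Ω` with `a ^ q = a`, `card k = q` (`Mbar.card_fixed`), and
`Matrix.card_GL_field` gives `card G = (q^3 - 1) (q^3 - q) (q^3 - q^2)`. The group `G` acts on `Y`; the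
stabiliser of a point consists of the scalars `a` with `a ^ q = a`, `a ≠ 0` (`stab_scalar`), so all
orbits have `card G / (q - 1)` elements. The orbits of `G` on `Y` correspond to the classes counted by
`twCount`:
- a class `c = [x]` fixed by the twisted `q`-power map: `frobPt q (x i) = g • x (τ i)`. By `lang` for
a suitable matrix there is `h` with `h^{(q)} g = h` up to the order of the factors (apply `lang` to
`g⁻¹`: `g⁻¹ * h₀^{(q)} = h₀`, so with `h = h₀⁻¹`, `h^{(q)} * g = h`), and `y i = h • x i` satisfies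
`frobPt q (y i) = h^{(q)} • frobPt q (x i) = h^{(q)} g • x (τ i) = h • x (τ i) = y (τ i)`, so `y ∈ Y`.
- if `y, y' = h • y ∈ Y` are equivalent, then `h^{(q)} • y (τ i) = frobPt q (h • y i) = h • y (τ i)` for
all `i`, so `h^{(q)} = c h` for a scalar `c` (`stab_scalar`); choose `a` with `a ^ (q - 1) = c⁻¹`; then `a h`
is in `G` and `y' = (a h) • y`.
Use `exists_frobGL` for `h^{(q)}` and its action. Finiteness of `Y` is a hypothesis here (it is
proved in `CNT`). -/

noncomputable section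

namespace Pool.Agent.PPL

open Polynomial Module
open scoped Classical LinearAlgebra.Projectivization
open Pool.Agent.Mbar (Setup SSet IsSP)

variable {Ω : Type} [Field Ω] {q : ℕ} {R : Type} [Fintype R]

/-- the scalar matrices -/
private def ORBs (K : Type) [Field K] : Kˣ →* GL (Fin 3) K :=
  Units.map (Matrix.scalar (Fin 3) : K →+* Matrix (Fin 3) (Fin 3) K).toMonoidHom

private lemma ORBs_coe (K : Type) [Field K] (a : Kˣ) :
    ((ORBs K a : GL (Fin 3) K) : Matrix (Fin 3) (Fin 3) K) = Matrix.scalar (Fin 3) (a : K) := rfl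

private lemma ORBs_smul (a : Ωˣ) (x : ℙ Ω (Fin 3 → Ω)) : ORBs Ω a • x = x := by
  induction x using Projectivization.ind with
  | h v hv =>
    rw [Projectivization.smul_mk, Projectivization.mk_eq_mk_iff]
    refine ⟨a, ?_⟩
    change (a : Ω) • v = (Matrix.scalar (Fin 3) (a : Ω)).mulVec v
    rw [Matrix.scalar_apply]
    ext j
    rw [Matrix.mulVec_diagonal]
    rfl

private lemma ORB_map_frob (φ : Ω →+* Ω) (hφ : ∀ a, φ a = a ^ q) (hq : Hyp Ω q) (h : GL (Fin 3) Ω)
    (x : ℙ Ω (Fin 3 → Ω)) :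
    frobPt q (h • x) = Matrix.GeneralLinearGroup.map φ h • frobPt q x := by
  obtain ⟨g', hg', hx⟩ := exists_frobGL hq h
  rw [hx]
  congr 1
  ext i j
  rw [hg', Matrix.GeneralLinearGroup.map_apply, hφ]

/-- matrices with entries in the field with `q` elements -/
private lemma ORB_lift (φ : Ω →+* Ω) (h : GL (Fin 3) Ω)
    (hh : Matrix.GeneralLinearGroup.map φ h = h) :
    ∃ h' : GL (Fin 3) (RingHom.eqLocusField φ (RingHom.id Ω)),
      Matrix.GeneralLinearGroup.map (RingHom.eqLocusField φ (RingHom.id Ω)).subtype h' = h := by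
  have h1 : ∀ i j, (h : Matrix (Fin 3) (Fin 3) Ω) i j ∈ RingHom.eqLocusField φ (RingHom.id Ω) := by
    intro i j
    rw [RingHom.mem_eqLocusField]
    have := congrArg (fun m : GL (Fin 3) Ω => (m : Matrix (Fin 3) (Fin 3) Ω) i j) hh
    exact this
  set A : Matrix (Fin 3) (Fin 3) (RingHom.eqLocusField φ (RingHom.id Ω)) :=
    Matrix.of fun i j => ⟨(h : Matrix (Fin 3) (Fin 3) Ω) i j, h1 i j⟩ with hA
  have hAm : (RingHom.mapMatrix (RingHom.eqLocusField φ (RingHom.id Ω)).subtype) A =
      (h : Matrix (Fin 3) (Fin 3) Ω) := by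
    ext i j
    rfl
  have hdet : A.det ≠ 0 := by
    intro h0
    have h2 := RingHom.map_det (RingHom.eqLocusField φ (RingHom.id Ω)).subtype A
    rw [hAm, h0, map_zero] at h2
    have h3 : IsUnit (h : Matrix (Fin 3) (Fin 3) Ω).det :=
      (Matrix.isUnit_iff_isUnit_det _).1 h.isUnit
    exact h3.ne_zero h2.symm
  refine ⟨Matrix.GeneralLinearGroup.mkOfDetNeZero A hdet, ?_⟩
  ext i j
  rfl

theorem orbit_count (hq : Hyp Ω q) (hR : 1 ≤ Fintype.card R) (τ : Equiv.Perm R)
    (hfin : {x : R → ℙ Ω (Fin 3 → Ω) | x ∈ EConf Ω q τ ∧ Stable x}.Finite) :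
    ({x : R → ℙ Ω (Fin 3 → Ω) | x ∈ EConf Ω q τ ∧ Stable x}.ncard : ℤ) =
      (q : ℤ) ^ 3 * (((q : ℤ) ^ 2 - 1) * ((q : ℤ) ^ 3 - 1)) * (twCount Ω q τ : ℤ) := by
  have hcl : IsAlgClosed Ω := hq.setup.closed
  have hq1 := hq.one_lt
  obtain ⟨φ, hφ⟩ := hq.exists_hom
  set F : GL (Fin 3) Ω →* GL (Fin 3) Ω := Matrix.GeneralLinearGroup.map φ with hF
  have hFs : ∀ (h : GL (Fin 3) Ω) (x : ℙ Ω (Fin 3 → Ω)), frobPt q (h • x) = F h • frobPt q x :=
    fun h x => ORB_map_frob φ hφ hq h x
  set k := RingHom.eqLocusField φ (RingHom.id Ω) with hk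
  have hkset : (k : Set Ω) = {x : Ω | x ^ q = x} := by
    ext a
    change φ a = a ↔ a ^ q = a
    rw [hφ]
  obtain ⟨hkf, hkc⟩ := Mbar.card_fixed hq.setup
  have hkfin : Finite k := by
    have : Finite (k : Set Ω) := by
      rw [hkset]
      exact hkf
    exact this
  have hkcard : Nat.card k = q := by
    have h1 : Nat.card (k : Set Ω) = q := by
      rw [hkset]
      exact hkc
    exact h1
  have hkft : Fintype k := Fintype.ofFinite k
  set incl : GL (Fin 3) k →* GL (Fin 3) Ω := Matrix.GeneralLinearGroup.map k.subtype with hincl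
  have hinclF : ∀ h, F (incl h) = incl h := by
    intro h
    ext i j
    rw [hF, Matrix.GeneralLinearGroup.map_apply, hincl, Matrix.GeneralLinearGroup.map_apply]
    exact (h i j).2
  set Y := {x : R → ℙ Ω (Fin 3 → Ω) | x ∈ EConf Ω q τ ∧ Stable x} with hY
  have hYfin : Finite Y := hfin
  -- the action
  let act : MulAction (GL (Fin 3) k) (R → ℙ Ω (Fin 3 → Ω)) :=
    MulAction.compHom _ incl
  have hact : ∀ (h : GL (Fin 3) k) (y : R → ℙ Ω (Fin 3 → Ω)), h • y = fun i => incl h • y i :=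
    fun _ _ => rfl
  have hactY : ∀ (h : GL (Fin 3) k), ∀ y ∈ Y, h • y ∈ Y := by
    intro h y hy
    refine ⟨fun i => ?_, ?_⟩
    · rw [hact]
      change incl h • y (τ i) = frobPt q (incl h • y i)
      rw [hFs, hinclF, ← hy.1 i]
    · rw [hact]
      exact stable_smul hy.2 _
  -- the stabiliser
  have hstab : ∀ y ∈ Y, Nat.card (MulAction.stabilizer (GL (Fin 3) k) y) = q - 1 := by
    intro y hy
    have h1 : MulAction.stabilizer (GL (Fin 3) k) y = (ORBs k).range := by
      ext h
      rw [MulAction.mem_stabilizer_iff, MonoidHom.mem_range]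
      constructor
      · intro hh
        have h2 : ∀ i, incl h • y i = y i := fun i => congrFun hh i
        obtain ⟨c, hc⟩ := stab_scalar hR hy.2 (incl h) h2
        have h3 : ∀ i j, ((h : Matrix (Fin 3) (Fin 3) k) i j : Ω) =
            Matrix.scalar (Fin 3) c i j := by
          intro i j
          rw [← hc]
          rfl
        set a : k := (h : Matrix (Fin 3) (Fin 3) k) 0 0 with ha
        have h4 : (a : Ω) = c := by
          rw [ha, h3]
          simp
        have h5 : (h : Matrix (Fin 3) (Fin 3) k) = Matrix.scalar (Fin 3) a := by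
          ext i j
          rw [h3, ← h4]
          simp only [Matrix.scalar_apply, Matrix.diagonal_apply]
          split_ifs <;> rfl
        have h6 : a ≠ 0 := by
          intro h0
          have h7 : IsUnit (h : Matrix (Fin 3) (Fin 3) k).det :=
            (Matrix.isUnit_iff_isUnit_det _).1 h.isUnit
          rw [h5, h0] at h7
          simp at h7
        refine ⟨Units.mk0 a h6, ?_⟩
        apply Units.ext
        rw [ORBs_coe, h5]
        rfl
      · rintro ⟨a, rfl⟩
        rw [hact]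
        funext i
        have h2 : incl (ORBs k a) = ORBs Ω (Units.map (k.subtype : k →* Ω) a) := by
          ext i j
          rw [hincl, Matrix.GeneralLinearGroup.map_apply]
          simp only [ORBs_coe, Matrix.scalar_apply, Matrix.diagonal_apply]
          split_ifs
          · rfl
          · exact map_zero _
        rw [h2, ORBs_smul]
    rw [h1]
    have h2 : Function.Injective (ORBs k) := by
      intro a b hab
      apply Units.ext
      have := congrArg (fun m : GL (Fin 3) k => (m : Matrix (Fin 3) (Fin 3) k) 0 0) hab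
      simpa [ORBs_coe] using this
    rw [Nat.card_congr (MonoidHom.ofInjective h2).toEquiv.symm, Nat.card_units, hkcard]
  have hG : Nat.card (GL (Fin 3) k) = (q ^ 3 - 1) * ((q ^ 3 - q) * (q ^ 3 - q ^ 2)) := by
    rw [Matrix.card_GL_field, Fin.prod_univ_three, ← Nat.card_eq_fintype_card, hkcard]
    simp [mul_assoc]
  have horb : ∀ y ∈ Y, (Nat.card (MulAction.orbit (GL (Fin 3) k) y) : ℤ) =
      (q : ℤ) ^ 3 * (((q : ℤ) ^ 2 - 1) * ((q : ℤ) ^ 3 - 1)) := by
    intro y hy
    have h1 := Subgroup.card_eq_card_quotient_mul_card_subgroup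
      (MulAction.stabilizer (GL (Fin 3) k) y)
    rw [hstab y hy, hG, ← Nat.card_congr (MulAction.orbitEquivQuotientStabilizer (GL (Fin 3) k) y)]
      at h1
    have h2 : q ≤ q ^ 3 := Nat.le_self_pow (by norm_num) q
    have h3 : q ^ 2 ≤ q ^ 3 := Nat.pow_le_pow_right (by omega) (by norm_num)
    have h4 : 1 ≤ q ^ 3 := Nat.one_le_pow _ _ (by omega)
    have h5 : 1 ≤ q := by omega
    have h6 := congrArg (Nat.cast : ℕ → ℤ) h1
    push_cast [Nat.cast_sub h2, Nat.cast_sub h3, Nat.cast_sub h4, Nat.cast_sub h5] at h6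
    have h7 : (q : ℤ) - 1 ≠ 0 := by
      have : (1 : ℤ) < q := by exact_mod_cast hq1
      omega
    apply mul_right_cancel₀ h7
    rw [← h6]
    ring
  -- the scalar correction
  have hdesc : ∀ y ∈ Y, ∀ y' ∈ Y, ∀ h : GL (Fin 3) Ω, (∀ i, y' i = h • y i) →
      y' ∈ MulAction.orbit (GL (Fin 3) k) y := by
    intro y hy y' hy' h hh
    have h1 : ∀ j, (h⁻¹ * F h) • y j = y j := by
      intro j
      obtain ⟨i, rfl⟩ := τ.surjective j
      have h2 : F h • y (τ i) = h • y (τ i) := by
        calc F h • y (τ i) = F h • frobPt q (y i) := by rw [hy.1 i]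
          _ = frobPt q (h • y i) := (hFs h (y i)).symm
          _ = frobPt q (y' i) := by rw [hh]
          _ = y' (τ i) := (hy'.1 i).symm
          _ = h • y (τ i) := hh (τ i)
      rw [mul_smul, h2, inv_smul_smul]
    obtain ⟨c, hc⟩ := stab_scalar hR hy.2 _ h1
    have hc0 : c ≠ 0 := by
      rintro rfl
      have h7 : IsUnit ((h⁻¹ * F h : GL (Fin 3) Ω) : Matrix (Fin 3) (Fin 3) Ω).det :=
        (Matrix.isUnit_iff_isUnit_det _).1 (h⁻¹ * F h).isUnit
      rw [hc] at h7
      simp at h7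
    have hc' : h⁻¹ * F h = ORBs Ω (Units.mk0 c hc0) := Units.ext hc
    obtain ⟨a, ha⟩ := IsAlgClosed.exists_pow_nat_eq c⁻¹ (n := q - 1) (by omega)
    have ha0 : a ≠ 0 := by
      rintro rfl
      rw [zero_pow (by omega)] at ha
      exact inv_ne_zero hc0 ha.symm
    set u : Ωˣ := Units.mk0 a ha0 with hu
    have hFu : F (ORBs Ω u) = ORBs Ω (u ^ q) := by
      ext i j
      rw [hF, Matrix.GeneralLinearGroup.map_apply]
      simp only [ORBs_coe, Matrix.scalar_apply, Matrix.diagonal_apply]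
      split_ifs
      · rw [hφ, Units.val_pow_eq_pow_val]
      · exact map_zero _
    have hcomm : ∀ (v : Ωˣ) (g : GL (Fin 3) Ω), ORBs Ω v * g = g * ORBs Ω v := by
      intro v g
      apply Units.ext
      rw [Units.val_mul, Units.val_mul, ORBs_coe]
      exact Matrix.scalar_comm (v : Ω) (fun r => mul_comm _ _) _
    have h3 : F (ORBs Ω u * h) = ORBs Ω u * h := by
      have h4 : F h = h * ORBs Ω (Units.mk0 c hc0) := by
        rw [← hc', mul_inv_cancel_left]
      rw [map_mul, hFu, h4, ← mul_assoc, hcomm, mul_assoc, ← map_mul, ← hcomm]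
      congr 2
      apply Units.ext
      rw [Units.val_mul, Units.val_pow_eq_pow_val, Units.val_mk0, Units.val_mk0]
      obtain ⟨n, rfl⟩ : ∃ n, q = n + 1 := ⟨q - 1, by omega⟩
      rw [Nat.add_sub_cancel] at ha
      rw [pow_succ, ha]
      field_simp
    obtain ⟨h', hh'⟩ := ORB_lift φ _ h3
    refine ⟨h', ?_⟩
    change h' • y = y'
    rw [hact]
    funext i
    have h5 : incl h' = ORBs Ω u * h := hh'
    rw [h5, mul_smul, ORBs_smul, hh]
  -- the map to the classes
  have hcls : ∀ y : Y, ∀ x, Quotient.mk (projRel Ω R) x = Quotient.mk (projRel Ω R) ⟨y.1, y.2.2⟩ →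
      ∃ g : GL (Fin 3) Ω, ∀ i, frobPt q (x.1 i) = g • x.1 (τ i) := by
    intro y x hx
    obtain ⟨g, hg⟩ := Quotient.exact hx
    have h1 : ∀ i, x.1 i = g⁻¹ • y.1 i := fun i => by
      rw [← inv_smul_smul g (x.1 i)]
      rw [← hg i]
    refine ⟨F g⁻¹ * g, fun i => ?_⟩
    rw [h1 i, hFs, ← y.2.1 i, mul_smul]
    congr 1
    exact hg (τ i)
  set Φ : Y → {c : Quotient (projRel Ω R) // ∀ x, Quotient.mk (projRel Ω R) x = c →
    ∃ g : GL (Fin 3) Ω, ∀ i, frobPt q (x.1 i) = g • x.1 (τ i)} :=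
    fun y => ⟨Quotient.mk (projRel Ω R) ⟨y.1, y.2.2⟩, hcls y⟩ with hΦ
  have hsurj : Function.Surjective Φ := by
    rintro ⟨c, hc⟩
    induction c using Quotient.inductionOn with
    | h x =>
      obtain ⟨g, hg⟩ := hc x rfl
      obtain ⟨h₀, hh₀⟩ := lang hq g⁻¹
      have h1 : g⁻¹ * F h₀ = h₀ := by
        apply Units.ext
        rw [Units.val_mul, ← hh₀]
        congr 1
        ext i j
        rw [hF, Matrix.GeneralLinearGroup.map_apply, hφ]
        rfl
      have h3 : F h₀ = g * h₀ := inv_mul_eq_iff_eq_mul.1 h1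
      have h2 : F h₀⁻¹ * g = h₀⁻¹ := by
        rw [map_inv, h3, mul_inv_rev, mul_assoc, inv_mul_cancel, mul_one]
      have hy : (fun i => h₀⁻¹ • x.1 i) ∈ Y := by
        refine ⟨fun i => ?_, stable_smul x.2 _⟩
        change h₀⁻¹ • x.1 (τ i) = frobPt q (h₀⁻¹ • x.1 i)
        rw [hFs, hg i, ← mul_smul, h2]
      refine ⟨⟨_, hy⟩, ?_⟩
      apply Subtype.ext
      refine Quotient.sound ⟨h₀, fun i => ?_⟩
      change x.1 i = h₀ • (h₀⁻¹ • x.1 i)
      rw [smul_inv_smul]
  have hTfin : Finite {c : Quotient (projRel Ω R) // ∀ x, Quotient.mk (projRel Ω R) x = c →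
    ∃ g : GL (Fin 3) Ω, ∀ i, frobPt q (x.1 i) = g • x.1 (τ i)} := Finite.of_surjective Φ hsurj
  have hTft : Fintype {c : Quotient (projRel Ω R) // ∀ x, Quotient.mk (projRel Ω R) x = c →
    ∃ g : GL (Fin 3) Ω, ∀ i, frobPt q (x.1 i) = g • x.1 (τ i)} := Fintype.ofFinite _
  have hfib : ∀ t, (Nat.card {y : Y // Φ y = t} : ℤ) =
      (q : ℤ) ^ 3 * (((q : ℤ) ^ 2 - 1) * ((q : ℤ) ^ 3 - 1)) := by
    intro t
    obtain ⟨y₀, rfl⟩ := hsurj t
    rw [← horb y₀.1 y₀.2]
    congr 1
    refine Nat.card_eq_of_bijective (fun y => ⟨y.1.1, ?_⟩) ⟨?_, ?_⟩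
    · have h1 : Quotient.mk (projRel Ω R) ⟨y.1.1, y.1.2.2⟩ =
          Quotient.mk (projRel Ω R) ⟨y₀.1, y₀.2.2⟩ := congrArg Subtype.val y.2
      obtain ⟨h, hh⟩ := Quotient.exact h1.symm
      exact hdesc y₀.1 y₀.2 y.1.1 y.1.2 h hh
    · intro y y' h
      have h' : y.1.1 = y'.1.1 := congrArg (fun z => z.1) h
      exact Subtype.ext (Subtype.ext h')
    · rintro ⟨y, h, rfl⟩
      refine ⟨⟨⟨h • y₀.1, hactY h _ y₀.2⟩, ?_⟩, rfl⟩
      apply Subtype.ext
      refine Quotient.sound ⟨(incl h)⁻¹, fun i => ?_⟩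
      exact (inv_smul_smul (incl h) (y₀.1 i)).symm
  have hcount : Nat.card Y = ∑ t, Nat.card {y : Y // Φ y = t} := by
    rw [← Nat.card_sigma]
    exact (Nat.card_congr (Equiv.sigmaFiberEquiv Φ)).symm
  have hY1 : Y.ncard = Nat.card Y := rfl
  rw [hY1, hcount, Nat.cast_sum, Finset.sum_congr rfl (fun t _ => hfib t), Finset.sum_const,
    Finset.card_univ, ← Nat.card_eq_fintype_card, nsmul_eq_mul, mul_comm]
  rfl

end Pool.Agent.PPL
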