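import Mathlib
import Pool.Agent.PPL.Defs

/-! # Divisibility of integer polynomials from their values at primes

`dvd_of_eval`: divide `P = D * A + B` with remainder (`D` monic, `Polynomial.modByMonic`). For a prime
`p` the integer `D.eval p` divides `B.eval p`; as `degree B < degree D`, for large `p` the absolute
value of `B.eval p` is smaller than that of `D.eval p` (`Polynomial.div_tendsto_zero_of_degree_lt`, or
an elementary bound), so `B.eval p = 0` for all large primes `p` and `B = 0`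
(`Nat.exists_infinite_primes`, `Polynomial.eq_zero_of_infinite_isRoot`). -/

noncomputable section

namespace Pool.Agent.PPL

open Polynomial Module
open scoped Classical LinearAlgebra.Projectivization
open Pool.Agent.Mbar (Setup SSet IsSP)

theorem dvd_of_eval {P D : ℤ[X]} (hD : D.Monic)
    (h : ∀ p : ℕ, p.Prime → D.eval (p : ℤ) ∣ P.eval (p : ℤ)) : D ∣ P := by
  rw [← Polynomial.modByMonic_eq_zero_iff_dvd hD]
  set B := P %ₘ D with hB
  have hdiv : ∀ p : ℕ, p.Prime → D.eval (p : ℤ) ∣ B.eval (p : ℤ) := by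
    intro p hp
    have h1 : P.eval (p : ℤ) = B.eval (p : ℤ) + D.eval (p : ℤ) * (P /ₘ D).eval (p : ℤ) := by
      conv_lhs => rw [← Polynomial.modByMonic_add_div P D]
      rw [Polynomial.eval_add, Polynomial.eval_mul]
    have h2 := h p hp
    rw [h1] at h2
    exact (dvd_add_left (dvd_mul_right _ _)).1 h2
  have hdeg : B.degree < D.degree := Polynomial.degree_modByMonic_lt P hD
  have hinj : Function.Injective (Int.castRingHom ℝ) := Int.cast_injective
  have hlim := Polynomial.div_tendsto_atTop_zero_of_degree_lt (B.map (Int.castRingHom ℝ)) (D.map (Int.castRingHom ℝ))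
    (by rw [Polynomial.degree_map_eq_of_injective hinj, Polynomial.degree_map_eq_of_injective hinj]; exact hdeg)
  have hev : ∀ᶠ x : ℝ in Filter.atTop, |(B.map (Int.castRingHom ℝ)).eval x / (D.map (Int.castRingHom ℝ)).eval x| < 1 := by
    have h3 := (tendsto_order.1 hlim.abs).2 1 (by simp)
    exact h3
  obtain ⟨x₀, hx₀⟩ := Filter.eventually_atTop.1 hev
  obtain ⟨N, hN⟩ := exists_nat_ge x₀
  refine Polynomial.eq_zero_of_infinite_isRoot B ?_
  have hinf : (Set.Infinite {n : ℕ | N ≤ n ∧ n.Prime}) := by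
    refine Set.infinite_of_not_bddAbove ?_
    rintro ⟨m, hm⟩
    obtain ⟨p, hp1, hp2⟩ := Nat.exists_infinite_primes (max N (m + 1))
    have := hm ⟨(le_max_left _ _).trans hp1, hp2⟩
    have h5 : m + 1 ≤ p := (le_max_right _ _).trans hp1
    omega
  refine (hinf.image (f := fun n : ℕ => (n : ℤ)) (fun a _ b _ hab => Int.ofNat_inj.1 hab)).mono ?_
  rintro _ ⟨p, ⟨hp1, hp2⟩, rfl⟩
  have h6 := hx₀ (p : ℝ) (hN.trans (by exact_mod_cast hp1))
  have e1 : ∀ Q : ℤ[X], (Q.map (Int.castRingHom ℝ)).eval (p : ℝ) = ((Q.eval (p : ℤ) : ℤ) : ℝ) := by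
    intro Q
    have : (p : ℝ) = Int.castRingHom ℝ (p : ℤ) := by simp
    rw [this, Polynomial.eval_map_apply]
    simp
  rw [e1, e1, abs_div] at h6
  change B.eval (p : ℤ) = 0
  by_contra hne
  have hd := hdiv p hp2
  have hD0 : D.eval (p : ℤ) ≠ 0 := by
    intro h0
    rw [h0, zero_dvd_iff] at hd
    exact hne hd
  have h7 : |D.eval (p : ℤ)| ≤ |B.eval (p : ℤ)| := by
    obtain ⟨t, ht⟩ := hd
    rw [ht, abs_mul]
    have : t ≠ 0 := by
      rintro rfl
      exact hne (by rw [ht, mul_zero])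
    have : 1 ≤ |t| := Int.one_le_abs this
    nlinarith [abs_nonneg (D.eval (p : ℤ))]
  have h8 : (0 : ℝ) < |((D.eval (p : ℤ) : ℤ) : ℝ)| := abs_pos.2 (by exact_mod_cast hD0)
  rw [div_lt_one h8] at h6
  have h9 : |B.eval (p : ℤ)| < |D.eval (p : ℤ)| := by exact_mod_cast h6
  omega

end Pool.Agent.PPL
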