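import Mathlib
import Pool.Agent.PPL.CNT
import Pool.Agent.PPL.ORB
import Pool.Agent.PPL.POA

/-! # The quotient polynomial exists

`exists_quot`: `stable_count` and `orbit_count` for `Ω = AlgebraicClosure (ZMod p)`, `q = p`
(`hyp_algClosure` with `r = 1`). `D = X ^ 3 * ((X ^ 2 - 1) * (X ^ 3 - 1))` is monic. -/

noncomputable section

namespace Pool.Agent.PPL

open Polynomial Module
open scoped Classical LinearAlgebra.Projectivization
open Pool.Agent.Mbar (Setup SSet IsSP)

variable {R : Type} [Fintype R]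

theorem exists_quot (h3 : ¬ 3 ∣ Fintype.card R) (τ : Equiv.Perm R) :
    ∃ N : ℤ[X], numP τ = X ^ 3 * ((X ^ 2 - 1) * (X ^ 3 - 1)) * N := by
  have m2 : (X ^ 2 - 1 : ℤ[X]).Monic := by
    have := monic_X_pow_sub_C (1 : ℤ) (n := 2) (by norm_num)
    rwa [C_1] at this
  have m3 : (X ^ 3 - 1 : ℤ[X]).Monic := by
    have := monic_X_pow_sub_C (1 : ℤ) (n := 3) (by norm_num)
    rwa [C_1] at this
  have hR : 1 ≤ Fintype.card R := by
    by_contra h
    apply h3
    rw [show Fintype.card R = 0 by omega]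
    exact dvd_zero 3
  have hD : (X ^ 3 * ((X ^ 2 - 1) * (X ^ 3 - 1)) : ℤ[X]).Monic := (monic_X_pow 3).mul (m2.mul m3)
  refine dvd_of_eval hD fun p hp => ?_
  have : Fact p.Prime := ⟨hp⟩
  have hq : Hyp (AlgebraicClosure (ZMod p)) p := by
    have := hyp_algClosure p (r := 1) le_rfl
    rwa [pow_one] at this
  obtain ⟨h4, h5⟩ := stable_count hq h3 τ
  have h6 := orbit_count hq hR τ h4
  rw [h5] at h6
  refine ⟨(twCount (AlgebraicClosure (ZMod p)) p τ : ℤ), ?_⟩
  rw [h6]
  simp only [eval_mul, eval_pow, eval_sub, eval_X, eval_one]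

end Pool.Agent.PPL
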