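import Mathlib
import Pool.Agent.PPL.COE

/-! # Symmetry of the polynomial `numP`

`numP_palin`: the bijection `s ↦ (Equiv.swap 0 2) ∘ s` of `Inv τ` exchanges `a = cnt s 0` and
`c = cnt s 2`; with `n = a + b + c` (`cnt_sum'`) the summand of `s` has the coefficient of degree `j` equal
to the coefficient of degree `2 n + 3 - j` of the summand of the image:
`X^(b+2c+3)` and `X^(b+2a)` if `n < 3 a`, `3 c < n` (image: `3 a' < n < 3 c'`);
`-X^(b+2c+1) - X^(b+2c+2)` and `-X^(b+2a+1) - X^(b+2a+2)` in the mixed cases (use `3 ∤ n` to know that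
`3 a ≠ n`, `3 c ≠ n`). Degrees: all exponents are at most `2 n + 3` by the same remark. -/

noncomputable section

namespace Pool.Agent.PPL

open Polynomial Module
open scoped Classical LinearAlgebra.Projectivization
open Pool.Agent.Mbar (Setup SSet IsSP)

variable {R : Type} [Fintype R]

private def POC_t (n a b c : ℕ) : ℤ[X] :=
  X ^ (b + 2 * c) * (if n < 3 * a then (if 3 * c < n then X ^ 3 else -X - X ^ 2)
    else (if 3 * c < n then -X - X ^ 2 else 1))

private lemma POC_m3 (e j : ℕ) : (X ^ e * X ^ 3 : ℤ[X]).coeff j = if j = e + 3 then 1 else 0 := by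
  rw [← pow_add, Polynomial.coeff_X_pow]

private lemma POC_m2 (e j : ℕ) : (X ^ e * (-X - X ^ 2) : ℤ[X]).coeff j =
    (if j = e + 1 then -1 else 0) + (if j = e + 2 then -1 else 0) := by
  have h1 : (X ^ e * (-X - X ^ 2) : ℤ[X]) = -X ^ (e + 1) - X ^ (e + 2) := by ring
  rw [h1, Polynomial.coeff_sub, Polynomial.coeff_neg, Polynomial.coeff_X_pow, Polynomial.coeff_X_pow]
  split_ifs <;> norm_num

private lemma POC_m0 (e j : ℕ) : (X ^ e * 1 : ℤ[X]).coeff j = if j = e then 1 else 0 := by
  rw [mul_one, Polynomial.coeff_X_pow]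

private lemma POC_pal {n a b c j : ℕ} (h : a + b + c = n) (h3 : ¬ 3 ∣ n) (hj : j ≤ 2 * n + 3) :
    (POC_t n a b c).coeff j = (POC_t n c b a).coeff (2 * n + 3 - j) := by
  have ha : 3 * a ≠ n := fun h' => h3 ⟨a, h'.symm⟩
  have hc : 3 * c ≠ n := fun h' => h3 ⟨c, h'.symm⟩
  unfold POC_t
  by_cases h1 : n < 3 * a
  · by_cases h2 : 3 * c < n
    · rw [if_pos h1, if_pos h2, if_neg (by omega : ¬ n < 3 * c), if_neg (by omega : ¬ 3 * a < n),
        POC_m3, POC_m0]
      by_cases h4 : j = b + 2 * c + 3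
      · rw [if_pos h4, if_pos (by omega)]
      · rw [if_neg h4, if_neg (by omega)]
    · rw [if_pos h1, if_neg h2, if_pos (by omega : n < 3 * c), if_neg (by omega : ¬ 3 * a < n),
        POC_m2, POC_m2, add_comm]
      congr 1
      · by_cases h4 : j = b + 2 * c + 2
        · rw [if_pos h4, if_pos (by omega)]
        · rw [if_neg h4, if_neg (by omega)]
      · by_cases h4 : j = b + 2 * c + 1
        · rw [if_pos h4, if_pos (by omega)]
        · rw [if_neg h4, if_neg (by omega)]
  · by_cases h2 : 3 * c < n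
    · rw [if_neg h1, if_pos h2, if_neg (by omega : ¬ n < 3 * c), if_pos (by omega : 3 * a < n),
        POC_m2, POC_m2, add_comm]
      congr 1
      · by_cases h4 : j = b + 2 * c + 2
        · rw [if_pos h4, if_pos (by omega)]
        · rw [if_neg h4, if_neg (by omega)]
      · by_cases h4 : j = b + 2 * c + 1
        · rw [if_pos h4, if_pos (by omega)]
        · rw [if_neg h4, if_neg (by omega)]
    · rw [if_neg h1, if_neg h2, if_pos (by omega : n < 3 * c), if_pos (by omega : 3 * a < n),
        POC_m3, POC_m0]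
      by_cases h4 : j = b + 2 * c
      · rw [if_pos h4, if_pos (by omega)]
      · rw [if_neg h4, if_neg (by omega)]

private lemma POC_high {n a b c j : ℕ} (h : a + b + c = n) (hj : 2 * n + 3 < j) :
    (POC_t n a b c).coeff j = 0 := by
  unfold POC_t
  split_ifs
  · rw [POC_m3, if_neg (by omega)]
  · rw [POC_m2, if_neg (by omega), if_neg (by omega), add_zero]
  · rw [POC_m2, if_neg (by omega), if_neg (by omega), add_zero]
  · rw [POC_m0, if_neg (by omega)]

private lemma POC_cnt (s : R → Fin 3) (i : Fin 3) :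
    cnt (fun x => Equiv.swap (0 : Fin 3) 2 (s x)) i = cnt s (Equiv.swap (0 : Fin 3) 2 i) := by
  unfold cnt
  congr 1
  ext x
  simp only [Finset.mem_filter, Finset.mem_univ, true_and]
  exact Equiv.swap_apply_eq_iff

private lemma POC_term (s : R → Fin 3) :
    (X ^ (cnt s 1 + 2 * cnt s 2) * wt s : ℤ[X]) = POC_t (Fintype.card R) (cnt s 0) (cnt s 1) (cnt s 2) := rfl

theorem numP_palin (h3 : ¬ 3 ∣ Fintype.card R) (τ : Equiv.Perm R) (j : ℕ)
    (hj : j ≤ 2 * Fintype.card R + 3) :
    (numP τ).coeff j = (numP τ).coeff (2 * Fintype.card R + 3 - j) := by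
  unfold numP
  simp only [POC_term, Polynomial.finsetSum_coeff]
  refine Finset.sum_bij' (fun s _ => fun x => Equiv.swap (0 : Fin 3) 2 (s x))
    (fun s _ => fun x => Equiv.swap (0 : Fin 3) 2 (s x)) ?_ ?_ ?_ ?_ ?_
  · intro s hs
    simp only [Inv, Finset.mem_filter, Finset.mem_univ, true_and] at hs ⊢
    intro i
    rw [hs i]
  · intro s hs
    simp only [Inv, Finset.mem_filter, Finset.mem_univ, true_and] at hs ⊢
    intro i
    rw [hs i]
  · intro s _
    funext x
    exact Equiv.swap_apply_self 0 2 _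
  · intro s _
    funext x
    exact Equiv.swap_apply_self 0 2 _
  · intro s _
    rw [POC_cnt, POC_cnt, POC_cnt, Equiv.swap_apply_left, Equiv.swap_apply_right,
      Equiv.swap_apply_of_ne_of_ne (by decide : (1 : Fin 3) ≠ 0) (by decide : (1 : Fin 3) ≠ 2)]
    exact POC_pal (cnt_sum' s) h3 hj

theorem numP_high (h3 : ¬ 3 ∣ Fintype.card R) (τ : Equiv.Perm R) (j : ℕ)
    (hj : 2 * Fintype.card R + 3 < j) : (numP τ).coeff j = 0 := by
  unfold numP
  simp only [POC_term, Polynomial.finsetSum_coeff]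
  exact Finset.sum_eq_zero fun s _ => POC_high (cnt_sum' s) hj

end Pool.Agent.PPL
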