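import Mathlib
import Pool.Agent.PPL.POC

/-! # Symmetry of the quotient polynomial

`quot_palin`: `D` has degree `8` and its coefficients satisfy `D_j = D_(11 - j)`. From `numP τ = D * N`,
`natDegree N = natDegree (numP τ) - 8`, and the coefficients `0, 1, 2` of `numP τ` vanish, so by
`numP_palin` those of degree `> 2 n` do, and `natDegree N ≤ 2 n - 8` (if `N ≠ 0`). Then compare
`reflect`: `(numP τ).reflect (2 n + 3) = D.reflect 11 * N.reflect (2 n - 8)`
(`Polynomial.reflect_mul`, `reflect_X_pow` etc.; `D.reflect 11 = D`), hence `D * N.reflect (2 n - 8) = D * N`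
and `N.reflect (2 n - 8) = N`. -/

noncomputable section

namespace Pool.Agent.PPL

open Polynomial Module
open scoped Classical LinearAlgebra.Projectivization
open Pool.Agent.Mbar (Setup SSet IsSP)

variable {R : Type} [Fintype R]

private theorem POL_D : (X ^ 3 * ((X ^ 2 - 1) * (X ^ 3 - 1)) : ℤ[X]) = X ^ 8 - X ^ 6 - X ^ 5 + X ^ 3 := by
  ring

private theorem POL_coeff (i : ℕ) : (X ^ 8 - X ^ 6 - X ^ 5 + X ^ 3 : ℤ[X]).coeff i
    = (if i = 8 then 1 else 0) - (if i = 6 then 1 else 0) - (if i = 5 then 1 else 0)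
      + (if i = 3 then 1 else 0) := by
  rw [coeff_add, coeff_sub, coeff_sub, coeff_X_pow, coeff_X_pow, coeff_X_pow, coeff_X_pow]

private theorem POL_refl : reflect 11 (X ^ 8 - X ^ 6 - X ^ 5 + X ^ 3 : ℤ[X])
    = X ^ 8 - X ^ 6 - X ^ 5 + X ^ 3 := by
  ext i
  rw [coeff_reflect]
  by_cases hi : i ≤ 11
  · rw [revAt_le hi, POL_coeff, POL_coeff]
    interval_cases i <;> rfl
  · rw [revAt_eq_self_of_lt (not_le.1 hi)]

private theorem POL_monic : (X ^ 3 * ((X ^ 2 - 1) * (X ^ 3 - 1)) : ℤ[X]).Monic := by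
  refine (monic_X_pow 3).mul (Monic.mul ?_ ?_)
  · exact monic_X_pow_sub_C (1 : ℤ) two_ne_zero
  · exact monic_X_pow_sub_C (1 : ℤ) three_ne_zero

private theorem POL_deg : (X ^ 3 * ((X ^ 2 - 1) * (X ^ 3 - 1)) : ℤ[X]).natDegree = 8 := by
  rw [POL_D]
  compute_degree!

theorem quot_palin (h3 : ¬ 3 ∣ Fintype.card R) (h4 : 4 ≤ Fintype.card R) (τ : Equiv.Perm R)
    {N : ℤ[X]} (hN : numP τ = X ^ 3 * ((X ^ 2 - 1) * (X ^ 3 - 1)) * N) :
    (∀ k, k ≤ 2 * Fintype.card R - 8 → N.coeff k = N.coeff (2 * Fintype.card R - 8 - k)) ∧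
    ∀ k, 2 * Fintype.card R - 8 < k → N.coeff k = 0 := by
  rcases eq_or_ne N 0 with h0 | h0
  · subst h0
    simp
  have hdeg : N.natDegree ≤ 2 * Fintype.card R - 8 := by
    have h1 : (numP τ).natDegree = 8 + N.natDegree := by
      rw [hN, POL_monic.natDegree_mul' h0, POL_deg]
    have h2 : (numP τ).natDegree ≤ 2 * Fintype.card R := by
      rw [natDegree_le_iff_coeff_eq_zero]
      intro j hj
      by_cases hj' : 2 * Fintype.card R + 3 < j
      · exact numP_high h3 τ j hj'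
      · rw [numP_palin h3 τ j (not_lt.1 hj'), hN, mul_assoc, coeff_X_pow_mul', if_neg (by omega)]
    omega
  have hself : reflect (2 * Fintype.card R + 3) (numP τ) = numP τ := by
    ext j
    rw [coeff_reflect]
    by_cases hj : j ≤ 2 * Fintype.card R + 3
    · rw [revAt_le hj, ← numP_palin h3 τ j hj]
    · rw [revAt_eq_self_of_lt (not_le.1 hj)]
  have hmul : reflect (2 * Fintype.card R + 3) (numP τ)
      = (X ^ 3 * ((X ^ 2 - 1) * (X ^ 3 - 1))) * reflect (2 * Fintype.card R - 8) N := by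
    have h1 := reflect_mul (X ^ 3 * ((X ^ 2 - 1) * (X ^ 3 - 1)) : ℤ[X]) N (F := 11)
      (G := 2 * Fintype.card R - 8) (by rw [POL_deg]; omega) hdeg
    have e : 11 + (2 * Fintype.card R - 8) = 2 * Fintype.card R + 3 := by omega
    rw [e, ← hN] at h1
    rw [h1, POL_D, POL_refl]
  have hN' : reflect (2 * Fintype.card R - 8) N = N := by
    rw [hself] at hmul
    have h1 : (X ^ 3 * ((X ^ 2 - 1) * (X ^ 3 - 1)) : ℤ[X]) * N
        = (X ^ 3 * ((X ^ 2 - 1) * (X ^ 3 - 1))) * reflect (2 * Fintype.card R - 8) N := by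
      rw [← hN]
      exact hmul
    exact (mul_left_cancel₀ POL_monic.ne_zero h1).symm
  constructor
  · intro k hk
    conv_lhs => rw [← hN']
    rw [coeff_reflect, revAt_le hk]
  · intro k hk
    exact coeff_eq_zero_of_natDegree_lt (lt_of_le_of_lt hdeg hk)

end Pool.Agent.PPL
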