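import Mathlib
import Pool.Agent.PPL.COE
import Pool.Agent.PPL.TSP

/-! # Collecting the ordered partitions with the same parts

`kap_sum`: the left side is the sum over all triples `(a, b, c)` with sum `n` of
`kap n k a b c * T τ a b c` (`Finset.sum_fiberwise`, `cnt_sum'`). Group the triples by `srt a b c ∈ trip n`
and use `T_srt`. It remains to see, for `x ≥ y ≥ z`, `x + y + z = n`, that the sum of `kap n k u` over
the different rearrangements `u` of `(x, y, z)` is `cf n k x y z` (`kap_orbit`). Not all three are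
equal as `3 ∤ n`. With `k + 4 ≤ n`:
- `x > y > z`, `n < 3 y`: `kap` of `(x,y,z)`, `(y,x,z)` is `pz (k-y-2z)`, `pz (k-x-2z)`; of `(x,z,y)` it is
`-gz (k+2-z-2y) = -gz (k+2-n+x-y)`; of `(y,z,x)` it is `-gz (k+2-z-2x) = 0` as the argument is
negative; of `(z,x,y)` and `(z,y,x)` it is `pz` of a negative number, so `0`;
- `x = y > z` (`n < 3 y`): three rearrangements `(x,x,z)`, `(x,z,x)`, `(z,x,x)`: `pz (k-x-2z)`, `-gz (k+2-n) = 0`, `0`;
- `x > y > z`, `3 y < n`: `(x,y,z)`, `(x,z,y)`: `pz (k-y-2z)`, `pz (k-z-2y)`; `(y,x,z)`: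
`-gz (k+2-x-2z) = -gz (k+2-n+y-z)`; `(z,x,y)`: `-gz (k+2-x-2y) = 0`; `(y,z,x)`, `(z,y,x)`: `0`;
- `x > y = z` (`3 y < n`): `(x,y,y)`: `pz (k-3y)`; `(y,x,y)`: `-gz (k+2-n) = 0`; `(y,y,x)`: `0`. -/

noncomputable section

namespace Pool.Agent.PPL

open scoped Classical

variable {R : Type} [Fintype R]

private theorem SYM_pz {N : ℤ} (h : N < 0) : pz N = 0 := if_pos h

private theorem SYM_gz {N : ℤ} (h : N < 0) : gz N = 0 := if_pos h

private theorem SYM_k1 {n k a b c : ℕ} (h1 : n < 3 * a) (h2 : 3 * c < n) :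
    kap n k a b c = pz ((k : ℤ) - b - 2 * c) := by
  unfold kap
  rw [if_pos h1, if_pos h2]

private theorem SYM_k2 {n k a b c : ℕ} (h1 : n < 3 * a) (h2 : ¬ 3 * c < n) :
    kap n k a b c = -gz ((k : ℤ) + 2 - b - 2 * c) := by
  unfold kap
  rw [if_pos h1, if_neg h2]

private theorem SYM_k3 {n k a b c : ℕ} (h1 : ¬ n < 3 * a) (h2 : 3 * c < n) :
    kap n k a b c = -gz ((k : ℤ) + 2 - b - 2 * c) := by
  unfold kap
  rw [if_neg h1, if_pos h2]

private theorem SYM_k4 {n k a b c : ℕ} (h1 : ¬ n < 3 * a) (h2 : ¬ 3 * c < n) :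
    kap n k a b c = pz ((k : ℤ) + 3 - b - 2 * c) := by
  unfold kap
  rw [if_neg h1, if_neg h2]

theorem kap_orbit {n k x y z : ℕ} (hs : x + y + z = n) (hxy : y ≤ x) (hyz : z ≤ y)
    (h3 : ¬ 3 ∣ n) (hk : k + 4 ≤ n) :
    ∑ u ∈ ({(x, y, z), (x, z, y), (y, x, z), (y, z, x), (z, x, y), (z, y, x)} : Finset (ℕ × ℕ × ℕ)),
      kap n k u.1 u.2.1 u.2.2 = cf n k x y z := by
  rcases Nat.lt_or_ge y x with h1 | h1
  · rcases Nat.lt_or_ge z y with h2 | h2
    · have hset : ∀ g : ℕ × ℕ × ℕ → ℤ,
          ∑ u ∈ ({(x, y, z), (x, z, y), (y, x, z), (y, z, x), (z, x, y), (z, y, x)} :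
            Finset (ℕ × ℕ × ℕ)), g u =
          g (x, y, z) + (g (x, z, y) + (g (y, x, z) + (g (y, z, x) + (g (z, x, y) + g (z, y, x))))) := by
        intro g
        rw [Finset.sum_insert, Finset.sum_insert, Finset.sum_insert, Finset.sum_insert,
          Finset.sum_insert, Finset.sum_singleton]
        all_goals
          simp only [Finset.mem_insert, Finset.mem_singleton, Prod.mk.injEq, not_or, not_and]
          omega
      rw [hset]
      rcases Nat.lt_or_ge n (3 * y) with h4 | h4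
      · rw [SYM_k1 (a := x) (b := y) (c := z) (by omega) (by omega),
          SYM_k2 (a := x) (b := z) (c := y) (by omega) (by omega),
          SYM_k1 (a := y) (b := x) (c := z) (by omega) (by omega),
          SYM_k2 (a := y) (b := z) (c := x) (by omega) (by omega),
          SYM_k4 (a := z) (b := x) (c := y) (by omega) (by omega),
          SYM_k4 (a := z) (b := y) (c := x) (by omega) (by omega)]
        rw [SYM_gz (N := (k : ℤ) + 2 - z - 2 * x) (by omega),
          SYM_pz (N := (k : ℤ) + 3 - x - 2 * y) (by omega),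
          SYM_pz (N := (k : ℤ) + 3 - y - 2 * x) (by omega)]
        unfold cf
        rw [if_pos h4, if_neg (by omega),
          show (k : ℤ) + 2 - n + x - y = (k : ℤ) + 2 - z - 2 * y by omega]
        ring
      · rw [SYM_k1 (a := x) (b := y) (c := z) (by omega) (by omega),
          SYM_k1 (a := x) (b := z) (c := y) (by omega) (by omega),
          SYM_k3 (a := y) (b := x) (c := z) (by omega) (by omega),
          SYM_k4 (a := y) (b := z) (c := x) (by omega) (by omega),
          SYM_k3 (a := z) (b := x) (c := y) (by omega) (by omega),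
          SYM_k4 (a := z) (b := y) (c := x) (by omega) (by omega)]
        rw [SYM_gz (N := (k : ℤ) + 2 - x - 2 * y) (by omega),
          SYM_pz (N := (k : ℤ) + 3 - z - 2 * x) (by omega),
          SYM_pz (N := (k : ℤ) + 3 - y - 2 * x) (by omega)]
        unfold cf
        rw [if_neg (by omega), if_neg (by omega),
          show (k : ℤ) + 2 - n + y - z = (k : ℤ) + 2 - x - 2 * z by omega]
        ring
    · obtain rfl : y = z := by omega
      have hset : ∀ g : ℕ × ℕ × ℕ → ℤ,
          ∑ u ∈ ({(x, y, y), (x, y, y), (y, x, y), (y, y, x), (y, x, y), (y, y, x)} :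
            Finset (ℕ × ℕ × ℕ)), g u = g (x, y, y) + (g (y, x, y) + g (y, y, x)) := by
        intro g
        have : ({(x, y, y), (x, y, y), (y, x, y), (y, y, x), (y, x, y), (y, y, x)} :
            Finset (ℕ × ℕ × ℕ)) = {(x, y, y), (y, x, y), (y, y, x)} := by
          ext u
          simp only [Finset.mem_insert, Finset.mem_singleton]
          tauto
        rw [this, Finset.sum_insert, Finset.sum_insert, Finset.sum_singleton]
        all_goals
          simp only [Finset.mem_insert, Finset.mem_singleton, Prod.mk.injEq, not_or, not_and]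
          omega
      rw [hset]
      rw [SYM_k1 (a := x) (b := y) (c := y) (by omega) (by omega),
          SYM_k3 (a := y) (b := x) (c := y) (by omega) (by omega),
          SYM_k4 (a := y) (b := y) (c := x) (by omega) (by omega)]
      rw [SYM_gz (N := (k : ℤ) + 2 - x - 2 * y) (by omega),
          SYM_pz (N := (k : ℤ) + 3 - y - 2 * x) (by omega)]
      unfold cf
      rw [if_neg (by omega), if_pos rfl]
      ring
  · obtain rfl : y = x := by omega
    have hset : ∀ g : ℕ × ℕ × ℕ → ℤ,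
        ∑ u ∈ ({(y, y, z), (y, z, y), (y, y, z), (y, z, y), (z, y, y), (z, y, y)} :
          Finset (ℕ × ℕ × ℕ)), g u = g (y, y, z) + (g (y, z, y) + g (z, y, y)) := by
      intro g
      have : ({(y, y, z), (y, z, y), (y, y, z), (y, z, y), (z, y, y), (z, y, y)} :
          Finset (ℕ × ℕ × ℕ)) = {(y, y, z), (y, z, y), (z, y, y)} := by
        ext u
        simp only [Finset.mem_insert, Finset.mem_singleton]
        tauto
      rw [this, Finset.sum_insert, Finset.sum_insert, Finset.sum_singleton]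
      all_goals
        simp only [Finset.mem_insert, Finset.mem_singleton, Prod.mk.injEq, not_or, not_and]
        omega
    rw [hset]
    rw [SYM_k1 (a := y) (b := y) (c := z) (by omega) (by omega),
        SYM_k2 (a := y) (b := z) (c := y) (by omega) (by omega),
        SYM_k4 (a := z) (b := y) (c := y) (by omega) (by omega)]
    rw [SYM_gz (N := (k : ℤ) + 2 - z - 2 * y) (by omega),
        SYM_pz (N := (k : ℤ) + 3 - y - 2 * y) (by omega)]
    unfold cf
    rw [if_pos (by omega), if_pos rfl]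
    ring

theorem kap_sum (h3 : ¬ 3 ∣ Fintype.card R) {k : ℕ} (hk : k + 4 ≤ Fintype.card R)
    (τ : Equiv.Perm R) :
    ∑ s ∈ Inv τ, kap (Fintype.card R) k (cnt s 0) (cnt s 1) (cnt s 2) =
      ∑ t ∈ trip (Fintype.card R), cf (Fintype.card R) k t.1 t.2.1 t.2.2 *
        (T τ t.1 t.2.1 t.2.2 : ℤ) := by
  set n := Fintype.card R with hn
  let al : Finset (ℕ × ℕ × ℕ) :=
    ((Finset.range (n + 1)) ×ˢ (Finset.range (n + 1)) ×ˢ (Finset.range (n + 1))).filter
      (fun t => t.1 + t.2.1 + t.2.2 = n)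
  have hal : ∀ a b c : ℕ, (a, b, c) ∈ al ↔ a + b + c = n := by
    intro a b c
    simp only [al, Finset.mem_filter, Finset.mem_product, Finset.mem_range]
    omega
  have h1 : ∑ s ∈ Inv τ, kap n k (cnt s 0) (cnt s 1) (cnt s 2) =
      ∑ u ∈ al, kap n k u.1 u.2.1 u.2.2 * (T τ u.1 u.2.1 u.2.2 : ℤ) := by
    rw [← Finset.sum_fiberwise_of_maps_to (s := Inv τ) (t := al)
      (g := fun s => (cnt s 0, cnt s 1, cnt s 2)) (by
        intro s _
        exact (hal _ _ _).2 (cnt_sum' s))]
    refine Finset.sum_congr rfl ?_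
    rintro ⟨a, b, c⟩ -
    have h2 : ∀ s ∈ (Inv τ).filter (fun s => (cnt s 0, cnt s 1, cnt s 2) = (a, b, c)),
        kap n k (cnt s 0) (cnt s 1) (cnt s 2) = kap n k a b c := by
      intro s hs
      have h3 := (Finset.mem_filter.1 hs).2
      simp only [Prod.mk.injEq] at h3
      rw [h3.1, h3.2.1, h3.2.2]
    rw [Finset.sum_congr rfl h2, Finset.sum_const, nsmul_eq_mul, mul_comm]
    unfold T
    simp only [Prod.mk.injEq]
  have h2 : ∑ u ∈ al, kap n k u.1 u.2.1 u.2.2 * (T τ u.1 u.2.1 u.2.2 : ℤ) =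
      ∑ t ∈ trip n, ∑ u ∈ al.filter (fun u => srt u.1 u.2.1 u.2.2 = t),
        kap n k u.1 u.2.1 u.2.2 * (T τ u.1 u.2.1 u.2.2 : ℤ) := by
    rw [← Finset.sum_fiberwise_of_maps_to (s := al) (t := trip n)
      (g := fun u => srt u.1 u.2.1 u.2.2)]
    rintro ⟨a, b, c⟩ hu
    have h3 := (hal a b c).1 hu
    simp only [trip, srt, Finset.mem_filter, Finset.mem_product, Finset.mem_range]
    omega
  rw [h1, h2]
  refine Finset.sum_congr rfl ?_
  rintro ⟨x, y, z⟩ ht
  have ht' : x + y + z = n ∧ y ≤ x ∧ z ≤ y := by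
    simp only [trip, Finset.mem_filter, Finset.mem_product, Finset.mem_range] at ht
    exact ht.2
  obtain ⟨e1, e2, e3⟩ := ht'
  have h3' : ∀ u ∈ al.filter (fun u => srt u.1 u.2.1 u.2.2 = (x, y, z)),
      kap n k u.1 u.2.1 u.2.2 * (T τ u.1 u.2.1 u.2.2 : ℤ) =
        kap n k u.1 u.2.1 u.2.2 * (T τ x y z : ℤ) := by
    intro u hu
    have h4 := (Finset.mem_filter.1 hu).2
    rw [T_srt τ u.1 u.2.1 u.2.2, h4]
  rw [Finset.sum_congr rfl h3', ← Finset.sum_mul]
  congr 1
  rw [← kap_orbit e1 e2 e3 h3 hk]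
  refine Finset.sum_congr ?_ fun _ _ => rfl
  ext ⟨a, b, c⟩
  simp only [Finset.mem_filter, hal, srt, Prod.mk.injEq, Finset.mem_insert, Finset.mem_singleton]
  constructor
  · rintro ⟨h4, h5, h6, h7⟩
    rcases le_total b a with p | p
    · rcases le_total c b with q | q
      · exact Or.inl ⟨by omega, by omega, by omega⟩
      · rcases le_total c a with r | r
        · exact Or.inr (Or.inl ⟨by omega, by omega, by omega⟩)
        · exact Or.inr (Or.inr (Or.inr (Or.inl ⟨by omega, by omega, by omega⟩)))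
    · rcases le_total c b with q | q
      · rcases le_total c a with r | r
        · exact Or.inr (Or.inr (Or.inl ⟨by omega, by omega, by omega⟩))
        · exact Or.inr (Or.inr (Or.inr (Or.inr (Or.inl ⟨by omega, by omega, by omega⟩))))
      · exact Or.inr (Or.inr (Or.inr (Or.inr (Or.inr ⟨by omega, by omega, by omega⟩))))
  · intro h
    rcases h with ⟨rfl, rfl, rfl⟩ | ⟨rfl, rfl, rfl⟩ | ⟨rfl, rfl, rfl⟩ | ⟨rfl, rfl, rfl⟩ |
      ⟨rfl, rfl, rfl⟩ | ⟨rfl, rfl, rfl⟩ <;> exact ⟨by omega, by omega, by omega, by omega⟩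

end Pool.Agent.PPL
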