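import Mathlib
import Pool.Agent.PPL.POB
import Pool.Agent.PPL.POL
import Pool.Agent.PPL.SYM
import Pool.Agent.PPL.LOW
import Pool.Agent.Mbar.LMain
import Pool.Agent.helper4.FiniteBad

/-! # L-functions of the forms of the moduli space of points in the plane -/

noncomputable section

namespace Pool.Agent.PPL

open Pool.Agent.Helper4 Polynomial
open scoped Classical LinearAlgebra.Projectivization
open Pool.Agent.Mbar (Setup SSet IsSP L_main)

section relabel

variable {Ω : Type} [Field Ω] {R R' : Type}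

lemma hct_comp (e : R ≃ R') (x : R' → ℙ Ω (Fin 3 → Ω)) (U : Submodule Ω (Fin 3 → Ω)) :
    hct (fun i => x (e i)) U = hct x U :=
  Nat.card_congr (e.subtypeEquiv fun _ => Iff.rfl)

lemma Stable.comp (e : R ≃ R') {x : R' → ℙ Ω (Fin 3 → Ω)} (hx : Stable x) :
    Stable (fun i => x (e i)) := by
  intro U h1 h2
  rw [hct_comp, Nat.card_congr e]
  exact hx U h1 h2

/-- relabelling of classes -/
def relabel (Ω : Type) [Field Ω] (e : R ≃ R') :
    Quotient (projRel Ω R') ≃ Quotient (projRel Ω R) where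
  toFun := Quotient.map (fun x => ⟨fun i => x.1 (e i), x.2.comp e⟩)
    (fun _ _ ⟨g, hg⟩ => ⟨g, fun i => hg (e i)⟩)
  invFun := Quotient.map (fun x => ⟨fun i => x.1 (e.symm i), x.2.comp e.symm⟩)
    (fun _ _ ⟨g, hg⟩ => ⟨g, fun i => hg (e.symm i)⟩)
  left_inv c := by
    induction c using Quotient.inductionOn with | _ x
    refine congrArg (Quotient.mk _) (Subtype.ext ?_)
    funext i
    simp
  right_inv c := by
    induction c using Quotient.inductionOn with | _ x
    refine congrArg (Quotient.mk _) (Subtype.ext ?_)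
    funext i
    simp

/-- the condition on a class can be tested on one representative -/
lemma fixed_iff {q : ℕ} (hfr : ∀ g : GL (Fin 3) Ω, ∃ g' : GL (Fin 3) Ω,
    ∀ x : ℙ Ω (Fin 3 → Ω), frobPt q (g • x) = g' • frobPt q x) (ρ : R → R → Prop)
    (x : {x : R → ℙ Ω (Fin 3 → Ω) // Stable x}) :
    (∀ y, Quotient.mk (projRel Ω R) y = Quotient.mk (projRel Ω R) x →
      ∃ g : GL (Fin 3) Ω, ∀ i i', ρ i i' → frobPt q (y.1 i) = g • y.1 i') ↔
      ∃ g : GL (Fin 3) Ω, ∀ i i', ρ i i' → frobPt q (x.1 i) = g • x.1 i' := by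
  constructor
  · intro h
    exact h x rfl
  · rintro ⟨g, hg⟩ y hy
    obtain ⟨h, hh⟩ := (Quotient.eq (r := projRel Ω R)).mp hy.symm
    obtain ⟨h', hh'⟩ := hfr h
    refine ⟨h' * g * h⁻¹, fun i i' hr => ?_⟩
    rw [hh i, hh i', hh', hg i i' hr, mul_smul, inv_smul_smul, mul_smul]

end relabel

/-- the roots of `f` in an algebraic closure of the prime field -/
abbrev RootsIn (f : ℤ[X]) (p : ℕ) [Fact p.Prime] : Type :=
  {x : AlgebraicClosure (ZMod p) // f.eval₂ (Int.castRingHom _) x = 0}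

/-- the number of points over the field with `p ^ r` elements of the moduli space of stable families
of points in the plane labelled by the roots of `f` -/
def planeCount (f : ℤ[X]) (p : ℕ) [Fact p.Prime] (r : ℕ) : ℕ :=
  Nat.card {c : Quotient (projRel (AlgebraicClosure (ZMod p)) (RootsIn f p)) //
    ∀ x, Quotient.mk (projRel (AlgebraicClosure (ZMod p)) (RootsIn f p)) x = c →
      ∃ g : GL (Fin 3) (AlgebraicClosure (ZMod p)), ∀ i i', i'.1 = i.1 ^ (p ^ r) →
        frobPt (p ^ r) (x.1 i) = g • x.1 i'}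

lemma planeCount_eq (f : ℤ[X]) (p : ℕ) [Fact p.Prime] {r : ℕ} (hr : 1 ≤ r) {n : ℕ}
    (e : Fin n ≃ RootsIn f p)
    (τ : Equiv.Perm (Fin n)) (hτ : ∀ i, (e (τ i)).1 = (e i).1 ^ p) :
    planeCount f p r = twCount (AlgebraicClosure (ZMod p)) (p ^ r) (τ ^ r) := by
  have h1 : ∀ i, (e ((τ ^ r) i)).1 = (e i).1 ^ (p ^ r) := by
    clear hr
    induction r with
    | zero => intro i; simp
    | succ r ih =>
      intro i
      rw [pow_succ', Equiv.Perm.mul_apply, hτ, ih, ← pow_mul, pow_succ]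
  have hfr : ∀ g : GL (Fin 3) (AlgebraicClosure (ZMod p)),
      ∃ g' : GL (Fin 3) (AlgebraicClosure (ZMod p)),
        ∀ x, frobPt (p ^ r) (g • x) = g' • frobPt (p ^ r) x := fun g => by
    obtain ⟨g', -, h⟩ := exists_frobGL (hyp_algClosure p hr) g
    exact ⟨g', h⟩
  unfold planeCount twCount
  refine Nat.card_congr ((relabel _ e).subtypeEquiv fun c => ?_)
  induction c using Quotient.inductionOn with | _ x
  have h2 := fixed_iff hfr (fun i i' : RootsIn f p => i'.1 = i.1 ^ (p ^ r)) x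
  have h3 := fixed_iff hfr (fun i i' : Fin n => i' = (τ ^ r) i)
    (⟨fun i => x.1 (e i), x.2.comp e⟩ : {x : Fin n → ℙ _ (Fin 3 → _) // Stable x})
  refine h2.trans (Iff.trans ?_ (h3.symm.trans ?_))
  · refine exists_congr fun g => ?_
    constructor
    · rintro h i i' rfl
      exact h _ _ (h1 i)
    · intro h i i' hi
      have h4 := h (e.symm i) _ rfl
      have h5 : e ((τ ^ r) (e.symm i)) = i' := by
        apply Subtype.ext
        rw [h1, Equiv.apply_symm_apply, hi]
      simp only [Equiv.apply_symm_apply, h5] at h4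
      exact h4
  · constructor
    · intro h y hy
      obtain ⟨g, hg⟩ := h y hy
      exact ⟨g, fun i => hg i _ rfl⟩
    · intro h y hy
      obtain ⟨g, hg⟩ := h y hy
      exact ⟨g, by rintro i _ rfl; exact hg i⟩

/-- the graded signed permutation characters -/
theorem exists_chars {R : Type} [Fintype R] (h3 : ¬ 3 ∣ Fintype.card R)
    (h4 : 4 ≤ Fintype.card R) :
    ∃ (S : ℕ → SSet (Equiv.Perm R)), ∀ (Ω : Type) [Field Ω] (q : ℕ), Hyp Ω q →
      ∀ τ : Equiv.Perm R, (twCount Ω q τ : ℤ) =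
        ∑ k ∈ Finset.range (2 * Fintype.card R - 7), (q : ℤ) ^ k * (S k).tr τ := by
  choose N hN using fun τ : Equiv.Perm R => exists_quot h3 τ
  have hlow : ∀ k, k + 4 ≤ Fintype.card R → IsSP (fun τ => (N τ).coeff k) := by
    intro k hk
    refine (low_isSP h3 hk).congr fun τ => ?_
    rw [coeff_kap h3 h4 τ (hN τ) k, kap_sum h3 hk]
  have hall : ∀ k, IsSP (fun τ => (N τ).coeff k) := by
    intro k
    by_cases hk : k + 4 ≤ Fintype.card R
    · exact hlow k hk
    by_cases hk2 : k ≤ 2 * Fintype.card R - 8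
    · refine (hlow (2 * Fintype.card R - 8 - k) (by omega)).congr fun τ => ?_
      exact (quot_palin h3 h4 τ (hN τ)).1 k hk2
    · refine IsSP.zero.congr fun τ => ?_
      exact (quot_palin h3 h4 τ (hN τ)).2 k (by omega)
  choose S hS using hall
  refine ⟨S, fun Ω _ q hq τ => ?_⟩
  obtain ⟨hfin, hcount⟩ := stable_count (Ω := Ω) hq h3 τ
  have horb := orbit_count hq (by omega) τ hfin
  have hq1 : (1 : ℤ) < q := by exact_mod_cast hq.one_lt
  have hne : (q : ℤ) ^ 3 * (((q : ℤ) ^ 2 - 1) * ((q : ℤ) ^ 3 - 1)) ≠ 0 := by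
    have h5 : (1 : ℤ) < (q : ℤ) ^ 2 := one_lt_pow₀ hq1 (by norm_num)
    have h6 : (1 : ℤ) < (q : ℤ) ^ 3 := one_lt_pow₀ hq1 (by norm_num)
    have h9 : (0 : ℤ) < q := by linarith
    have h10 : (0 : ℤ) < (q : ℤ) ^ 2 - 1 := by linarith
    have h11 : (0 : ℤ) < (q : ℤ) ^ 3 - 1 := by linarith
    positivity
  rw [hcount, hN τ] at horb
  simp only [eval_mul, eval_pow, eval_sub, eval_X, eval_one] at horb
  have h7 : (twCount Ω q τ : ℤ) = (N τ).eval (q : ℤ) := (mul_left_cancel₀ hne horb).symm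
  rw [h7, eval_eq_sum_range' (n := 2 * Fintype.card R - 7)]
  · refine Finset.sum_congr rfl fun k _ => ?_
    have h12 : (N τ).coeff k = (S k).tr τ := hS k τ
    rw [h12, mul_comm]
  · by_contra hd
    have h8 := (quot_palin h3 h4 τ (hN τ)).2 (N τ).natDegree (by omega)
    rw [coeff_natDegree, leadingCoeff_eq_zero] at h8
    rw [h8, natDegree_zero] at hd
    omega

/-- the moduli space of points in the plane: signed permutation characters and L-functions -/
theorem plane_main (n : ℕ) (h3 : ¬ 3 ∣ n) (h4 : 4 ≤ n) :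
    ∃ (S : ℕ → SSet (Equiv.Perm (Fin n))),
      (∀ (Ω : Type) [Field Ω] (q : ℕ), Hyp Ω q → ∀ τ : Equiv.Perm (Fin n),
        (twCount Ω q τ : ℤ) = ∑ k ∈ Finset.range (2 * n - 7), (q : ℤ) ^ k * (S k).tr τ) ∧
      ∀ f : ℤ[X], f.Monic → (f.map (Int.castRingHom ℚ)).Separable → f.natDegree = n →
        Q1Sys {p | p.Prime ∧ ¬ (f.map (Int.castRingHom (ZMod p))).Separable}
          (fun p _ r => planeCount f p r) := by
  obtain ⟨S, hS⟩ := exists_chars (R := Fin n) (by rwa [Fintype.card_fin])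
    (by rwa [Fintype.card_fin])
  rw [Fintype.card_fin] at hS
  refine ⟨S, hS, fun f hf hsep hdeg => ?_⟩
  refine L_main hf hsep hdeg (2 * n - 7) S _ ?_
  intro p hp hsepp e τ hτ r hr
  show (planeCount f p r : ℤ) = _
  rw [planeCount_eq f p hr e τ hτ, hS _ _ (hyp_algClosure p hr)]
  refine Finset.sum_congr rfl fun k _ => ?_
  push_cast
  rw [pow_mul]

end Pool.Agent.PPL
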